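import Mathlib

set_option autoImplicit false

namespace Pool.Agent.TH532

open AlgebraicIndependent

/-- For an algebraically independent family there is, for each index, a subfield closed under
square roots that contains all members of the family but the given one. -/
theorem exists_field {ι : Type} (v : ι → ℂ) (hv : AlgebraicIndependent ℚ v) (j : ι) :
    ∃ F : Subfield ℂ, (∀ i, i ≠ j → v i ∈ F) ∧ v j ∉ F ∧ ∀ z : ℂ, z ^ 2 ∈ F → z ∈ F := by
  let A := Algebra.adjoin ℚ (v '' {j}ᶜ)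
  let F : Subfield ℂ :=
    { carrier := {z | IsAlgebraic A z}
      mul_mem' := fun ha hb => IsAlgebraic.mul ha hb
      one_mem' := isAlgebraic_one
      add_mem' := fun ha hb => IsAlgebraic.add ha hb
      zero_mem' := isAlgebraic_zero
      neg_mem' := fun ha => IsAlgebraic.neg ha
      inv_mem' := fun _ ha => IsAlgebraic.inv ha }
  refine ⟨F, ?_, ?_, ?_⟩
  · intro i hi
    exact isAlgebraic_algebraMap (⟨v i, Algebra.subset_adjoin ⟨i, hi, rfl⟩⟩ : A)
  · exact hv.transcendental_adjoin (s := {j}ᶜ) (i := j) (by simp)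
  · intro z hz
    exact IsAlgebraic.of_pow (n := 2) (by norm_num) hz

section
variable {F : Subfield ℂ} {x : ℂ}

theorem lin_ne (hx : x ∉ F) {A B : ℂ} (hA : A ∈ F) (hB : B ∈ F) (hA0 : A ≠ 0) :
    A * x + B ≠ 0 := by
  intro h
  apply hx
  have : x = -B / A := by
    rw [eq_div_iff hA0]
    linear_combination h
  rw [this]
  exact div_mem (neg_mem hB) hA

theorem root_mem (hs : ∀ z : ℂ, z ^ 2 ∈ F → z ∈ F) {A B C y : ℂ} (hA : A ∈ F) (hB : B ∈ F)
    (hC : C ∈ F) (hA0 : A ≠ 0) (h : A * y ^ 2 + B * y + C = 0) : y ∈ F := by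
  have h2 : (2 : ℂ) ∈ F := ofNat_mem F 2
  have h4 : (4 : ℂ) ∈ F := ofNat_mem F 4
  have h1 : 2 * A * y + B ∈ F := by
    apply hs
    have : (2 * A * y + B) ^ 2 = B ^ 2 - 4 * A * C := by
      linear_combination 4 * A * h
    rw [this]
    exact sub_mem (pow_mem hB 2) (mul_mem (mul_mem h4 hA) hC)
  have : y = ((2 * A * y + B) - B) / (2 * A) := by
    field_simp
    ring
  rw [this]
  exact div_mem (sub_mem h1 hB) (mul_mem h2 hA)

theorem quad_ne (hs : ∀ z : ℂ, z ^ 2 ∈ F → z ∈ F) (hx : x ∉ F) {A B C : ℂ} (hA : A ∈ F)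
    (hB : B ∈ F) (hC : C ∈ F) (hA0 : A ≠ 0) : A * x ^ 2 + B * x + C ≠ 0 :=
  fun h => hx (root_mem hs hA hB hC hA0 h)

end

/-- square root along a filter -/
theorem branch {α : Type} {l : Filter α} (f : α → ℂ) (c : ℂ)
    (h : Filter.Tendsto f l (nhds (c ^ 2))) :
    ∃ r : α → ℂ, (∀ x, r x ^ 2 = f x) ∧ Filter.Tendsto r l (nhds c) := by
  have hex : ∀ x, ∃ r : ℂ, r ^ 2 = f x ∧ ‖r - c‖ ^ 2 ≤ ‖f x - c ^ 2‖ := by
    intro x
    obtain ⟨r, hr⟩ := IsAlgClosed.exists_pow_nat_eq (f x) (n := 2) (by norm_num)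
    have hn : ‖f x - c ^ 2‖ = ‖r - c‖ * ‖r + c‖ := by
      rw [← hr, ← norm_mul]
      congr 1
      ring
    rcases le_total ‖r - c‖ ‖r + c‖ with h1 | h1
    · refine ⟨r, hr, ?_⟩
      rw [hn, sq]
      exact mul_le_mul_of_nonneg_left h1 (norm_nonneg _)
    · refine ⟨-r, by rw [neg_sq]; exact hr, ?_⟩
      have : ‖-r - c‖ = ‖r + c‖ := by
        rw [← norm_neg]
        congr 1
        ring
      rw [hn, this, sq]
      exact mul_le_mul_of_nonneg_right h1 (norm_nonneg _)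
  choose r hr hrc using hex
  refine ⟨r, hr, ?_⟩
  rw [tendsto_iff_norm_sub_tendsto_zero] at h ⊢
  have h1 : Filter.Tendsto (fun x => Real.sqrt ‖f x - c ^ 2‖) l (nhds 0) := by
    have := (Real.continuous_sqrt.tendsto 0).comp h
    rw [Real.sqrt_zero] at this
    exact this
  refine squeeze_zero (fun x => norm_nonneg _) (fun x => ?_) h1
  exact Real.le_sqrt_of_sq_le (hrc x)

end Pool.Agent.TH532
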