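import Mathlib
import Pool.Agent.TH532.Fields

set_option autoImplicit false

namespace Pool.Agent.TH532

open Filter Topology

/-- closing condition for the last vertex -/
def Phi (g h k s5 t5 s7 t7 : ℂ) : ℂ :=
  g * (s5 * t7 - t5 * s7) ^ 2 +
    ((g - k + s7 * t7) * s5 - (g - h + s5 * t5) * s7) *
    ((g - k + s7 * t7) * t5 - (g - h + s5 * t5) * t7)

theorem Phi_swap (g h k s5 t5 s7 t7 : ℂ) :
    Phi g h k s5 t5 s7 t7 = Phi g k h s7 t7 s5 t5 := by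
  unfold Phi; ring

theorem Phi_refl (g h k s5 t5 s7 t7 : ℂ) :
    Phi g h k s5 t5 s7 t7 = Phi g h k t5 s5 t7 s7 := by
  unfold Phi; ring

theorem Phi_scale (g h k s5 t5 s7 t7 d : ℂ) (hd : d ≠ 0) :
    Phi g h k (t5 / d) (d * s5) (t7 / d) (d * s7) = Phi g h k s5 t5 s7 t7 := by
  unfold Phi
  field_simp
  ring

variable {α : Type} {l : Filter α} {g h k : ℂ} {ε s5 t5 s7 t7 : α → ℂ}

theorem lim_FF {a b c d : ℂ} (h1 : Tendsto s5 l (𝓝 a)) (h2 : Tendsto t5 l (𝓝 b))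
    (h3 : Tendsto s7 l (𝓝 c)) (h4 : Tendsto t7 l (𝓝 d)) :
    Tendsto (fun x => Phi g h k (s5 x) (t5 x) (s7 x) (t7 x)) l (𝓝 (Phi g h k a b c d)) := by
  have hc : Continuous (fun p : ℂ × ℂ × ℂ × ℂ => Phi g h k p.1 p.2.1 p.2.2.1 p.2.2.2) := by
    unfold Phi; fun_prop
  have h5 := (hc.tendsto (a, b, c, d)).comp
    (h1.prodMk_nhds (h2.prodMk_nhds (h3.prodMk_nhds h4)))
  refine (h5.congr (fun x => ?_)).trans_eq ?_
  · simp only [Function.comp_apply]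
  · simp only

theorem lim_FT {S σ θ κ : ℂ} (hε : Tendsto ε l (𝓝 0)) (h1 : Tendsto s5 l (𝓝 σ))
    (h2 : Tendsto t5 l (𝓝 θ)) (h3 : Tendsto s7 l (𝓝 S))
    (h4 : Tendsto (fun x => ε x * t7 x) l (𝓝 κ)) :
    Tendsto (fun x => ε x ^ 2 * Phi g h k (s5 x) (t5 x) (s7 x) (t7 x)) l
      (𝓝 (κ ^ 2 * σ * ((σ - S) * (g - S * θ) + S * h))) := by
  have hc : Continuous (fun p : ℂ × ℂ × ℂ × ℂ × ℂ =>
      g * (p.2.1 * p.2.2.2.2 - p.1 * p.2.2.1 * p.2.2.2.1) ^ 2 +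
      ((p.1 * (g - k) + p.2.2.2.1 * p.2.2.2.2) * p.2.1 -
        p.1 * (g - h + p.2.1 * p.2.2.1) * p.2.2.2.1) *
      ((p.1 * (g - k) + p.2.2.2.1 * p.2.2.2.2) * p.2.2.1 -
        (g - h + p.2.1 * p.2.2.1) * p.2.2.2.2)) := by
    fun_prop
  have h5 := (hc.tendsto (0, σ, θ, S, κ)).comp
    (hε.prodMk_nhds (h1.prodMk_nhds (h2.prodMk_nhds (h3.prodMk_nhds h4))))
  refine (h5.congr (fun x => ?_)).trans_eq ?_
  · simp only [Function.comp_apply, Phi]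
    ring
  · congr 1
    simp only
    ring

theorem lim_TT {S κ5 κ7 η : ℂ} (hε : Tendsto ε l (𝓝 0)) (hε0 : ∀ᶠ x in l, ε x ≠ 0)
    (h1 : Tendsto s5 l (𝓝 S)) (h2 : Tendsto (fun x => ε x * t5 x) l (𝓝 κ5))
    (h3 : Tendsto s7 l (𝓝 S)) (h4 : Tendsto (fun x => ε x * t7 x) l (𝓝 κ7))
    (h5 : Tendsto (fun x => (s7 x - s5 x) / ε x) l (𝓝 η)) :
    Tendsto (fun x => ε x ^ 2 * Phi g h k (s5 x) (t5 x) (s7 x) (t7 x)) l
      (𝓝 (S ^ 2 * (κ7 - κ5) * (h * κ7 - k * κ5 + κ5 * κ7 * η))) := by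
  have hc : Continuous (fun p : ℂ × ℂ × ℂ × ℂ × ℂ × ℂ =>
      g * (p.2.1 * p.2.2.2.2.1 - p.2.2.1 * p.2.2.2.1) ^ 2 +
      (p.1 * ((g - k) * p.2.1 - (g - h) * p.2.2.2.1) +
        p.2.1 * p.2.2.2.1 * (p.2.2.2.2.1 - p.2.2.1)) *
      ((g - k) * p.2.2.1 - (g - h) * p.2.2.2.2.1 +
        p.2.2.1 * p.2.2.2.2.1 * p.2.2.2.2.2)) := by
    fun_prop
  have h6 := (hc.tendsto (0, S, κ5, S, κ7, η)).comp
    (hε.prodMk_nhds (h1.prodMk_nhds (h2.prodMk_nhds (h3.prodMk_nhds (h4.prodMk_nhds h5)))))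
  refine (h6.congr' ?_).trans_eq ?_
  · filter_upwards [hε0] with x hx
    simp only [Function.comp_apply, Phi]
    field_simp
    ring
  · congr 1
    simp only
    ring

theorem lim_UU {S κ η ρ : ℂ} (hε : Tendsto ε l (𝓝 0)) (hε0 : ∀ᶠ x in l, ε x ≠ 0)
    (h1 : Tendsto s5 l (𝓝 S)) (h2 : Tendsto (fun x => ε x * t5 x) l (𝓝 κ))
    (h3 : Tendsto s7 l (𝓝 S)) (h4 : Tendsto (fun x => ε x * t7 x) l (𝓝 κ))
    (h5 : Tendsto (fun x => (s7 x - s5 x) / ε x) l (𝓝 η))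
    (h6 : Tendsto (fun x => t7 x - t5 x) l (𝓝 ρ)) :
    Tendsto (fun x => ε x * Phi g h k (s5 x) (t5 x) (s7 x) (t7 x)) l
      (𝓝 (S * κ * ((h - k) + S * ρ) * ((h - k) + κ * η))) := by
  have hc : Continuous (fun p : ℂ × ℂ × ℂ × ℂ × ℂ × ℂ × ℂ =>
      p.1 * g * (p.2.1 * p.2.2.2.2.2.2 - p.2.2.1 * p.2.2.2.2.2.1) ^ 2 +
      ((g - k) * p.2.1 - (g - h) * p.2.2.2.1 +
        p.2.1 * p.2.2.2.1 * p.2.2.2.2.2.2) *
      ((g - k) * p.2.2.1 - (g - h) * p.2.2.2.2.1 +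
        p.2.2.1 * p.2.2.2.2.1 * p.2.2.2.2.2.1)) := by
    fun_prop
  have h7 := (hc.tendsto (0, S, κ, S, κ, η, ρ)).comp
    (hε.prodMk_nhds (h1.prodMk_nhds (h2.prodMk_nhds (h3.prodMk_nhds (h4.prodMk_nhds
      (h5.prodMk_nhds h6))))))
  refine (h7.congr' ?_).trans_eq ?_
  · filter_upwards [hε0] with x hx
    simp only [Function.comp_apply, Phi]
    field_simp
    ring
  · congr 1
    simp only
    ring

theorem lim_TZ {S κ ς τ : ℂ} (hε : Tendsto ε l (𝓝 0)) (hε0 : ∀ᶠ x in l, ε x ≠ 0)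
    (h1 : Tendsto s5 l (𝓝 S)) (h2 : Tendsto (fun x => ε x * t5 x) l (𝓝 κ))
    (h3 : Tendsto (fun x => s7 x / ε x) l (𝓝 ς)) (h4 : Tendsto t7 l (𝓝 τ)) :
    Tendsto (fun x => ε x * Phi g h k (s5 x) (t5 x) (s7 x) (t7 x)) l
      (𝓝 (S * κ * (g - k - κ * ς) * (g - k - S * τ))) := by
  have hc : Continuous (fun p : ℂ × ℂ × ℂ × ℂ × ℂ =>
      p.1 * g * (p.2.1 * p.2.2.2.2 - p.2.2.1 * p.2.2.2.1) ^ 2 +
      ((g - k + p.1 * p.2.2.2.1 * p.2.2.2.2) * p.2.1 - (g - h) * (p.1 * p.2.2.2.1) -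
        p.2.1 * p.2.2.1 * p.2.2.2.1) *
      ((g - k + p.1 * p.2.2.2.1 * p.2.2.2.2) * p.2.2.1 - p.1 * (g - h) * p.2.2.2.2 -
        p.2.1 * p.2.2.1 * p.2.2.2.2)) := by
    fun_prop
  have h5 := (hc.tendsto (0, S, κ, ς, τ)).comp
    (hε.prodMk_nhds (h1.prodMk_nhds (h2.prodMk_nhds (h3.prodMk_nhds h4))))
  refine (h5.congr' ?_).trans_eq ?_
  · filter_upwards [hε0] with x hx
    simp only [Function.comp_apply, Phi]
    field_simp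
    ring
  · congr 1
    simp only
    ring

theorem lim_ZZ {a5 u5 a7 u7 : ℂ} (hε : Tendsto ε l (𝓝 0)) (hε0 : ∀ᶠ x in l, ε x ≠ 0)
    (h1 : Tendsto (fun x => s5 x / ε x) l (𝓝 a5)) (h2 : Tendsto t5 l (𝓝 u5))
    (h3 : Tendsto (fun x => s7 x / ε x) l (𝓝 a7)) (h4 : Tendsto t7 l (𝓝 u7)) :
    Tendsto (fun x => (ε x)⁻¹ * Phi g h k (s5 x) (t5 x) (s7 x) (t7 x)) l
      (𝓝 (((g - k) * a5 - (g - h) * a7) * ((g - k) * u5 - (g - h) * u7))) := by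
  have hc : Continuous (fun p : ℂ × ℂ × ℂ × ℂ × ℂ =>
      p.1 * g * (p.2.1 * p.2.2.2.2 - p.2.2.1 * p.2.2.2.1) ^ 2 +
      ((g - k + p.1 * p.2.2.2.1 * p.2.2.2.2) * p.2.1 -
        (g - h + p.1 * p.2.1 * p.2.2.1) * p.2.2.2.1) *
      ((g - k + p.1 * p.2.2.2.1 * p.2.2.2.2) * p.2.2.1 -
        (g - h + p.1 * p.2.1 * p.2.2.1) * p.2.2.2.2)) := by
    fun_prop
  have h5 := (hc.tendsto (0, a5, u5, a7, u7)).comp
    (hε.prodMk_nhds (h1.prodMk_nhds (h2.prodMk_nhds (h3.prodMk_nhds h4))))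
  refine (h5.congr' ?_).trans_eq ?_
  · filter_upwards [hε0] with x hx
    simp only [Function.comp_apply, Phi]
    field_simp
  · congr 1
    simp only
    ring

end Pool.Agent.TH532
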