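import Mathlib
import Pool.Agent.TH532.Phi

set_option autoImplicit false

namespace Pool.Agent.TH532

open Filter Topology

/-- `x` is independent of `K`, `y`, `z` -/
def Ind1 (K : Subfield ℂ) (x y z : ℂ) : Prop :=
  ∃ F : Subfield ℂ, K ≤ F ∧ y ∈ F ∧ z ∈ F ∧ x ∉ F ∧ ∀ w : ℂ, w ^ 2 ∈ F → w ∈ F

/-- `g, h, k` independent over `K` -/
structure GHK (K : Subfield ℂ) (g h k : ℂ) : Prop where
  ig : Ind1 K g h k
  ih : Ind1 K h g k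
  ik : Ind1 K k g h

theorem Ind1.symm {K : Subfield ℂ} {x y z : ℂ} (h : Ind1 K x y z) : Ind1 K x z y := by
  obtain ⟨F, h1, h2, h3, h4, h5⟩ := h
  exact ⟨F, h1, h3, h2, h4, h5⟩

theorem GHK.swap {K : Subfield ℂ} {g h k : ℂ} (H : GHK K g h k) : GHK K g k h :=
  ⟨H.ig.symm, H.ik, H.ih⟩

variable {K : Subfield ℂ} {g h k : ℂ}

theorem GHK.hk (H : GHK K g h k) : h ≠ k := by
  obtain ⟨F, h1, h2, h3, h4, h5⟩ := H.ih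
  rintro rfl
  exact h4 h3

theorem GHK.gk (H : GHK K g h k) : g - k ≠ 0 := by
  obtain ⟨F, h1, h2, h3, h4, h5⟩ := H.ig
  intro h
  rw [sub_eq_zero] at h
  rw [h] at h4
  exact h4 h3

theorem GHK.gh (H : GHK K g h k) : g - h ≠ 0 := H.swap.gk

theorem nv_FF (H : GHK K g h k) {s5 t5 s7 t7 : ℂ} (h5 : s5 ∈ K) (h5' : t5 ∈ K) (h7 : s7 ∈ K)
    (h7' : t7 ∈ K) (h1 : s7 ≠ 0) (h2 : t7 ≠ 0) : Phi g h k s5 t5 s7 t7 ≠ 0 := by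
  obtain ⟨F, hK, hg, hk, hh, hs⟩ := H.ih
  have e : Phi g h k s5 t5 s7 t7 = (s7 * t7) * h ^ 2 +
      ((g - k + s7 * t7) * (s5 * t7 + t5 * s7) - 2 * (g + s5 * t5) * (s7 * t7)) * h +
      (g * (s5 * t7 - t5 * s7) ^ 2 +
    ((g - k + s7 * t7) * s5 - (g + s5 * t5) * s7) *
    ((g - k + s7 * t7) * t5 - (g + s5 * t5) * t7)) := by
    unfold Phi
    ring
  rw [e]
  replace h5 := hK h5
  replace h5' := hK h5'
  replace h7 := hK h7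
  replace h7' := hK h7'
  have h22 : (2 : ℂ) ∈ F := ofNat_mem F 2
  refine quad_ne hs hh ?_ ?_ ?_ (mul_ne_zero h1 h2)
  all_goals repeat' (first | assumption | apply pow_mem | apply add_mem | apply sub_mem |
    apply mul_mem)

theorem nv_FT (H : GHK K g h k) {S σ θ κ : ℂ} (hS : S ∈ K) (hσ : σ ∈ K) (hθ : θ ∈ K)
    (hS0 : S ≠ 0) (hσ0 : σ ≠ 0) (hκ0 : κ ≠ 0) :
    κ ^ 2 * σ * ((σ - S) * (g - S * θ) + S * h) ≠ 0 := by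
  obtain ⟨F, hK, hg, hk, hh, hs⟩ := H.ih
  replace hS := hK hS
  replace hσ := hK hσ
  replace hθ := hK hθ
  refine mul_ne_zero (mul_ne_zero (pow_ne_zero 2 hκ0) hσ0) ?_
  rw [add_comm]
  refine lin_ne hh hS ?_ hS0
  repeat' (first | assumption | apply pow_mem | apply add_mem | apply sub_mem | apply mul_mem)

theorem nv_FZ (H : GHK K g h k) {σ θ τ : ℂ} (hσ : σ ∈ K) (hθ : θ ∈ K) (hτ : τ ∈ K)
    (hσ0 : σ ≠ 0) (hτ0 : τ ≠ 0) : Phi g h k σ θ 0 τ ≠ 0 := by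
  have hgk := H.gk
  obtain ⟨F, hK, hg, hk, hh, hs⟩ := H.ih
  replace hσ := hK hσ
  replace hθ := hK hθ
  replace hτ := hK hτ
  have e : Phi g h k σ θ 0 τ = ((g - k) * σ * τ) * h +
    (g * (σ * τ) ^ 2 + (g - k) * σ * ((g - k) * θ - (g + σ * θ) * τ)) := by
    unfold Phi; ring
  rw [e]
  refine lin_ne hh ?_ ?_ (mul_ne_zero (mul_ne_zero hgk hσ0) hτ0)
  all_goals repeat' (first | assumption | apply pow_mem | apply add_mem | apply sub_mem |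
    apply mul_mem)

theorem nv_TT (H : GHK K g h k) {S κ5 κ7 η : ℂ} (h5 : κ5 ∈ K) (h7 : κ7 ∈ K) (hη : η ∈ K)
    (hS0 : S ≠ 0) (h70 : κ7 ≠ 0) (hne : κ5 ≠ κ7) :
    S ^ 2 * (κ7 - κ5) * (h * κ7 - k * κ5 + κ5 * κ7 * η) ≠ 0 := by
  obtain ⟨F, hK, hg, hk, hh, hs⟩ := H.ih
  replace h5 := hK h5
  replace h7 := hK h7
  replace hη := hK hη
  refine mul_ne_zero (mul_ne_zero (pow_ne_zero 2 hS0) (sub_ne_zero.2 hne.symm)) ?_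
  have e : h * κ7 - k * κ5 + κ5 * κ7 * η = κ7 * h + (κ5 * κ7 * η - k * κ5) := by ring
  rw [e]
  refine lin_ne hh h7 ?_ h70
  repeat' (first | assumption | apply pow_mem | apply add_mem | apply sub_mem | apply mul_mem)

theorem nv_UU (H : GHK K g h k) {S κ η ρ : ℂ} (hS : S ∈ K) (hκ : κ ∈ K) (hη : η ∈ K)
    (hρ : ρ ∈ K) (hS0 : S ≠ 0) (hκ0 : κ ≠ 0) :
    S * κ * ((h - k) + S * ρ) * ((h - k) + κ * η) ≠ 0 := by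
  obtain ⟨F, hK, hg, hk, hh, hs⟩ := H.ih
  replace hS := hK hS
  replace hκ := hK hκ
  replace hη := hK hη
  replace hρ := hK hρ
  have e1 : (h - k) + S * ρ = 1 * h + (S * ρ - k) := by ring
  have e2 : (h - k) + κ * η = 1 * h + (κ * η - k) := by ring
  rw [e1, e2]
  refine mul_ne_zero (mul_ne_zero (mul_ne_zero hS0 hκ0) ?_) ?_
  all_goals refine lin_ne hh (one_mem F) ?_ one_ne_zero
  all_goals repeat' (first | assumption | apply pow_mem | apply add_mem | apply sub_mem |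
    apply mul_mem)

theorem nv_TZ (H : GHK K g h k) {S κ ς τ : ℂ} (hS : S ∈ K) (hκ : κ ∈ K) (hς : ς ∈ K)
    (hτ : τ ∈ K) (hS0 : S ≠ 0) (hκ0 : κ ≠ 0) :
    S * κ * (g - k - κ * ς) * (g - k - S * τ) ≠ 0 := by
  obtain ⟨F, hK, hh, hk, hg, hs⟩ := H.ig
  replace hS := hK hS
  replace hκ := hK hκ
  replace hς := hK hς
  replace hτ := hK hτ
  have e1 : g - k - κ * ς = 1 * g + (-(k + κ * ς)) := by ring
  have e2 : g - k - S * τ = 1 * g + (-(k + S * τ)) := by ring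
  rw [e1, e2]
  refine mul_ne_zero (mul_ne_zero (mul_ne_zero hS0 hκ0) ?_) ?_
  all_goals refine lin_ne hg (one_mem F) ?_ one_ne_zero
  all_goals repeat' (first | assumption | apply neg_mem | apply pow_mem | apply add_mem
                           | apply sub_mem | apply mul_mem)

theorem nv_ZZ (H : GHK K g h k) {a5 u5 a7 u7 : ℂ} (ha5 : a5 ∈ K) (hu5 : u5 ∈ K) (ha7 : a7 ∈ K)
    (hu7 : u7 ∈ K) (ha50 : a5 ≠ 0) (hu50 : u5 ≠ 0) :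
    ((g - k) * a5 - (g - h) * a7) * ((g - k) * u5 - (g - h) * u7) ≠ 0 := by
  obtain ⟨F, hK, hg, hh, hk, hs⟩ := H.ik
  replace ha5 := hK ha5
  replace hu5 := hK hu5
  replace ha7 := hK ha7
  replace hu7 := hK hu7
  have e1 : (g - k) * a5 - (g - h) * a7 = (-a5) * k + (g * a5 - (g - h) * a7) := by ring
  have e2 : (g - k) * u5 - (g - h) * u7 = (-u5) * k + (g * u5 - (g - h) * u7) := by ring
  rw [e1, e2]
  refine mul_ne_zero ?_ ?_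
  · refine lin_ne hk (neg_mem ha5) ?_ (neg_ne_zero.2 ha50)
    repeat' (first | assumption | apply pow_mem | apply add_mem | apply sub_mem | apply mul_mem)
  · refine lin_ne hk (neg_mem hu5) ?_ (neg_ne_zero.2 hu50)
    repeat' (first | assumption | apply pow_mem | apply add_mem | apply sub_mem | apply mul_mem)

/-- limiting states of a vertex -/
inductive St
  | F (σ θ : ℂ) : St
  | T (κ ξ : ℂ) : St
  | U (ξ τ : ℂ) : St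
  | Z (ς τ : ℂ) : St

/-- order of the closing condition -/
def ord : St → St → ℤ
  | .F _ _, .F _ _ => 0
  | .F _ _, .T _ _ => 2
  | .F _ _, .U _ _ => 2
  | .F _ _, .Z _ _ => 0
  | .T _ _, .F _ _ => 2
  | .T _ _, .T _ _ => 2
  | .T _ _, .U _ _ => 2
  | .T _ _, .Z _ _ => 1
  | .U _ _, .F _ _ => 2
  | .U _ _, .T _ _ => 2
  | .U _ _, .U _ _ => 1
  | .U _ _, .Z _ _ => 1
  | .Z _ _, .F _ _ => 0
  | .Z _ _, .T _ _ => 1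
  | .Z _ _, .U _ _ => 1
  | .Z _ _, .Z _ _ => -1

variable {α : Type}

/-- the vertex `(s, t)` has the given state -/
def Has (l : Filter α) (ε s0 s t : α → ℂ) : St → Prop
  | .F σ θ => Tendsto s l (𝓝 σ) ∧ Tendsto t l (𝓝 θ)
  | .T κ ξ => Tendsto (fun x => (s x - s0 x) / ε x) l (𝓝 ξ) ∧
      Tendsto (fun x => ε x * t x) l (𝓝 κ)
  | .U ξ τ => Tendsto (fun x => (s x - s0 x) / ε x) l (𝓝 ξ) ∧
      Tendsto (fun x => t x - 1 / ε x) l (𝓝 τ)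
  | .Z ς τ => Tendsto (fun x => s x / ε x) l (𝓝 ς) ∧ Tendsto t l (𝓝 τ)

def Good (K : Subfield ℂ) : St → Prop
  | .F σ θ => σ ∈ K ∧ θ ∈ K ∧ σ ≠ 0 ∧ θ ≠ 0
  | .T κ ξ => κ ∈ K ∧ ξ ∈ K ∧ κ ≠ 0
  | .U ξ τ => ξ ∈ K ∧ τ ∈ K
  | .Z ς τ => ς ∈ K ∧ τ ∈ K ∧ ς ≠ 0 ∧ τ ≠ 0

def Compat : St → St → Prop
  | .T κ _, .T κ' _ => κ ≠ κ'
  | .T κ _, .U _ _ => κ ≠ 1
  | .U _ _, .T κ _ => κ ≠ 1
  | _, _ => True

/-- leading behaviour -/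
def Lead (l : Filter α) (ε : α → ℂ) (n : ℤ) (f : α → ℂ) : Prop :=
  ∃ c : ℂ, c ≠ 0 ∧ Tendsto (fun x => ε x ^ n * f x) l (𝓝 c)

theorem Lead.congr {l : Filter α} {ε : α → ℂ} {n : ℤ} {f f' : α → ℂ} (h : Lead l ε n f)
    (hf : ∀ᶠ x in l, f x = f' x) : Lead l ε n f' := by
  obtain ⟨c, hc, h1⟩ := h
  refine ⟨c, hc, h1.congr' ?_⟩
  filter_upwards [hf] with x hx
  rw [hx]

theorem Lead.mul {l : Filter α} {ε : α → ℂ} {n m : ℤ} {f f' : α → ℂ}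
    (hε : ∀ᶠ x in l, ε x ≠ 0) (h : Lead l ε n f)
    (h' : Lead l ε m f') : Lead l ε (n + m) (fun x => f x * f' x) := by
  obtain ⟨c, hc, h1⟩ := h
  obtain ⟨c', hc', h1'⟩ := h'
  refine ⟨c * c', mul_ne_zero hc hc', (h1.mul h1').congr' ?_⟩
  filter_upwards [hε] with x hx
  rw [zpow_add₀ hx]
  ring

theorem Lead.prod {l : Filter α} {ε : α → ℂ} {ι : Type} (s : Finset ι) (n : ι → ℤ)
    (f : ι → α → ℂ) (hε : ∀ᶠ x in l, ε x ≠ 0) (h : ∀ i ∈ s, Lead l ε (n i) (f i)) :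
    Lead l ε (∑ i ∈ s, n i) (fun x => ∏ i ∈ s, f i x) := by
  classical
  induction s using Finset.induction_on with
  | empty =>
    refine ⟨1, one_ne_zero, ?_⟩
    simp only [Finset.sum_empty, zpow_zero, Finset.prod_empty, mul_one]
    exact tendsto_const_nhds
  | insert i s hi ih =>
    rw [Finset.sum_insert hi]
    have h1 := Lead.mul hε (h i (Finset.mem_insert_self i s))
      (ih (fun j hj => h j (Finset.mem_insert_of_mem hj)))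
    refine h1.congr (Eventually.of_forall (fun x => ?_))
    rw [Finset.prod_insert hi]

section
variable {l : Filter α} {ε s0 : α → ℂ} {S : ℂ}

theorem has_T_s {s : α → ℂ} {ξ : ℂ} (hε : Tendsto ε l (𝓝 0)) (hε0 : ∀ᶠ x in l, ε x ≠ 0)
    (hs0 : Tendsto s0 l (𝓝 S)) (h : Tendsto (fun x => (s x - s0 x) / ε x) l (𝓝 ξ)) :
    Tendsto s l (𝓝 S) := by
  have h1 := (h.mul hε).add hs0
  rw [mul_zero, zero_add] at h1
  refine h1.congr' ?_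
  filter_upwards [hε0] with x hx
  field_simp
  ring

theorem has_Z_s {s : α → ℂ} {ς : ℂ} (hε : Tendsto ε l (𝓝 0)) (hε0 : ∀ᶠ x in l, ε x ≠ 0)
    (h : Tendsto (fun x => s x / ε x) l (𝓝 ς)) :
    Tendsto s l (𝓝 0) := by
  have h1 := h.mul hε
  rw [mul_zero] at h1
  refine h1.congr' ?_
  filter_upwards [hε0] with x hx
  field_simp

theorem has_U_t {t : α → ℂ} {τ : ℂ} (hε : Tendsto ε l (𝓝 0)) (hε0 : ∀ᶠ x in l, ε x ≠ 0)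
    (h : Tendsto (fun x => t x - 1 / ε x) l (𝓝 τ)) :
    Tendsto (fun x => ε x * t x) l (𝓝 1) := by
  have h1 := (hε.mul h).add_const 1
  rw [zero_mul, zero_add] at h1
  refine h1.congr' ?_
  filter_upwards [hε0] with x hx
  field_simp
  ring

theorem diff_lim {s5 s7 : α → ℂ} {ξ5 ξ7 : ℂ}
    (h5 : Tendsto (fun x => (s5 x - s0 x) / ε x) l (𝓝 ξ5))
    (h7 : Tendsto (fun x => (s7 x - s0 x) / ε x) l (𝓝 ξ7)) :
    Tendsto (fun x => (s7 x - s5 x) / ε x) l (𝓝 (ξ7 - ξ5)) := by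
  refine (h7.sub h5).congr (fun x => ?_)
  ring

theorem lead_FF (H : GHK K g h k) (s5 t5 s7 t7 : α → ℂ)
    {σ θ σ' θ' : ℂ} (hX : Has l ε s0 s5 t5 (.F σ θ)) (hY : Has l ε s0 s7 t7 (.F σ' θ'))
    (gX : Good K (.F σ θ)) (gY : Good K (.F σ' θ')) :
    Lead l ε 0 (fun x => Phi g h k (s5 x) (t5 x) (s7 x) (t7 x)) := by
  refine ⟨_, nv_FF H gX.1 gX.2.1 gY.1 gY.2.1 gY.2.2.1 gY.2.2.2, ?_⟩
  simp only [zpow_zero, one_mul]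
  exact lim_FF hX.1 hX.2 hY.1 hY.2

theorem lead_FT (H : GHK K g h k) (hS : S ∈ K) (hS0 : S ≠ 0) (hε : Tendsto ε l (𝓝 0))
    (hε0 : ∀ᶠ x in l, ε x ≠ 0) (hs0 : Tendsto s0 l (𝓝 S)) (s5 t5 s7 t7 : α → ℂ)
    {σ θ κ ξ : ℂ} (hX : Has l ε s0 s5 t5 (.F σ θ)) (hY : Has l ε s0 s7 t7 (.T κ ξ))
    (gX : Good K (.F σ θ)) (gY : Good K (.T κ ξ)) :
    Lead l ε 2 (fun x => Phi g h k (s5 x) (t5 x) (s7 x) (t7 x)) := by
  refine ⟨_, nv_FT H hS gX.1 gX.2.1 hS0 gX.2.2.1 gY.2.2, ?_⟩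
  exact lim_FT hε hX.1 hX.2 (has_T_s hε hε0 hs0 hY.1) hY.2

theorem lead_FU (H : GHK K g h k) (hS : S ∈ K) (hS0 : S ≠ 0) (hε : Tendsto ε l (𝓝 0))
    (hε0 : ∀ᶠ x in l, ε x ≠ 0) (hs0 : Tendsto s0 l (𝓝 S)) (s5 t5 s7 t7 : α → ℂ)
    {σ θ ξ τ : ℂ} (hX : Has l ε s0 s5 t5 (.F σ θ)) (hY : Has l ε s0 s7 t7 (.U ξ τ))
    (gX : Good K (.F σ θ)) :
    Lead l ε 2 (fun x => Phi g h k (s5 x) (t5 x) (s7 x) (t7 x)) := by
  refine ⟨_, nv_FT (κ := 1) H hS gX.1 gX.2.1 hS0 gX.2.2.1 one_ne_zero, ?_⟩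
  exact lim_FT hε hX.1 hX.2 (has_T_s hε hε0 hs0 hY.1) (has_U_t hε hε0 hY.2)

theorem lead_FZ (H : GHK K g h k) (hε : Tendsto ε l (𝓝 0))
    (hε0 : ∀ᶠ x in l, ε x ≠ 0) (s5 t5 s7 t7 : α → ℂ)
    {σ θ ς τ : ℂ} (hX : Has l ε s0 s5 t5 (.F σ θ)) (hY : Has l ε s0 s7 t7 (.Z ς τ))
    (gX : Good K (.F σ θ)) (gY : Good K (.Z ς τ)) :
    Lead l ε 0 (fun x => Phi g h k (s5 x) (t5 x) (s7 x) (t7 x)) := by
  refine ⟨_, nv_FZ H gX.1 gX.2.1 gY.2.1 gX.2.2.1 gY.2.2.2, ?_⟩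
  simp only [zpow_zero, one_mul]
  exact lim_FF hX.1 hX.2 (has_Z_s hε hε0 hY.1) hY.2

theorem lead_TT (H : GHK K g h k) (hS0 : S ≠ 0) (hε : Tendsto ε l (𝓝 0))
    (hε0 : ∀ᶠ x in l, ε x ≠ 0) (hs0 : Tendsto s0 l (𝓝 S)) (s5 t5 s7 t7 : α → ℂ)
    {κ5 ξ5 κ7 ξ7 : ℂ} (hX : Has l ε s0 s5 t5 (.T κ5 ξ5)) (hY : Has l ε s0 s7 t7 (.T κ7 ξ7))
    (gX : Good K (.T κ5 ξ5)) (gY : Good K (.T κ7 ξ7)) (hne : κ5 ≠ κ7) :
    Lead l ε 2 (fun x => Phi g h k (s5 x) (t5 x) (s7 x) (t7 x)) := by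
  refine ⟨_, nv_TT (η := ξ7 - ξ5) H gX.1 gY.1 (sub_mem gY.2.1 gX.2.1) hS0 gY.2.2 hne, ?_⟩
  exact lim_TT hε hε0 (has_T_s hε hε0 hs0 hX.1) hX.2
    (has_T_s hε hε0 hs0 hY.1) hY.2 (diff_lim hX.1 hY.1)

theorem lead_TU (H : GHK K g h k) (hS0 : S ≠ 0) (hε : Tendsto ε l (𝓝 0))
    (hε0 : ∀ᶠ x in l, ε x ≠ 0) (hs0 : Tendsto s0 l (𝓝 S)) (s5 t5 s7 t7 : α → ℂ)
    {κ5 ξ5 ξ7 τ : ℂ} (hX : Has l ε s0 s5 t5 (.T κ5 ξ5)) (hY : Has l ε s0 s7 t7 (.U ξ7 τ))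
    (gX : Good K (.T κ5 ξ5)) (gY : Good K (.U ξ7 τ)) (hne : κ5 ≠ 1) :
    Lead l ε 2 (fun x => Phi g h k (s5 x) (t5 x) (s7 x) (t7 x)) := by
  refine ⟨_, nv_TT (κ7 := 1) (η := ξ7 - ξ5) H gX.1 (one_mem K) (sub_mem gY.1 gX.2.1) hS0
    one_ne_zero hne, ?_⟩
  exact lim_TT hε hε0 (has_T_s hε hε0 hs0 hX.1) hX.2
    (has_T_s hε hε0 hs0 hY.1) (has_U_t hε hε0 hY.2) (diff_lim hX.1 hY.1)

theorem lead_TZ (H : GHK K g h k) (hS : S ∈ K) (hS0 : S ≠ 0) (hε : Tendsto ε l (𝓝 0))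
    (hε0 : ∀ᶠ x in l, ε x ≠ 0) (hs0 : Tendsto s0 l (𝓝 S)) (s5 t5 s7 t7 : α → ℂ)
    {κ5 ξ5 ς τ : ℂ} (hX : Has l ε s0 s5 t5 (.T κ5 ξ5)) (hY : Has l ε s0 s7 t7 (.Z ς τ))
    (gX : Good K (.T κ5 ξ5)) (gY : Good K (.Z ς τ)) :
    Lead l ε 1 (fun x => Phi g h k (s5 x) (t5 x) (s7 x) (t7 x)) := by
  refine ⟨_, nv_TZ H hS gX.1 gY.1 gY.2.1 hS0 gX.2.2, ?_⟩
  simp only [zpow_one]
  exact lim_TZ hε hε0 (has_T_s hε hε0 hs0 hX.1) hX.2 hY.1 hY.2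

theorem lead_UU (H : GHK K g h k) (hS : S ∈ K) (hS0 : S ≠ 0) (hε : Tendsto ε l (𝓝 0))
    (hε0 : ∀ᶠ x in l, ε x ≠ 0) (hs0 : Tendsto s0 l (𝓝 S)) (s5 t5 s7 t7 : α → ℂ)
    {ξ5 τ5 ξ7 τ7 : ℂ} (hX : Has l ε s0 s5 t5 (.U ξ5 τ5)) (hY : Has l ε s0 s7 t7 (.U ξ7 τ7))
    (gX : Good K (.U ξ5 τ5)) (gY : Good K (.U ξ7 τ7)) :
    Lead l ε 1 (fun x => Phi g h k (s5 x) (t5 x) (s7 x) (t7 x)) := by
  refine ⟨_, nv_UU (κ := 1) (η := ξ7 - ξ5) (ρ := τ7 - τ5) H hS (one_mem K)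
    (sub_mem gY.1 gX.1) (sub_mem gY.2 gX.2) hS0 one_ne_zero, ?_⟩
  simp only [zpow_one]
  refine lim_UU hε hε0 (has_T_s hε hε0 hs0 hX.1) (has_U_t hε hε0 hX.2)
    (has_T_s hε hε0 hs0 hY.1) (has_U_t hε hε0 hY.2) (diff_lim hX.1 hY.1) ?_
  refine (hY.2.sub hX.2).congr (fun x => ?_)
  ring

theorem lead_UZ (H : GHK K g h k) (hS : S ∈ K) (hS0 : S ≠ 0) (hε : Tendsto ε l (𝓝 0))
    (hε0 : ∀ᶠ x in l, ε x ≠ 0) (hs0 : Tendsto s0 l (𝓝 S)) (s5 t5 s7 t7 : α → ℂ)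
    {ξ5 τ5 ς τ : ℂ} (hX : Has l ε s0 s5 t5 (.U ξ5 τ5)) (hY : Has l ε s0 s7 t7 (.Z ς τ))
    (gY : Good K (.Z ς τ)) :
    Lead l ε 1 (fun x => Phi g h k (s5 x) (t5 x) (s7 x) (t7 x)) := by
  refine ⟨_, nv_TZ (κ := 1) H hS (one_mem K) gY.1 gY.2.1 hS0 one_ne_zero, ?_⟩
  simp only [zpow_one]
  exact lim_TZ hε hε0 (has_T_s hε hε0 hs0 hX.1) (has_U_t hε hε0 hX.2) hY.1 hY.2

theorem lead_ZZ (H : GHK K g h k) (hε : Tendsto ε l (𝓝 0))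
    (hε0 : ∀ᶠ x in l, ε x ≠ 0) (s5 t5 s7 t7 : α → ℂ)
    {ς5 τ5 ς7 τ7 : ℂ} (hX : Has l ε s0 s5 t5 (.Z ς5 τ5)) (hY : Has l ε s0 s7 t7 (.Z ς7 τ7))
    (gX : Good K (.Z ς5 τ5)) (gY : Good K (.Z ς7 τ7)) :
    Lead l ε (-1) (fun x => Phi g h k (s5 x) (t5 x) (s7 x) (t7 x)) := by
  refine ⟨_, nv_ZZ H gX.1 gX.2.1 gY.1 gY.2.1 gX.2.2.1 gX.2.2.2, ?_⟩
  simp only [zpow_neg, zpow_one]
  exact lim_ZZ hε hε0 hX.1 hX.2 hY.1 hY.2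

theorem lead_sw {n : ℤ} {s5 t5 s7 t7 : α → ℂ}
    (h1 : Lead l ε n (fun x => Phi g k h (s7 x) (t7 x) (s5 x) (t5 x))) :
    Lead l ε n (fun x => Phi g h k (s5 x) (t5 x) (s7 x) (t7 x)) :=
  h1.congr (Eventually.of_forall (fun _ => Phi_swap _ _ _ _ _ _ _))

theorem lead_state (H : GHK K g h k) (hS : S ∈ K) (hS0 : S ≠ 0) (hε : Tendsto ε l (𝓝 0))
    (hε0 : ∀ᶠ x in l, ε x ≠ 0) (hs0 : Tendsto s0 l (𝓝 S)) (s5 t5 s7 t7 : α → ℂ)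
    {X Y : St} (hX : Has l ε s0 s5 t5 X) (hY : Has l ε s0 s7 t7 Y)
    (gX : Good K X) (gY : Good K Y) (hc : Compat X Y) :
    Lead l ε (ord X Y) (fun x => Phi g h k (s5 x) (t5 x) (s7 x) (t7 x)) := by
  cases X with
  | F σ θ =>
    cases Y with
    | F σ' θ' => exact lead_FF H s5 t5 s7 t7 hX hY gX gY
    | T κ' ξ' => exact lead_FT H hS hS0 hε hε0 hs0 s5 t5 s7 t7 hX hY gX gY
    | U ξ' τ' => exact lead_FU H hS hS0 hε hε0 hs0 s5 t5 s7 t7 hX hY gX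
    | Z ς' τ' => exact lead_FZ H hε hε0 s5 t5 s7 t7 hX hY gX gY
  | T κ ξ =>
    cases Y with
    | F σ' θ' => exact lead_sw (lead_FT H.swap hS hS0 hε hε0 hs0 s7 t7 s5 t5 hY hX gY gX)
    | T κ' ξ' => exact lead_TT H hS0 hε hε0 hs0 s5 t5 s7 t7 hX hY gX gY hc
    | U ξ' τ' => exact lead_TU H hS0 hε hε0 hs0 s5 t5 s7 t7 hX hY gX gY hc
    | Z ς' τ' => exact lead_TZ H hS hS0 hε hε0 hs0 s5 t5 s7 t7 hX hY gX gY
  | U ξ τ =>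
    cases Y with
    | F σ' θ' => exact lead_sw (lead_FU H.swap hS hS0 hε hε0 hs0 s7 t7 s5 t5 hY hX gY)
    | T κ' ξ' => exact lead_sw (lead_TU H.swap hS0 hε hε0 hs0 s7 t7 s5 t5 hY hX gY gX hc)
    | U ξ' τ' => exact lead_UU H hS hS0 hε hε0 hs0 s5 t5 s7 t7 hX hY gX gY
    | Z ς' τ' => exact lead_UZ H hS hS0 hε hε0 hs0 s5 t5 s7 t7 hX hY gY
  | Z ς τ =>
    cases Y with
    | F σ' θ' => exact lead_sw (lead_FZ H.swap hε hε0 s7 t7 s5 t5 hY hX gY gX)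
    | T κ' ξ' => exact lead_sw (lead_TZ H.swap hS hS0 hε hε0 hs0 s7 t7 s5 t5 hY hX gY gX)
    | U ξ' τ' => exact lead_sw (lead_UZ H.swap hS hS0 hε hε0 hs0 s7 t7 s5 t5 hY hX gX)
    | Z ς' τ' => exact lead_ZZ H hε hε0 s5 t5 s7 t7 hX hY gX gY

end

end Pool.Agent.TH532
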