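import Mathlib
import Pool.Agent.TH532.States

set_option autoImplicit false

namespace Pool.Agent.TH532

open Filter Topology ComplexConjugate

/-- a complex square root -/
noncomputable def cs (z : ℂ) : ℂ :=
  (IsAlgClosed.exists_pow_nat_eq z (n := 2) (by norm_num)).choose

theorem cs_sq (z : ℂ) : cs z ^ 2 = z :=
  (IsAlgClosed.exists_pow_nat_eq z (n := 2) (by norm_num)).choose_spec

theorem cs_cases {r z : ℂ} (h : r ^ 2 = z) : r = cs z ∨ r = -cs z := by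
  rw [← sq_eq_sq_iff_eq_or_eq_neg, h, cs_sq]

/-- closing condition for pairs -/
def Ph (g h k : ℂ) (A B : ℂ × ℂ) : ℂ := Phi g h k A.1 A.2 B.1 B.2

/-- vertex attached to `P` (length `e`) and `Q` (length `f`), with root `r` -/
noncomputable def arm (P Q : ℂ × ℂ) (e f r : ℂ) : ℂ × ℂ :=
  (P.1 + (e - f + (Q.1 - P.1) * (Q.2 - P.2) + r) / (2 * (Q.2 - P.2)),
   P.2 + (e - f + (Q.1 - P.1) * (Q.2 - P.2) - r) / (2 * (Q.1 - P.1)))

/-- its discriminant -/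
def bt (P Q : ℂ × ℂ) (e f : ℂ) : ℂ :=
  (e - f + (Q.1 - P.1) * (Q.2 - P.2)) ^ 2 - 4 * ((Q.1 - P.1) * (Q.2 - P.2)) * e

/-- product of four closing conditions -/
noncomputable def Q4 (g h k e f c f7 : ℂ) (P Q R : ℂ × ℂ) (r r' : ℂ) : ℂ :=
  Ph g h k (arm P Q e f r) (arm P R c f7 r') * Ph g h k (arm P Q e f (-r)) (arm P R c f7 r') *
  (Ph g h k (arm P Q e f r) (arm P R c f7 (-r')) *
    Ph g h k (arm P Q e f (-r)) (arm P R c f7 (-r')))

noncomputable def N4 (g h k e f c f7 : ℂ) (P Q R : ℂ × ℂ) : ℂ :=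
  Q4 g h k e f c f7 P Q R (cs (bt P Q e f)) (cs (bt P R c f7))

theorem N4_eq (g h k e f c f7 : ℂ) (P Q R : ℂ × ℂ) {r r' : ℂ} (hr : r ^ 2 = bt P Q e f)
    (hr' : r' ^ 2 = bt P R c f7) :
    N4 g h k e f c f7 P Q R = Q4 g h k e f c f7 P Q R r r' := by
  unfold N4
  rcases cs_cases hr with h1 | h1 <;> rcases cs_cases hr' with h2 | h2 <;> rw [h1, h2] <;>
    simp only [Q4, neg_neg] <;> ring

/-- reflection -/
noncomputable def rf (d : ℂ) (P : ℂ × ℂ) : ℂ × ℂ := (P.2 / d, d * P.1)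

theorem Ph_rf (g h k : ℂ) (A B : ℂ × ℂ) {d : ℂ} (hd : d ≠ 0) :
    Ph g h k (rf d A) (rf d B) = Ph g h k A B := Phi_scale g h k A.1 A.2 B.1 B.2 d hd

theorem arm_rf (P Q : ℂ × ℂ) (e f r : ℂ) {d : ℂ} (hd : d ≠ 0) :
    arm (rf d P) (rf d Q) e f r = rf d (arm P Q e f (-r)) := by
  have h1 : (Q.2 / d - P.2 / d) * (d * Q.1 - d * P.1) = (Q.1 - P.1) * (Q.2 - P.2) := by
    field_simp
  have h2 : 2 * (d * Q.1 - d * P.1) = (2 * (Q.1 - P.1)) * d := by ring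
  have h3 : 2 * (Q.2 / d - P.2 / d) = (2 * (Q.2 - P.2)) / d := by ring
  unfold arm rf
  ext
  · simp only
    rw [h1, h2, sub_neg_eq_add, div_mul_eq_div_div, ← add_div]
  · simp only
    rw [h1, h3, ← sub_eq_add_neg, div_div_eq_mul_div]
    ring

theorem bt_rf (P Q : ℂ × ℂ) (e f : ℂ) {d : ℂ} (hd : d ≠ 0) :
    bt (rf d P) (rf d Q) e f = bt P Q e f := by
  have h1 : (Q.2 / d - P.2 / d) * (d * Q.1 - d * P.1) = (Q.1 - P.1) * (Q.2 - P.2) := by
    field_simp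
  unfold bt rf
  simp only [h1]

theorem N4_rf (g h k e f c f7 : ℂ) (P Q R : ℂ × ℂ) {d : ℂ} (hd : d ≠ 0) :
    N4 g h k e f c f7 (rf d P) (rf d Q) (rf d R) = N4 g h k e f c f7 P Q R := by
  rw [N4_eq g h k e f c f7 (rf d P) (rf d Q) (rf d R) (r := cs (bt P Q e f))
    (r' := cs (bt P R c f7)) (by rw [cs_sq, bt_rf P Q e f hd])
    (by rw [cs_sq, bt_rf P R c f7 hd])]
  unfold N4 Q4
  simp only [arm_rf _ _ _ _ _ hd, Ph_rf _ _ _ _ _ hd, neg_neg]
  ring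

/-- point attached to the two base points -/
noncomputable def pt (d a b w : ℂ) : ℂ × ℂ := ((d + a - b + w) / (2 * d), (d + a - b - w) / 2)

def Dl (d a b : ℂ) : ℂ := (d - a - b) ^ 2 - 4 * a * b

theorem pt_rf (d a b w : ℂ) (hd : d ≠ 0) : rf d (pt d a b w) = pt d a b (-w) := by
  unfold rf pt
  ext
  · simp only
    field_simp
    ring
  · simp only
    field_simp
    ring

/-- the thirteen lengths -/
structure Par where
  (a b a3 b3 a4 b4 e f c f7 g h k : ℂ)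

noncomputable def N4' (P : Par) (d w0 w3 w4 : ℂ) : ℂ :=
  N4 P.g P.h P.k P.e P.f P.c P.f7 (pt d P.a P.b w0) (pt d P.a3 P.b3 w3) (pt d P.a4 P.b4 w4)

theorem N4'_neg (P : Par) {d : ℂ} (hd : d ≠ 0) (w0 w3 w4 : ℂ) :
    N4' P d (-w0) (-w3) (-w4) = N4' P d w0 w3 w4 := by
  unfold N4'
  rw [← pt_rf d P.a P.b w0 hd, ← pt_rf d P.a3 P.b3 w3 hd, ← pt_rf d P.a4 P.b4 w4 hd,
    N4_rf _ _ _ _ _ _ _ _ _ _ hd]

noncomputable def NN (P : Par) (d w0 w3 w4 : ℂ) : ℂ :=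
  N4' P d w0 w3 w4 * N4' P d w0 (-w3) w4 * (N4' P d w0 w3 (-w4) * N4' P d w0 (-w3) (-w4))

noncomputable def N (P : Par) (d : ℂ) : ℂ :=
  NN P d (cs (Dl d P.a P.b)) (cs (Dl d P.a3 P.b3)) (cs (Dl d P.a4 P.b4))

theorem NN_neg0 (P : Par) {d : ℂ} (hd : d ≠ 0) (w0 w3 w4 : ℂ) :
    NN P d (-w0) w3 w4 = NN P d w0 w3 w4 := by
  have h1 := N4'_neg P hd w0 w3 w4
  have h2 := N4'_neg P hd w0 (-w3) w4
  have h3 := N4'_neg P hd w0 w3 (-w4)
  have h4 := N4'_neg P hd w0 (-w3) (-w4)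
  rw [neg_neg] at h2 h3 h4
  rw [neg_neg] at h4
  unfold NN
  rw [h4, h3, h2, h1]
  ring

theorem NN_neg3 (P : Par) (d w0 w3 w4 : ℂ) :
    NN P d w0 (-w3) w4 = NN P d w0 w3 w4 := by
  unfold NN
  rw [neg_neg]
  ring

theorem NN_neg4 (P : Par) (d w0 w3 w4 : ℂ) :
    NN P d w0 w3 (-w4) = NN P d w0 w3 w4 := by
  unfold NN
  rw [neg_neg]
  ring

theorem N_eq (P : Par) {d : ℂ} (hd : d ≠ 0) {w0 w3 w4 : ℂ} (h0 : w0 ^ 2 = Dl d P.a P.b)
    (h3 : w3 ^ 2 = Dl d P.a3 P.b3) (h4 : w4 ^ 2 = Dl d P.a4 P.b4) :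
    N P d = NN P d w0 w3 w4 := by
  unfold N
  rcases cs_cases h0 with h | h <;> rcases cs_cases h3 with h' | h' <;>
    rcases cs_cases h4 with h'' | h'' <;> rw [h, h', h''] <;>
    simp only [NN_neg0 P hd, NN_neg3, NN_neg4]

/-- all lengths real -/
structure Par.Re (P : Par) : Prop where
  a : conj P.a = P.a
  b : conj P.b = P.b
  a3 : conj P.a3 = P.a3
  b3 : conj P.b3 = P.b3
  a4 : conj P.a4 = P.a4
  b4 : conj P.b4 = P.b4
  e : conj P.e = P.e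
  f : conj P.f = P.f
  c : conj P.c = P.c
  f7 : conj P.f7 = P.f7
  g : conj P.g = P.g
  h : conj P.h = P.h
  k : conj P.k = P.k

noncomputable def cj (A : ℂ × ℂ) : ℂ × ℂ := (conj A.1, conj A.2)

theorem Ph_cj {g h k : ℂ} (hg : conj g = g) (hh : conj h = h) (hk : conj k = k) (A B : ℂ × ℂ) :
    conj (Ph g h k A B) = Ph g h k (cj A) (cj B) := by
  unfold Ph Phi cj
  simp only [map_add, map_mul, map_sub, map_pow, hg, hh, hk]

theorem arm_cj {e f : ℂ} (he : conj e = e) (hf : conj f = f) (A B : ℂ × ℂ) (r : ℂ) :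
    cj (arm A B e f r) = arm (cj A) (cj B) e f (conj r) := by
  unfold arm cj
  ext
  · simp only [map_add, map_mul, map_sub, map_div₀, he, hf, Complex.conj_ofNat]
  · simp only [map_add, map_mul, map_sub, map_div₀, he, hf, Complex.conj_ofNat]

theorem bt_cj {e f : ℂ} (he : conj e = e) (hf : conj f = f) (A B : ℂ × ℂ) :
    conj (bt A B e f) = bt (cj A) (cj B) e f := by
  unfold bt cj
  simp only [map_add, map_mul, map_sub, map_pow, he, hf, Complex.conj_ofNat]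

theorem N4_cj {g h k e f c f7 : ℂ} (hg : conj g = g) (hh : conj h = h) (hk : conj k = k)
    (he : conj e = e) (hf : conj f = f) (hc : conj c = c) (hf7 : conj f7 = f7)
    (A B C : ℂ × ℂ) :
    conj (N4 g h k e f c f7 A B C) = N4 g h k e f c f7 (cj A) (cj B) (cj C) := by
  rw [N4_eq g h k e f c f7 (cj A) (cj B) (cj C) (r := conj (cs (bt A B e f)))
    (r' := conj (cs (bt A C c f7))) (by rw [← map_pow, cs_sq, bt_cj he hf])
    (by rw [← map_pow, cs_sq, bt_cj hc hf7])]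
  unfold N4 Q4
  simp only [map_mul, Ph_cj hg hh hk, arm_cj he hf, arm_cj hc hf7, map_neg]

theorem pt_cj {d a b : ℂ} (hd : conj d = d) (ha : conj a = a) (hb : conj b = b) (w : ℂ) :
    cj (pt d a b w) = pt d a b (conj w) := by
  unfold pt cj
  ext
  · simp only [map_add, map_mul, map_sub, map_div₀, hd, ha, hb, Complex.conj_ofNat]
  · simp only [map_add, map_sub, map_div₀, hd, ha, hb, Complex.conj_ofNat]

theorem N4'_cj {P : Par} (hP : P.Re) {d : ℂ} (hd : conj d = d) (w0 w3 w4 : ℂ) :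
    conj (N4' P d w0 w3 w4) = N4' P d (conj w0) (conj w3) (conj w4) := by
  unfold N4'
  rw [N4_cj hP.g hP.h hP.k hP.e hP.f hP.c hP.f7, pt_cj hd hP.a hP.b, pt_cj hd hP.a3 hP.b3,
    pt_cj hd hP.a4 hP.b4]

theorem NN_cj {P : Par} (hP : P.Re) {d : ℂ} (hd : conj d = d) (w0 w3 w4 : ℂ) :
    conj (NN P d w0 w3 w4) = NN P d (conj w0) (conj w3) (conj w4) := by
  unfold NN
  simp only [map_mul, N4'_cj hP hd, map_neg]

theorem Dl_cj {d a b : ℂ} (hd : conj d = d) (ha : conj a = a) (hb : conj b = b) :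
    conj (Dl d a b) = Dl d a b := by
  unfold Dl
  simp only [map_mul, map_sub, map_pow, hd, ha, hb, Complex.conj_ofNat]

theorem N_cj {P : Par} (hP : P.Re) {d : ℂ} (hd0 : d ≠ 0) (hd : conj d = d) :
    conj (N P d) = N P d := by
  have h := N_eq P hd0 (w0 := conj (cs (Dl d P.a P.b))) (w3 := conj (cs (Dl d P.a3 P.b3)))
    (w4 := conj (cs (Dl d P.a4 P.b4))) (by rw [← map_pow, cs_sq, Dl_cj hd hP.a hP.b])
    (by rw [← map_pow, cs_sq, Dl_cj hd hP.a3 hP.b3])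
    (by rw [← map_pow, cs_sq, Dl_cj hd hP.a4 hP.b4])
  rw [← NN_cj hP hd] at h
  exact h.symm

/-- at a branch point of the first root the total product is a square of a real number -/
theorem N_sq {P : Par} (hP : P.Re) {d : ℂ} (hd0 : d ≠ 0) (hd : conj d = d)
    (hD : Dl d P.a P.b = 0) : ∃ z : ℂ, conj z = z ∧ N P d = z ^ 2 := by
  obtain ⟨w3, hw3⟩ := IsAlgClosed.exists_pow_nat_eq (Dl d P.a3 P.b3) (n := 2) (by norm_num)
  obtain ⟨w4, hw4⟩ := IsAlgClosed.exists_pow_nat_eq (Dl d P.a4 P.b4) (n := 2) (by norm_num)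
  have h := N_eq P hd0 (w0 := 0) (by rw [hD]; norm_num) hw3 hw4
  have e1 := N4'_neg P hd0 0 w3 w4
  have e2 := N4'_neg P hd0 0 (-w3) w4
  rw [neg_zero] at e1 e2
  rw [neg_neg] at e2
  refine ⟨N4' P d 0 w3 w4 * N4' P d 0 (-w3) w4, ?_, ?_⟩
  · have c3 : conj w3 = w3 ∨ conj w3 = -w3 := by
      rw [← sq_eq_sq_iff_eq_or_eq_neg, ← map_pow, hw3, Dl_cj hd hP.a3 hP.b3]
    have c4 : conj w4 = w4 ∨ conj w4 = -w4 := by
      rw [← sq_eq_sq_iff_eq_or_eq_neg, ← map_pow, hw4, Dl_cj hd hP.a4 hP.b4]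
    rw [map_mul, N4'_cj hP hd, N4'_cj hP hd, map_neg, map_zero]
    rcases c3 with c3 | c3 <;> rcases c4 with c4 | c4 <;> rw [c3, c4] <;>
      simp only [neg_neg, e1, e2] <;> ring
  · rw [h]
    unfold NN
    rw [e1, e2]
    ring

end Pool.Agent.TH532
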