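import Mathlib
import Pool.Agent.TH532.NN

set_option autoImplicit false

namespace Pool.Agent.TH532

open Filter Topology

theorem arm_rel {P Q : ℂ × ℂ} {e f r : ℂ} (h1 : Q.1 - P.1 ≠ 0) (h2 : Q.2 - P.2 ≠ 0)
    (hr : r ^ 2 = bt P Q e f) :
    ((arm P Q e f r).1 - P.1) * ((arm P Q e f r).2 - P.2) = e ∧
    ((arm P Q e f r).1 - Q.1) * ((arm P Q e f r).2 - Q.2) = f := by
  unfold bt at hr
  unfold arm
  simp only
  generalize hv : Q.1 - P.1 = v at *
  generalize hu : Q.2 - P.2 = u at *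
  have e1 : Q.1 = P.1 + v := by rw [← hv]; ring
  have e2 : Q.2 = P.2 + u := by rw [← hu]; ring
  rw [e1, e2]
  constructor
  · field_simp
    linear_combination -hr
  · field_simp
    linear_combination -hr

theorem arm_swap (P Q : ℂ × ℂ) (e f r : ℂ) :
    (arm P Q e f r).swap = arm P.swap Q.swap e f (-r) := by
  unfold arm
  ext
  · simp only [Prod.fst_swap, Prod.snd_swap]
    ring
  · simp only [Prod.fst_swap, Prod.snd_swap]
    ring

theorem bt_swap (P Q : ℂ × ℂ) (e f : ℂ) : bt P.swap Q.swap e f = bt P Q e f := by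
  unfold bt
  simp only [Prod.fst_swap, Prod.snd_swap]
  ring

variable {α : Type} {l : Filter α} {ε : α → ℂ} {p q : α → ℂ × ℂ}

theorem ne_of_lim {f : α → ℂ} {c : ℂ} (h : Tendsto f l (𝓝 c)) (hc : c ≠ 0) :
    ∀ᶠ x in l, f x ≠ 0 := h.eventually_ne hc

theorem lim_quot {X Y : α → ℂ} {c a : ℂ} (h : ∀ᶠ x in l, X x * Y x = c)
    (hX : Tendsto X l (𝓝 a)) (ha : a ≠ 0) : Tendsto Y l (𝓝 (c / a)) := by
  have h1 : Tendsto (fun x => c / X x) l (𝓝 (c / a)) :=
    (tendsto_const_nhds (x := c)).div hX ha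
  refine h1.congr' ?_
  filter_upwards [h, ne_of_lim hX ha] with x hx hx0
  rw [div_eq_iff hx0, mul_comm]
  exact hx.symm

theorem arm_reg {P Q : ℂ × ℂ} {e f R : ℂ} (hp : Tendsto p l (𝓝 P)) (hq : Tendsto q l (𝓝 Q))
    (h1 : Q.1 - P.1 ≠ 0) (h2 : Q.2 - P.2 ≠ 0) (hR : R ^ 2 = bt P Q e f) :
    ∃ r : α → ℂ, (∀ x, r x ^ 2 = bt (p x) (q x) e f) ∧
      Tendsto (fun x => (arm (p x) (q x) e f (r x)).1) l (𝓝 (arm P Q e f R).1) ∧
      Tendsto (fun x => (arm (p x) (q x) e f (r x)).2) l (𝓝 (arm P Q e f R).2) ∧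
      Tendsto (fun x => (arm (p x) (q x) e f (-r x)).1) l (𝓝 (arm P Q e f (-R)).1) ∧
      Tendsto (fun x => (arm (p x) (q x) e f (-r x)).2) l (𝓝 (arm P Q e f (-R)).2) := by
  have p1 : Tendsto (fun x => (p x).1) l (𝓝 P.1) := (continuous_fst.tendsto P).comp hp
  have p2 : Tendsto (fun x => (p x).2) l (𝓝 P.2) := (continuous_snd.tendsto P).comp hp
  have q1 : Tendsto (fun x => (q x).1) l (𝓝 Q.1) := (continuous_fst.tendsto Q).comp hq
  have q2 : Tendsto (fun x => (q x).2) l (𝓝 Q.2) := (continuous_snd.tendsto Q).comp hq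
  have v1 := q1.sub p1
  have v2 := q2.sub p2
  have hc := (v1.mul v2).const_add (e - f)
  have hb : Tendsto (fun x => bt (p x) (q x) e f) l (𝓝 (R ^ 2)) := by
    rw [hR]
    exact (hc.pow 2).sub (((v1.mul v2).const_mul 4).mul_const e)
  obtain ⟨r, hr, hrR⟩ := branch _ _ hb
  have h1' : 2 * (Q.1 - P.1) ≠ 0 := mul_ne_zero two_ne_zero h1
  have h2' : 2 * (Q.2 - P.2) ≠ 0 := mul_ne_zero two_ne_zero h2
  refine ⟨r, hr, ?_, ?_, ?_, ?_⟩
  · exact p1.add ((hc.add hrR).div (v2.const_mul 2) h2')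
  · exact p2.add ((hc.sub hrR).div (v1.const_mul 2) h1')
  · exact p1.add ((hc.add hrR.neg).div (v2.const_mul 2) h2')
  · exact p2.add ((hc.sub hrR.neg).div (v1.const_mul 2) h1')

theorem arm_FT {S θ μ v e f : ℂ} (hε : Tendsto ε l (𝓝 0)) (hε0 : ∀ᶠ x in l, ε x ≠ 0)
    (hp1 : Tendsto (fun x => (p x).1) l (𝓝 S)) (hp2 : Tendsto (fun x => (p x).2) l (𝓝 θ))
    (h1 : Tendsto (fun x => ((q x).1 - (p x).1) / ε x) l (𝓝 μ))
    (h2 : Tendsto (fun x => (q x).2 - (p x).2) l (𝓝 v))
    (hμ : μ ≠ 0) (hv : v ≠ 0) (hef : e - f ≠ 0) :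
    ∃ r : α → ℂ, (∀ x, r x ^ 2 = bt (p x) (q x) e f) ∧
      Has l ε (fun x => (p x).1) (fun x => (arm (p x) (q x) e f (r x)).1)
        (fun x => (arm (p x) (q x) e f (r x)).2) (.F (S + (e - f) / v) (θ + e / ((e - f) / v))) ∧
      Has l ε (fun x => (p x).1) (fun x => (arm (p x) (q x) e f (-r x)).1)
        (fun x => (arm (p x) (q x) e f (-r x)).2) (.T ((e - f) / μ) (e / ((e - f) / μ))) := by
  have v1 : Tendsto (fun x => (q x).1 - (p x).1) l (𝓝 0) := by
    have := h1.mul hε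
    rw [mul_zero] at this
    refine this.congr' ?_
    filter_upwards [hε0] with x hx
    field_simp
  have n1 : ∀ᶠ x in l, (q x).1 - (p x).1 ≠ 0 := by
    filter_upwards [ne_of_lim h1 hμ] with x hx
    intro h
    apply hx
    rw [h, zero_div]
  have n2 := ne_of_lim h2 hv
  have hc := (v1.mul h2).const_add (e - f)
  rw [zero_mul, add_zero] at hc
  have hb : Tendsto (fun x => bt (p x) (q x) e f) l (𝓝 ((e - f) ^ 2)) := by
    have := (hc.pow 2).sub (((v1.mul h2).const_mul 4).mul_const e)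
    rw [zero_mul, mul_zero, zero_mul, sub_zero] at this
    exact this
  obtain ⟨r, hr, hrR⟩ := branch _ _ hb
  have rel : ∀ᶠ x in l, ((arm (p x) (q x) e f (r x)).1 - (p x).1) *
      ((arm (p x) (q x) e f (r x)).2 - (p x).2) = e := by
    filter_upwards [n1, n2] with x hx1 hx2
    exact (arm_rel hx1 hx2 (hr x)).1
  have rel' : ∀ᶠ x in l, ((arm (p x) (q x) e f (-r x)).1 - (p x).1) *
      ((arm (p x) (q x) e f (-r x)).2 - (p x).2) = e := by
    filter_upwards [n1, n2] with x hx1 hx2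
    exact (arm_rel hx1 hx2 (by rw [neg_sq]; exact hr x)).1
  have hX : Tendsto (fun x => (arm (p x) (q x) e f (r x)).1 - (p x).1) l (𝓝 ((e - f) / v)) := by
    have := (hc.add hrR).div (h2.const_mul 2) (mul_ne_zero two_ne_zero hv)
    have e1 : ((e - f) + (e - f)) / (2 * v) = (e - f) / v := by
      field_simp
      ring
    rw [e1] at this
    refine this.congr (fun x => ?_)
    simp only [arm]
    simp
  have hY : Tendsto (fun x => ε x * ((arm (p x) (q x) e f (-r x)).2 - (p x).2)) l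
      (𝓝 ((e - f) / μ)) := by
    have := (hc.add hrR).div (h1.const_mul 2) (mul_ne_zero two_ne_zero hμ)
    have e1 : ((e - f) + (e - f)) / (2 * μ) = (e - f) / μ := by
      field_simp
      ring
    rw [e1] at this
    refine this.congr' ?_
    filter_upwards [hε0, n1] with x hx hx1
    simp only [arm, Pi.div_apply]
    field_simp
    ring
  have hX0 : (e - f) / v ≠ 0 := div_ne_zero hef hv
  have hY0 : (e - f) / μ ≠ 0 := div_ne_zero hef hμ
  refine ⟨r, hr, ⟨?_, ?_⟩, ⟨?_, ?_⟩⟩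
  · refine (hp1.add hX).congr (fun x => ?_)
    ring
  · refine (hp2.add (lim_quot rel hX hX0)).congr (fun x => ?_)
    ring
  · refine lim_quot ?_ hY hY0
    filter_upwards [rel', hε0] with x hx hx1
    field_simp
    linear_combination hx
  · have := (hε.mul hp2).add hY
    rw [zero_mul, zero_add] at this
    refine this.congr (fun x => ?_)
    ring

theorem arm_ZT {S θ m qq e f : ℂ} (hε : Tendsto ε l (𝓝 0)) (hε0 : ∀ᶠ x in l, ε x ≠ 0)
    (hp1 : Tendsto (fun x => (p x).1) l (𝓝 S)) (hp2 : Tendsto (fun x => (p x).2) l (𝓝 θ))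
    (hq1 : Tendsto (fun x => (q x).1 / ε x) l (𝓝 qq))
    (hq2 : Tendsto (fun x => ε x * (q x).2) l (𝓝 m))
    (hS : S ≠ 0) (hm : m ≠ 0) :
    ∃ r : α → ℂ, (∀ᶠ x in l, r x ^ 2 = bt (p x) (q x) e f) ∧
      Has l ε (fun x => (p x).1) (fun x => (arm (p x) (q x) e f (r x)).1)
        (fun x => (arm (p x) (q x) e f (r x)).2) (.Z (qq - f / m) (θ - e / S)) ∧
      Has l ε (fun x => (p x).1) (fun x => (arm (p x) (q x) e f (-r x)).1)
        (fun x => (arm (p x) (q x) e f (-r x)).2) (.T m (e / m)) ∧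
      Tendsto (fun x => (arm (p x) (q x) e f (-r x)).2 - (q x).2) l (𝓝 (f / S)) := by
  have q1 : Tendsto (fun x => (q x).1) l (𝓝 0) := has_Z_s hε hε0 hq1
  have v1 : Tendsto (fun x => (q x).1 - (p x).1) l (𝓝 (-S)) := by
    have := q1.sub hp1
    rw [zero_sub] at this
    exact this
  have v2 : Tendsto (fun x => ε x * ((q x).2 - (p x).2)) l (𝓝 m) := by
    have := hq2.sub (hε.mul hp2)
    rw [zero_mul, sub_zero] at this
    refine this.congr (fun x => ?_)
    ring
  have hS' : -S ≠ 0 := neg_ne_zero.2 hS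
  have n1 := ne_of_lim v1 hS'
  have n2' := ne_of_lim v2 hm
  have n2 : ∀ᶠ x in l, (q x).2 - (p x).2 ≠ 0 := by
    filter_upwards [n2'] with x hx
    exact right_ne_zero_of_mul hx
  -- `ε` times the constant `c'`
  have hc : Tendsto (fun x => ε x * (e - f + ((q x).1 - (p x).1) * ((q x).2 - (p x).2))) l
      (𝓝 (-S * m)) := by
    have := (hε.mul_const (e - f)).add (v1.mul v2)
    rw [zero_mul, zero_add] at this
    refine this.congr (fun x => ?_)
    ring
  have hSm : -S * m ≠ 0 := mul_ne_zero hS' hm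
  have nc := ne_of_lim hc hSm
  have hb : Tendsto (fun x => (ε x ^ 2 * bt (p x) (q x) e f) /
      (ε x * (e - f + ((q x).1 - (p x).1) * ((q x).2 - (p x).2))) ^ 2) l (𝓝 (1 ^ 2)) := by
    have h1 : Tendsto (fun x => (ε x * (e - f + ((q x).1 - (p x).1) * ((q x).2 - (p x).2))) ^ 2 -
        4 * (((q x).1 - (p x).1) * (ε x * ((q x).2 - (p x).2))) * e * ε x) l
        (𝓝 ((-S * m) ^ 2 - 4 * (-S * m) * e * 0)) :=
      (hc.pow 2).sub ((((v1.mul v2).const_mul 4).mul_const e).mul hε)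
    have h2 := h1.div (hc.pow 2) (pow_ne_zero 2 hSm)
    rw [mul_zero, sub_zero, div_self (pow_ne_zero 2 hSm)] at h2
    rw [one_pow]
    refine h2.congr (fun x => ?_)
    simp only [Pi.div_apply, bt]
    ring
  obtain ⟨ρ, hρ, hρ1⟩ := branch _ _ hb
  let r : α → ℂ := fun x => ρ x * (e - f + ((q x).1 - (p x).1) * ((q x).2 - (p x).2))
  have hr : ∀ᶠ x in l, r x ^ 2 = bt (p x) (q x) e f := by
    filter_upwards [hε0, nc] with x hx0 hx1
    simp only [r]
    rw [mul_pow, hρ x]
    have : e - f + ((q x).1 - (p x).1) * ((q x).2 - (p x).2) ≠ 0 := right_ne_zero_of_mul hx1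
    field_simp
  have hrε : Tendsto (fun x => ε x * r x) l (𝓝 (-S * m)) := by
    have := hρ1.mul hc
    rw [one_mul] at this
    refine this.congr (fun x => ?_)
    simp only [r]
    ring
  have rel : ∀ᶠ x in l, ((arm (p x) (q x) e f (r x)).1 - (p x).1) *
      ((arm (p x) (q x) e f (r x)).2 - (p x).2) = e ∧
      ((arm (p x) (q x) e f (r x)).1 - (q x).1) *
      ((arm (p x) (q x) e f (r x)).2 - (q x).2) = f := by
    filter_upwards [n1, n2, hr] with x hx1 hx2 hx3
    exact arm_rel hx1 hx2 hx3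
  have rel' : ∀ᶠ x in l, ((arm (p x) (q x) e f (-r x)).1 - (p x).1) *
      ((arm (p x) (q x) e f (-r x)).2 - (p x).2) = e ∧
      ((arm (p x) (q x) e f (-r x)).1 - (q x).1) *
      ((arm (p x) (q x) e f (-r x)).2 - (q x).2) = f := by
    filter_upwards [n1, n2, hr] with x hx1 hx2 hx3
    exact arm_rel hx1 hx2 (by rw [neg_sq]; exact hx3)
  have hX : Tendsto (fun x => (arm (p x) (q x) e f (r x)).1 - (p x).1) l (𝓝 (-S)) := by
    have := (hc.add hrε).div (v2.const_mul 2) (mul_ne_zero two_ne_zero hm)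
    have e1 : (-S * m + -S * m) / (2 * m) = -S := by
      field_simp
      ring
    rw [e1] at this
    refine this.congr' ?_
    filter_upwards [hε0, n2] with x hx hx2
    simp only [arm, Pi.div_apply]
    field_simp
    ring
  have hY : Tendsto (fun x => ε x * ((arm (p x) (q x) e f (-r x)).2 - (p x).2)) l (𝓝 m) := by
    have := (hc.add hrε).div (v1.const_mul 2) (mul_ne_zero two_ne_zero hS')
    have e1 : (-S * m + -S * m) / (2 * -S) = m := by
      field_simp
      ring
    rw [e1] at this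
    refine this.congr' ?_
    filter_upwards [hε0, n1] with x hx hx2
    simp only [arm, Pi.div_apply]
    field_simp
    ring
  -- first solution
  have hs : Tendsto (fun x => (arm (p x) (q x) e f (r x)).1) l (𝓝 0) := by
    have := hp1.add hX
    rw [add_neg_cancel] at this
    refine this.congr (fun x => ?_)
    ring
  have ht : Tendsto (fun x => (arm (p x) (q x) e f (r x)).2) l (𝓝 (θ - e / S)) := by
    have := hp2.add (lim_quot (rel.mono (fun x hx => hx.1)) hX hS')
    rw [div_neg, ← sub_eq_add_neg] at this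
    refine this.congr (fun x => ?_)
    ring
  have hd : Tendsto (fun x => ε x * ((arm (p x) (q x) e f (r x)).2 - (q x).2)) l (𝓝 (-m)) := by
    have := (hε.mul ht).sub hq2
    rw [zero_mul, zero_sub] at this
    refine this.congr (fun x => ?_)
    ring
  have hm' : -m ≠ 0 := neg_ne_zero.2 hm
  -- second solution
  have hX' : Tendsto (fun x => ((arm (p x) (q x) e f (-r x)).1 - (p x).1) / ε x) l
      (𝓝 (e / m)) := by
    refine lim_quot ?_ hY hm
    filter_upwards [rel', hε0] with x hx hx1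
    field_simp
    linear_combination hx.1
  have hs' : Tendsto (fun x => (arm (p x) (q x) e f (-r x)).1) l (𝓝 S) :=
    has_T_s hε hε0 hp1 hX'
  refine ⟨r, hr, ⟨?_, ht⟩, ⟨hX', ?_⟩, ?_⟩
  · have h3 : Tendsto (fun x => ((arm (p x) (q x) e f (r x)).1 - (q x).1) / ε x) l
        (𝓝 (f / -m)) := by
      refine lim_quot ?_ hd hm'
      filter_upwards [rel, hε0] with x hx hx1
      field_simp
      linear_combination hx.2
    have := h3.add hq1
    have e1 : f / -m + qq = qq - f / m := by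
      rw [div_neg]; ring
    rw [e1] at this
    refine this.congr (fun x => ?_)
    ring
  · have := (hε.mul hp2).add hY
    rw [zero_mul, zero_add] at this
    refine this.congr (fun x => ?_)
    ring
  · have h1 : Tendsto (fun x => (arm (p x) (q x) e f (-r x)).1 - (q x).1) l (𝓝 S) := by
      have := hs'.sub q1
      rw [sub_zero] at this
      exact this
    exact lim_quot (rel'.mono (fun x hx => hx.2)) h1 hS

end Pool.Agent.TH532
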