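import Mathlib
import Pool.Agent.TH532.Arm

set_option autoImplicit false

namespace Pool.Agent.TH532

open Filter Topology

theorem pt_rel {d a b w : ℂ} (hd : d ≠ 0) (hw : w ^ 2 = Dl d a b) :
    (pt d a b w).1 * (pt d a b w).2 = a ∧
    ((pt d a b w).1 - 1) * ((pt d a b w).2 - d) = b := by
  unfold Dl at hw
  unfold pt
  simp only
  constructor
  · field_simp
    linear_combination -hw
  · field_simp
    linear_combination -hw

variable {α : Type} {l : Filter α} {d w : α → ℂ} {a b : ℂ}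

theorem inv_inv_fun (hd0 : ∀ᶠ x in l, d x ≠ 0) : ∀ᶠ x in l, (d x)⁻¹ ≠ 0 :=
  hd0.mono (fun _ hx => inv_ne_zero hx)

theorem pt_inf (hd : Tendsto (fun x => (d x)⁻¹) l (𝓝 0)) (hd0 : ∀ᶠ x in l, d x ≠ 0)
    (hw : ∀ᶠ x in l, w x ^ 2 = Dl (d x) a b) (hw1 : Tendsto (fun x => w x / d x) l (𝓝 1)) :
    (Tendsto (fun x => (pt (d x) a b (w x)).1) l (𝓝 1) ∧
    Tendsto (fun x => (pt (d x) a b (w x)).2) l (𝓝 a) ∧
    Tendsto (fun x => ((pt (d x) a b (w x)).1 - 1) / (d x)⁻¹) l (𝓝 (-b))) ∧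
    (Tendsto (fun x => (pt (d x) a b (-w x)).1 / (d x)⁻¹) l (𝓝 a) ∧
    Tendsto (fun x => (d x)⁻¹ * (pt (d x) a b (-w x)).2) l (𝓝 1) ∧
    Tendsto (fun x => (pt (d x) a b (-w x)).2 - d x) l (𝓝 (-b))) := by
  have key : Tendsto (fun x => (1 + (a - b) * (d x)⁻¹ + w x / d x) / 2) l (𝓝 1) := by
    have := (((hd.const_mul (a - b)).const_add 1).add hw1).div_const 2
    rw [mul_zero, add_zero] at this
    have e1 : ((1 : ℂ) + 1) / 2 = 1 := by norm_num
    rw [e1] at this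
    exact this
  have h1 : Tendsto (fun x => (pt (d x) a b (w x)).1) l (𝓝 1) := by
    refine key.congr' ?_
    filter_upwards [hd0] with x hx
    simp only [pt]
    field_simp
    ring
  have h2 : Tendsto (fun x => (pt (d x) a b (w x)).2) l (𝓝 a) := by
    have := lim_quot (c := a) (Y := fun x => (pt (d x) a b (w x)).2) ?_ h1 one_ne_zero
    · rw [div_one] at this
      exact this
    · filter_upwards [hd0, hw] with x hx hx1
      exact (pt_rel hx hx1).1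
  have h3 : Tendsto (fun x => ((pt (d x) a b (w x)).1 - 1) / (d x)⁻¹) l (𝓝 (-b)) := by
    have h4 : Tendsto (fun x => (d x)⁻¹ * (pt (d x) a b (w x)).2 - 1) l (𝓝 (-1)) := by
      have := (hd.mul h2).sub_const 1
      rw [zero_mul, zero_sub] at this
      exact this
    have := lim_quot (c := b) (Y := fun x => ((pt (d x) a b (w x)).1 - 1) / (d x)⁻¹) ?_ h4
      (by norm_num)
    · rw [div_neg, div_one] at this
      exact this
    · filter_upwards [hd0, hw] with x hx hx1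
      have := (pt_rel hx hx1).2
      field_simp
      linear_combination this
  have h4 : Tendsto (fun x => (d x)⁻¹ * (pt (d x) a b (-w x)).2) l (𝓝 1) := by
    refine key.congr' ?_
    filter_upwards [hd0] with x hx
    simp only [pt]
    field_simp
    ring
  have rel : ∀ᶠ x in l, (pt (d x) a b (-w x)).1 * (pt (d x) a b (-w x)).2 = a ∧
    ((pt (d x) a b (-w x)).1 - 1) * ((pt (d x) a b (-w x)).2 - d x) = b := by
    filter_upwards [hd0, hw] with x hx hx1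
    exact pt_rel hx (by rw [neg_sq]; exact hx1)
  have h5 : Tendsto (fun x => (pt (d x) a b (-w x)).1 / (d x)⁻¹) l (𝓝 a) := by
    have := lim_quot (c := a) (Y := fun x => (pt (d x) a b (-w x)).1 / (d x)⁻¹) ?_ h4
      one_ne_zero
    · rw [div_one] at this
      exact this
    · filter_upwards [hd0, rel] with x hx hx1
      field_simp
      linear_combination hx1.1
  have h6 : Tendsto (fun x => (pt (d x) a b (-w x)).1) l (𝓝 0) :=
    has_Z_s hd (inv_inv_fun hd0) h5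
  have h7 : Tendsto (fun x => (pt (d x) a b (-w x)).1 - 1) l (𝓝 (-1)) := by
    have := h6.sub_const 1
    rw [zero_sub] at this
    exact this
  have h8 : Tendsto (fun x => (pt (d x) a b (-w x)).2 - d x) l (𝓝 (-b)) := by
    have := lim_quot (c := b) (rel.mono (fun x hx => hx.2)) h7 (by norm_num)
    rw [div_neg, div_one] at this
    exact this
  exact ⟨⟨h1, h2, h3⟩, h5, h4, h8⟩

theorem w_inf (hd : Tendsto (fun x => (d x)⁻¹) l (𝓝 0)) (hd0 : ∀ᶠ x in l, d x ≠ 0)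
    (a b : ℂ) : ∃ w : α → ℂ, (∀ᶠ x in l, w x ^ 2 = Dl (d x) a b) ∧
      Tendsto (fun x => w x / d x) l (𝓝 1) := by
  have h1 : Tendsto (fun x => (1 - (a + b) * (d x)⁻¹) ^ 2 - 4 * a * b * (d x)⁻¹ ^ 2) l
      (𝓝 (1 ^ 2)) := by
    have := (((hd.const_mul (a + b)).const_sub 1).pow 2).sub ((hd.pow 2).const_mul (4 * a * b))
    have e1 : ((1 : ℂ) - (a + b) * 0) ^ 2 - 4 * a * b * 0 ^ 2 = 1 ^ 2 := by ring
    rw [e1] at this
    exact this
  obtain ⟨r, hr, hr1⟩ := branch _ _ h1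
  refine ⟨fun x => r x * d x, ?_, ?_⟩
  · filter_upwards [hd0] with x hx
    rw [mul_pow, hr x]
    unfold Dl
    field_simp
    ring
  · refine hr1.congr' ?_
    filter_upwards [hd0] with x hx
    field_simp

theorem pt_zero (hd : Tendsto d l (𝓝 0)) (hd0 : ∀ᶠ x in l, d x ≠ 0)
    (hw : ∀ᶠ x in l, w x ^ 2 = Dl (d x) a b) (hw1 : Tendsto w l (𝓝 (-(a - b))))
    (hκ : a - b ≠ 0) :
    (Tendsto (fun x => (pt (d x) a b (w x)).1) l (𝓝 (a / (a - b))) ∧
    Tendsto (fun x => (pt (d x) a b (w x)).2) l (𝓝 (a - b))) ∧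
    (Tendsto (fun x => d x * (pt (d x) a b (-w x)).1) l (𝓝 (a - b)) ∧
    Tendsto (fun x => (pt (d x) a b (-w x)).2 / d x) l (𝓝 (a / (a - b)))) := by
  have key : Tendsto (fun x => (d x + a - b - w x) / 2) l (𝓝 (a - b)) := by
    have := (((hd.add_const a).sub_const b).sub hw1).div_const 2
    have e1 : (0 + a - b - -(a - b)) / 2 = a - b := by ring
    rw [e1] at this
    exact this
  have h1 : Tendsto (fun x => (pt (d x) a b (w x)).2) l (𝓝 (a - b)) := key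
  have h2 : Tendsto (fun x => (pt (d x) a b (w x)).1) l (𝓝 (a / (a - b))) := by
    refine lim_quot ?_ h1 hκ
    filter_upwards [hd0, hw] with x hx hx1
    rw [mul_comm]
    exact (pt_rel hx hx1).1
  have h3 : Tendsto (fun x => d x * (pt (d x) a b (-w x)).1) l (𝓝 (a - b)) := by
    refine key.congr' ?_
    filter_upwards [hd0] with x hx
    simp only [pt]
    field_simp
    ring
  refine ⟨⟨h2, h1⟩, h3, ?_⟩
  refine lim_quot ?_ h3 hκ
  filter_upwards [hd0, hw] with x hx hx1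
  have := (pt_rel (w := -w x) hx (by rw [neg_sq]; exact hx1)).1
  field_simp
  linear_combination this

theorem w_zero (hd : Tendsto d l (𝓝 0)) (a b : ℂ) : ∃ w : α → ℂ,
    (∀ᶠ x in l, w x ^ 2 = Dl (d x) a b) ∧ Tendsto w l (𝓝 (-(a - b))) := by
  have h1 : Tendsto (fun x => Dl (d x) a b) l (𝓝 ((-(a - b)) ^ 2)) := by
    have := (((hd.sub_const a).sub_const b).pow 2).sub_const (4 * a * b)
    have e1 : (0 - a - b) ^ 2 - 4 * a * b = (-(a - b)) ^ 2 := by ring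
    rw [e1] at this
    exact this
  obtain ⟨r, hr, hr1⟩ := branch _ _ h1
  exact ⟨r, Eventually.of_forall hr, hr1⟩

theorem pt_reg {D W : ℂ} (hd : Tendsto d l (𝓝 D)) (hD : D ≠ 0) (hw : Tendsto w l (𝓝 W)) :
    Tendsto (fun x => pt (d x) a b (w x)) l (𝓝 (pt D a b W)) := by
  have h1 := (((hd.add_const a).sub_const b).add hw).div (hd.const_mul 2)
    (mul_ne_zero two_ne_zero hD)
  have h2 := (((hd.add_const a).sub_const b).sub hw).div_const 2
  exact h1.prodMk_nhds h2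

theorem w_reg {D W : ℂ} (hd : Tendsto d l (𝓝 D)) (hW : W ^ 2 = Dl D a b) : ∃ w : α → ℂ,
    (∀ x, w x ^ 2 = Dl (d x) a b) ∧ Tendsto w l (𝓝 W) := by
  have h1 : Tendsto (fun x => Dl (d x) a b) l (𝓝 (W ^ 2)) := by
    rw [hW]
    exact (((hd.sub_const a).sub_const b).pow 2).sub_const (4 * a * b)
  obtain ⟨r, hr, hr1⟩ := branch _ _ h1
  exact ⟨r, hr, hr1⟩

/-- the four positions of a vertex attached to the first vertex and a movable one -/
def IsEnum (d : ℂ) (p : ℂ × ℂ) (a b e f : ℂ) (A : Fin 4 → ℂ × ℂ) : Prop :=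
  ∃ w r r' : ℂ, w ^ 2 = Dl d a b ∧ r ^ 2 = bt p (pt d a b w) e f ∧
    r' ^ 2 = bt p (pt d a b (-w)) e f ∧ A 0 = arm p (pt d a b w) e f r ∧
    A 1 = arm p (pt d a b w) e f (-r) ∧ A 2 = arm p (pt d a b (-w)) e f r' ∧
    A 3 = arm p (pt d a b (-w)) e f (-r')

theorem N_prod (P : Par) {d w0 : ℂ} (hd : d ≠ 0) (hw : w0 ^ 2 = Dl d P.a P.b)
    {A B : Fin 4 → ℂ × ℂ} (hA : IsEnum d (pt d P.a P.b w0) P.a3 P.b3 P.e P.f A)
    (hB : IsEnum d (pt d P.a P.b w0) P.a4 P.b4 P.c P.f7 B) :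
    N P d = ∏ i, ∏ j, Ph P.g P.h P.k (A i) (B j) := by
  obtain ⟨w, r, r', h1, h2, h3, a0, a1, a2, a3⟩ := hA
  obtain ⟨v, s, s', k1, k2, k3, b0, b1, b2, b3⟩ := hB
  rw [N_eq P hd hw h1 k1]
  unfold NN N4'
  rw [N4_eq _ _ _ _ _ _ _ _ _ _ h2 k2, N4_eq _ _ _ _ _ _ _ _ _ _ h3 k2,
    N4_eq _ _ _ _ _ _ _ _ _ _ h2 k3, N4_eq _ _ _ _ _ _ _ _ _ _ h3 k3]
  unfold Q4
  rw [← a0, ← a1, ← a2, ← a3, ← b0, ← b1, ← b2, ← b3]
  simp only [Fin.prod_univ_four]
  ring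

variable {K : Subfield ℂ} {S : ℂ} {ε : α → ℂ}

theorem N_lead (P : Par) (H : GHK K P.g P.h P.k) (hS : S ∈ K) (hS0 : S ≠ 0)
    (hε : Tendsto ε l (𝓝 0)) (hε0 : ∀ᶠ x in l, ε x ≠ 0)
    (hd0 : ∀ᶠ x in l, d x ≠ 0)
    (hw : ∀ᶠ x in l, w x ^ 2 = Dl (d x) P.a P.b)
    (hp : Tendsto (fun x => (pt (d x) P.a P.b (w x)).1) l (𝓝 S))
    {A B : Fin 4 → α → ℂ × ℂ} {X Y : Fin 4 → St}
    (hA : ∀ᶠ x in l, IsEnum (d x) (pt (d x) P.a P.b (w x)) P.a3 P.b3 P.e P.f (fun i => A i x))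
    (hB : ∀ᶠ x in l, IsEnum (d x) (pt (d x) P.a P.b (w x)) P.a4 P.b4 P.c P.f7 (fun i => B i x))
    (sA : ∀ i, Has l ε (fun x => (pt (d x) P.a P.b (w x)).1) (fun x => (A i x).1)
      (fun x => (A i x).2) (X i))
    (sB : ∀ i, Has l ε (fun x => (pt (d x) P.a P.b (w x)).1) (fun x => (B i x).1)
      (fun x => (B i x).2) (Y i))
    (gA : ∀ i, Good K (X i)) (gB : ∀ i, Good K (Y i)) (hc : ∀ i j, Compat (X i) (Y j)) :
    Lead l ε (∑ i, ∑ j, ord (X i) (Y j)) (fun x => N P (d x)) := by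
  have h1 : Lead l ε (∑ i, ∑ j, ord (X i) (Y j))
      (fun x => ∏ i, ∏ j, Ph P.g P.h P.k (A i x) (B j x)) := by
    refine Lead.prod _ _ _ hε0 (fun i _ => Lead.prod _ _ _ hε0 (fun j _ => ?_))
    exact lead_state H hS hS0 hε hε0 hp _ _ _ _ (sA i) (sB j) (gA i) (gB j) (hc i j)
  refine h1.congr ?_
  filter_upwards [hd0, hw, hA, hB] with x x1 x2 x3 x4
  exact (N_prod P x1 x2 x3 x4).symm

/-- the same with the two coordinates exchanged -/
theorem N_lead' (P : Par) (H : GHK K P.g P.h P.k) (hS : S ∈ K) (hS0 : S ≠ 0)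
    (hε : Tendsto ε l (𝓝 0)) (hε0 : ∀ᶠ x in l, ε x ≠ 0)
    (hd0 : ∀ᶠ x in l, d x ≠ 0)
    (hw : ∀ᶠ x in l, w x ^ 2 = Dl (d x) P.a P.b)
    (hp : Tendsto (fun x => (pt (d x) P.a P.b (w x)).2) l (𝓝 S))
    {A B : Fin 4 → α → ℂ × ℂ} {X Y : Fin 4 → St}
    (hA : ∀ᶠ x in l, IsEnum (d x) (pt (d x) P.a P.b (w x)) P.a3 P.b3 P.e P.f (fun i => A i x))
    (hB : ∀ᶠ x in l, IsEnum (d x) (pt (d x) P.a P.b (w x)) P.a4 P.b4 P.c P.f7 (fun i => B i x))
    (sA : ∀ i, Has l ε (fun x => (pt (d x) P.a P.b (w x)).2) (fun x => (A i x).2)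
      (fun x => (A i x).1) (X i))
    (sB : ∀ i, Has l ε (fun x => (pt (d x) P.a P.b (w x)).2) (fun x => (B i x).2)
      (fun x => (B i x).1) (Y i))
    (gA : ∀ i, Good K (X i)) (gB : ∀ i, Good K (Y i)) (hc : ∀ i j, Compat (X i) (Y j)) :
    Lead l ε (∑ i, ∑ j, ord (X i) (Y j)) (fun x => N P (d x)) := by
  have h1 : Lead l ε (∑ i, ∑ j, ord (X i) (Y j))
      (fun x => ∏ i, ∏ j, Ph P.g P.h P.k (A i x) (B j x)) := by
    refine Lead.prod _ _ _ hε0 (fun i _ => Lead.prod _ _ _ hε0 (fun j _ => ?_))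
    have := lead_state H hS hS0 hε hε0 hp _ _ _ _ (sA i) (sB j) (gA i) (gB j) (hc i j)
    exact this.congr (Eventually.of_forall (fun x => (Phi_refl _ _ _ _ _ _ _).symm))
  refine h1.congr ?_
  filter_upwards [hd0, hw, hA, hB] with x x1 x2 x3 x4
  exact (N_prod P x1 x2 x3 x4).symm

end Pool.Agent.TH532
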