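import Mathlib
import Pool.Agent.TH532.Pt

set_option autoImplicit false

namespace Pool.Agent.TH532

open Filter Topology

variable {α : Type} {l : Filter α} {d w : α → ℂ} {a b a3 b3 e f : ℂ}

/-- states of the four positions at infinity -/
noncomputable def XI (a b a3 b3 e f : ℂ) : Fin 4 → St :=
  ![.F (1 + (e - f) / (a3 - a)) (a + e / ((e - f) / (a3 - a))),
    .T ((e - f) / (b - b3)) (e / ((e - f) / (b - b3))),
    .Z (a3 - f) (a - e), .U e (f - b3)]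

theorem arms_inf (hd : Tendsto (fun x => (d x)⁻¹) l (𝓝 0)) (hd0 : ∀ᶠ x in l, d x ≠ 0)
    (hw : ∀ᶠ x in l, w x ^ 2 = Dl (d x) a b) (hw1 : Tendsto (fun x => w x / d x) l (𝓝 1))
    (ha : a3 - a ≠ 0) (hb : b - b3 ≠ 0) (hef : e - f ≠ 0) :
    ∃ A : Fin 4 → α → ℂ × ℂ,
      (∀ᶠ x in l, IsEnum (d x) (pt (d x) a b (w x)) a3 b3 e f (fun i => A i x)) ∧
      ∀ i, Has l (fun x => (d x)⁻¹) (fun x => (pt (d x) a b (w x)).1) (fun x => (A i x).1)
        (fun x => (A i x).2) (XI a b a3 b3 e f i) := by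
  have hε0 := inv_inv_fun hd0
  obtain ⟨v, hv, hv1⟩ := w_inf hd hd0 a3 b3
  obtain ⟨⟨p1, p2, p3⟩, -⟩ := pt_inf hd hd0 hw hw1
  obtain ⟨⟨q1, q2, q3⟩, m1, m2, m3⟩ := pt_inf hd hd0 hv hv1
  have hμ : Tendsto (fun x => ((pt (d x) a3 b3 (v x)).1 - (pt (d x) a b (w x)).1) / (d x)⁻¹) l
      (𝓝 (b - b3)) := by
    have := q3.sub p3
    have e1 : -b3 - -b = b - b3 := by ring
    rw [e1] at this
    refine this.congr (fun x => ?_)
    ring
  obtain ⟨r, hr, hF, hT⟩ := arm_FT (p := fun x => pt (d x) a b (w x))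
    (q := fun x => pt (d x) a3 b3 (v x)) (e := e) (f := f) hd hε0 p1 p2 hμ (q2.sub p2) hb ha hef
  obtain ⟨r', hr', hZ, hT', hU⟩ := arm_ZT (p := fun x => pt (d x) a b (w x))
    (q := fun x => pt (d x) a3 b3 (-v x)) (e := e) (f := f) hd hε0 p1 p2 m1 m2 one_ne_zero
    one_ne_zero
  refine ⟨![fun x => arm (pt (d x) a b (w x)) (pt (d x) a3 b3 (v x)) e f (r x),
    fun x => arm (pt (d x) a b (w x)) (pt (d x) a3 b3 (v x)) e f (-r x),
    fun x => arm (pt (d x) a b (w x)) (pt (d x) a3 b3 (-v x)) e f (r' x),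
    fun x => arm (pt (d x) a b (w x)) (pt (d x) a3 b3 (-v x)) e f (-r' x)], ?_, ?_⟩
  · filter_upwards [hv, hr'] with x x1 x2
    exact ⟨v x, r x, r' x, x1, hr x, x2, rfl, rfl, rfl, rfl⟩
  · intro i
    fin_cases i
    · exact hF
    · exact hT
    · have := hZ
      rw [div_one, div_one] at this
      exact this
    · refine ⟨?_, ?_⟩
      · have := hT'.1
        rw [div_one] at this
        exact this
      · have := hU.add m3
        have e1 : f / 1 + -b3 = f - b3 := by rw [div_one]; ring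
        rw [e1] at this
        refine this.congr (fun x => ?_)
        simp only [one_div, inv_inv]
        change _ = (arm (pt (d x) a b (w x)) (pt (d x) a3 b3 (-v x)) e f (-r' x)).2 - d x
        ring

/-- states of the four positions at zero -/
noncomputable def XO (a b a3 b3 e f R : ℂ) : Fin 4 → St :=
  ![.F (arm (a / (a - b), a - b) (a3 / (a3 - b3), a3 - b3) e f R).2
      (arm (a / (a - b), a - b) (a3 / (a3 - b3), a3 - b3) e f R).1,
    .F (arm (a / (a - b), a - b) (a3 / (a3 - b3), a3 - b3) e f (-R)).2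
      (arm (a / (a - b), a - b) (a3 / (a3 - b3), a3 - b3) e f (-R)).1,
    .T (a3 - b3) (e / (a3 - b3)),
    .Z (a3 / (a3 - b3) - f / (a3 - b3)) (a / (a - b) - e / (a - b))]

theorem arms_zero {R : ℂ} (hd : Tendsto d l (𝓝 0)) (hd0 : ∀ᶠ x in l, d x ≠ 0)
    (hw : ∀ᶠ x in l, w x ^ 2 = Dl (d x) a b) (hw1 : Tendsto w l (𝓝 (-(a - b))))
    (hκ : a - b ≠ 0) (hκ3 : a3 - b3 ≠ 0)
    (h1 : a3 / (a3 - b3) - a / (a - b) ≠ 0) (h2 : (a3 - b3) - (a - b) ≠ 0)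
    (hR : R ^ 2 = bt (a / (a - b), a - b) (a3 / (a3 - b3), a3 - b3) e f) :
    ∃ A : Fin 4 → α → ℂ × ℂ,
      (∀ᶠ x in l, IsEnum (d x) (pt (d x) a b (w x)) a3 b3 e f (fun i => A i x)) ∧
      ∀ i, Has l d (fun x => (pt (d x) a b (w x)).2) (fun x => (A i x).2)
        (fun x => (A i x).1) (XO a b a3 b3 e f R i) := by
  obtain ⟨v, hv, hv1⟩ := w_zero hd a3 b3
  obtain ⟨⟨p1, p2⟩, -⟩ := pt_zero hd hd0 hw hw1 hκ
  obtain ⟨⟨q1, q2⟩, m1, m2⟩ := pt_zero hd hd0 hv hv1 hκ3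
  have hp : Tendsto (fun x => pt (d x) a b (w x)) l (𝓝 (a / (a - b), a - b)) :=
    p1.prodMk_nhds p2
  have hq : Tendsto (fun x => pt (d x) a3 b3 (v x)) l (𝓝 (a3 / (a3 - b3), a3 - b3)) :=
    q1.prodMk_nhds q2
  obtain ⟨r, hr, f1, f2, f3, f4⟩ := arm_reg hp hq h1 h2 hR
  obtain ⟨r', hr', hZ, hT, -⟩ := arm_ZT (p := fun x => (pt (d x) a b (w x)).swap)
    (q := fun x => (pt (d x) a3 b3 (-v x)).swap) (e := e) (f := f) hd hd0 p2 p1 m2 m1 hκ hκ3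
  refine ⟨![fun x => arm (pt (d x) a b (w x)) (pt (d x) a3 b3 (v x)) e f (r x),
    fun x => arm (pt (d x) a b (w x)) (pt (d x) a3 b3 (v x)) e f (-r x),
    fun x => arm (pt (d x) a b (w x)) (pt (d x) a3 b3 (-v x)) e f (r' x),
    fun x => arm (pt (d x) a b (w x)) (pt (d x) a3 b3 (-v x)) e f (-r' x)], ?_, ?_⟩
  · filter_upwards [hv, hr'] with x x1 x2
    exact ⟨v x, r x, r' x, x1, hr x, by rw [x2, bt_swap], rfl, rfl, rfl, rfl⟩
  · have s1 : ∀ x, arm (pt (d x) a b (w x)).swap (pt (d x) a3 b3 (-v x)).swap e f (-r' x) =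
        (arm (pt (d x) a b (w x)) (pt (d x) a3 b3 (-v x)) e f (r' x)).swap := by
      intro x
      rw [arm_swap]
    have s2 : ∀ x, arm (pt (d x) a b (w x)).swap (pt (d x) a3 b3 (-v x)).swap e f (r' x) =
        (arm (pt (d x) a b (w x)) (pt (d x) a3 b3 (-v x)) e f (-r' x)).swap := by
      intro x
      rw [arm_swap, neg_neg]
    simp only [s1] at hT
    simp only [s2] at hZ
    intro i
    fin_cases i
    · exact ⟨f2, f1⟩
    · exact ⟨f4, f3⟩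
    · exact hT
    · exact hZ

/-- states of the four positions at a pole -/
noncomputable def XP (p q q' : ℂ × ℂ) (e f μ R : ℂ) : Fin 4 → St :=
  ![.F (p.1 + (e - f) / (q.2 - p.2)) (p.2 + e / ((e - f) / (q.2 - p.2))),
    .T ((e - f) / μ) (e / ((e - f) / μ)),
    .F (arm p q' e f R).1 (arm p q' e f R).2,
    .F (arm p q' e f (-R)).1 (arm p q' e f (-R)).2]

theorem arms_pole {D W W3 μ R : ℂ} (hd : Tendsto d l (𝓝 D)) (hD : D ≠ 0)
    (hd0 : ∀ᶠ x in l, d x - D ≠ 0)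
    (hw1 : Tendsto w l (𝓝 W)) (hW3 : W3 ^ 2 = Dl D a3 b3)
    (hμ : ∀ v : α → ℂ, (∀ x, v x ^ 2 = Dl (d x) a3 b3) → Tendsto v l (𝓝 W3) →
      Tendsto (fun x => ((pt (d x) a3 b3 (v x)).1 - (pt (d x) a b (w x)).1) / (d x - D)) l
      (𝓝 μ)) (hμ0 : μ ≠ 0)
    (h2 : (pt D a3 b3 W3).2 - (pt D a b W).2 ≠ 0)
    (h1' : (pt D a3 b3 (-W3)).1 - (pt D a b W).1 ≠ 0)
    (h2' : (pt D a3 b3 (-W3)).2 - (pt D a b W).2 ≠ 0) (hef : e - f ≠ 0)
    (hR : R ^ 2 = bt (pt D a b W) (pt D a3 b3 (-W3)) e f) :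
    ∃ A : Fin 4 → α → ℂ × ℂ,
      (∀ᶠ x in l, IsEnum (d x) (pt (d x) a b (w x)) a3 b3 e f (fun i => A i x)) ∧
      ∀ i, Has l (fun x => d x - D) (fun x => (pt (d x) a b (w x)).1) (fun x => (A i x).1)
        (fun x => (A i x).2) (XP (pt D a b W) (pt D a3 b3 W3) (pt D a3 b3 (-W3)) e f μ R i) := by
  obtain ⟨v, hv, hv1⟩ := w_reg hd hW3
  have hp : Tendsto (fun x => pt (d x) a b (w x)) l (𝓝 (pt D a b W)) := pt_reg hd hD hw1
  have hq : Tendsto (fun x => pt (d x) a3 b3 (v x)) l (𝓝 (pt D a3 b3 W3)) := pt_reg hd hD hv1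
  have hq' : Tendsto (fun x => pt (d x) a3 b3 (-v x)) l (𝓝 (pt D a3 b3 (-W3))) :=
    pt_reg hd hD hv1.neg
  have p1 : Tendsto (fun x => (pt (d x) a b (w x)).1) l (𝓝 (pt D a b W).1) :=
    (continuous_fst.tendsto _).comp hp
  have p2 : Tendsto (fun x => (pt (d x) a b (w x)).2) l (𝓝 (pt D a b W).2) :=
    (continuous_snd.tendsto _).comp hp
  have q2 : Tendsto (fun x => (pt (d x) a3 b3 (v x)).2) l (𝓝 (pt D a3 b3 W3).2) :=
    (continuous_snd.tendsto _).comp hq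
  have hε : Tendsto (fun x => d x - D) l (𝓝 0) := by
    have := hd.sub_const D
    rw [sub_self] at this
    exact this
  obtain ⟨r, hr, hF, hT⟩ := arm_FT (p := fun x => pt (d x) a b (w x))
    (q := fun x => pt (d x) a3 b3 (v x)) (e := e) (f := f) hε hd0 p1 p2 (hμ v hv hv1)
    (q2.sub p2) hμ0 h2 hef
  obtain ⟨r', hr', f1, f2, f3, f4⟩ := arm_reg hp hq' h1' h2' hR
  refine ⟨![fun x => arm (pt (d x) a b (w x)) (pt (d x) a3 b3 (v x)) e f (r x),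
    fun x => arm (pt (d x) a b (w x)) (pt (d x) a3 b3 (v x)) e f (-r x),
    fun x => arm (pt (d x) a b (w x)) (pt (d x) a3 b3 (-v x)) e f (r' x),
    fun x => arm (pt (d x) a b (w x)) (pt (d x) a3 b3 (-v x)) e f (-r' x)], ?_, ?_⟩
  · exact Eventually.of_forall (fun x => ⟨v x, r x, r' x, hv x, hr x, hr' x, rfl, rfl, rfl, rfl⟩)
  · intro i
    fin_cases i
    · exact hF
    · exact hT
    · exact ⟨f1, f2⟩
    · exact ⟨f3, f4⟩

/-- states of the four positions at a regular point -/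
noncomputable def XR (p q q' : ℂ × ℂ) (e f R R' : ℂ) : Fin 4 → St :=
  ![.F (arm p q e f R).1 (arm p q e f R).2,
    .F (arm p q e f (-R)).1 (arm p q e f (-R)).2,
    .F (arm p q' e f R').1 (arm p q' e f R').2,
    .F (arm p q' e f (-R')).1 (arm p q' e f (-R')).2]

theorem arms_reg {D W W3 R R' : ℂ} {ε : α → ℂ} (hd : Tendsto d l (𝓝 D)) (hD : D ≠ 0)
    (hw1 : Tendsto w l (𝓝 W)) (hW3 : W3 ^ 2 = Dl D a3 b3)
    (h1 : (pt D a3 b3 W3).1 - (pt D a b W).1 ≠ 0)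
    (h2 : (pt D a3 b3 W3).2 - (pt D a b W).2 ≠ 0)
    (h1' : (pt D a3 b3 (-W3)).1 - (pt D a b W).1 ≠ 0)
    (h2' : (pt D a3 b3 (-W3)).2 - (pt D a b W).2 ≠ 0)
    (hR : R ^ 2 = bt (pt D a b W) (pt D a3 b3 W3) e f)
    (hR' : R' ^ 2 = bt (pt D a b W) (pt D a3 b3 (-W3)) e f) :
    ∃ A : Fin 4 → α → ℂ × ℂ,
      (∀ᶠ x in l, IsEnum (d x) (pt (d x) a b (w x)) a3 b3 e f (fun i => A i x)) ∧
      ∀ i, Has l ε (fun x => (pt (d x) a b (w x)).1) (fun x => (A i x).1)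
        (fun x => (A i x).2) (XR (pt D a b W) (pt D a3 b3 W3) (pt D a3 b3 (-W3)) e f R R' i) := by
  obtain ⟨v, hv, hv1⟩ := w_reg hd hW3
  have hp : Tendsto (fun x => pt (d x) a b (w x)) l (𝓝 (pt D a b W)) := pt_reg hd hD hw1
  have hq : Tendsto (fun x => pt (d x) a3 b3 (v x)) l (𝓝 (pt D a3 b3 W3)) := pt_reg hd hD hv1
  have hq' : Tendsto (fun x => pt (d x) a3 b3 (-v x)) l (𝓝 (pt D a3 b3 (-W3))) :=
    pt_reg hd hD hv1.neg
  obtain ⟨r, hr, f1, f2, f3, f4⟩ := arm_reg hp hq h1 h2 hR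
  obtain ⟨r', hr', f5, f6, f7, f8⟩ := arm_reg hp hq' h1' h2' hR'
  refine ⟨![fun x => arm (pt (d x) a b (w x)) (pt (d x) a3 b3 (v x)) e f (r x),
    fun x => arm (pt (d x) a b (w x)) (pt (d x) a3 b3 (v x)) e f (-r x),
    fun x => arm (pt (d x) a b (w x)) (pt (d x) a3 b3 (-v x)) e f (r' x),
    fun x => arm (pt (d x) a b (w x)) (pt (d x) a3 b3 (-v x)) e f (-r' x)], ?_, ?_⟩
  · exact Eventually.of_forall (fun x => ⟨v x, r x, r' x, hv x, hr x, hr' x, rfl, rfl, rfl, rfl⟩)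
  · intro i
    fin_cases i
    · exact ⟨f1, f2⟩
    · exact ⟨f3, f4⟩
    · exact ⟨f5, f6⟩
    · exact ⟨f7, f8⟩

end Pool.Agent.TH532
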