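import Mathlib
import Pool.Agent.TH532.Local

set_option autoImplicit false

namespace Pool.Agent.TH532

/-- each member of the family is outside a square-root-closed field containing the others -/
def GenV {ι : Type} (v : ι → ℂ) : Prop :=
  ∀ j, ∃ F : Subfield ℂ, (∀ i, i ≠ j → v i ∈ F) ∧ v j ∉ F ∧ ∀ z : ℂ, z ^ 2 ∈ F → z ∈ F

theorem GenV.comp {ι κ : Type} {v : ι → ℂ} (h : GenV v) (f : κ → ι)
    (hf : Function.Injective f) : GenV (fun i => v (f i)) := by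
  intro j
  obtain ⟨F, h1, h2, h3⟩ := h (f j)
  exact ⟨F, fun i hi => h1 (f i) (fun h => hi (hf h)), h2, h3⟩

/-- data of one arm: a base field and genericity -/
structure AG (K : Subfield ℂ) (a b a3 b3 e f : ℂ) : Prop where
  ka : a ∈ K
  kb : b ∈ K
  ka3 : a3 ∈ K
  kb3 : b3 ∈ K
  ke : e ∈ K
  kf : f ∈ K
  sq : ∀ z : ℂ, z ^ 2 ∈ K → z ∈ K
  gen : GenV ![a, b, a3, b3, e, f]

variable {K : Subfield ℂ} {a b a3 b3 e f : ℂ}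

theorem gen_a (h : GenV ![a, b, a3, b3, e, f]) : ∃ F : Subfield ℂ, b ∈ F ∧ a3 ∈ F ∧ b3 ∈ F ∧
    e ∈ F ∧ f ∈ F ∧ a ∉ F ∧ ∀ z : ℂ, z ^ 2 ∈ F → z ∈ F := by
  obtain ⟨F, h1, h2, h3⟩ := h 0
  exact ⟨F, h1 1 (by decide), h1 2 (by decide), h1 3 (by decide), h1 4 (by decide),
    h1 5 (by decide), h2, h3⟩

theorem gen_b (h : GenV ![a, b, a3, b3, e, f]) : ∃ F : Subfield ℂ, a ∈ F ∧ a3 ∈ F ∧ b3 ∈ F ∧
    e ∈ F ∧ f ∈ F ∧ b ∉ F ∧ ∀ z : ℂ, z ^ 2 ∈ F → z ∈ F := by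
  obtain ⟨F, h1, h2, h3⟩ := h 1
  exact ⟨F, h1 0 (by decide), h1 2 (by decide), h1 3 (by decide), h1 4 (by decide),
    h1 5 (by decide), h2, h3⟩

theorem gen_a3 (h : GenV ![a, b, a3, b3, e, f]) : ∃ F : Subfield ℂ, a ∈ F ∧ b ∈ F ∧ b3 ∈ F ∧
    e ∈ F ∧ f ∈ F ∧ a3 ∉ F ∧ ∀ z : ℂ, z ^ 2 ∈ F → z ∈ F := by
  obtain ⟨F, h1, h2, h3⟩ := h 2
  exact ⟨F, h1 0 (by decide), h1 1 (by decide), h1 3 (by decide), h1 4 (by decide),
    h1 5 (by decide), h2, h3⟩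

theorem gen_b3 (h : GenV ![a, b, a3, b3, e, f]) : ∃ F : Subfield ℂ, a ∈ F ∧ b ∈ F ∧ a3 ∈ F ∧
    e ∈ F ∧ f ∈ F ∧ b3 ∉ F ∧ ∀ z : ℂ, z ^ 2 ∈ F → z ∈ F := by
  obtain ⟨F, h1, h2, h3⟩ := h 3
  exact ⟨F, h1 0 (by decide), h1 1 (by decide), h1 2 (by decide), h1 4 (by decide),
    h1 5 (by decide), h2, h3⟩

theorem gen_e (h : GenV ![a, b, a3, b3, e, f]) : ∃ F : Subfield ℂ, a ∈ F ∧ b ∈ F ∧ a3 ∈ F ∧
    b3 ∈ F ∧ f ∈ F ∧ e ∉ F ∧ ∀ z : ℂ, z ^ 2 ∈ F → z ∈ F := by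
  obtain ⟨F, h1, h2, h3⟩ := h 4
  exact ⟨F, h1 0 (by decide), h1 1 (by decide), h1 2 (by decide), h1 3 (by decide),
    h1 5 (by decide), h2, h3⟩

theorem gen_f (h : GenV ![a, b, a3, b3, e, f]) : ∃ F : Subfield ℂ, a ∈ F ∧ b ∈ F ∧ a3 ∈ F ∧
    b3 ∈ F ∧ e ∈ F ∧ f ∉ F ∧ ∀ z : ℂ, z ^ 2 ∈ F → z ∈ F := by
  obtain ⟨F, h1, h2, h3⟩ := h 5
  exact ⟨F, h1 0 (by decide), h1 1 (by decide), h1 2 (by decide), h1 3 (by decide),
    h1 4 (by decide), h2, h3⟩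

section
variable (h : GenV ![a, b, a3, b3, e, f])
include h

theorem g_a0 : a ≠ 0 := by
  obtain ⟨F, h1, h2, h3, h4, h5, h6, h7⟩ := gen_a h
  rintro rfl
  exact h6 (zero_mem F)

theorem g_b0 : b ≠ 0 := by
  obtain ⟨F, h1, h2, h3, h4, h5, h6, h7⟩ := gen_b h
  rintro rfl
  exact h6 (zero_mem F)

theorem g_a30 : a3 ≠ 0 := by
  obtain ⟨F, h1, h2, h3, h4, h5, h6, h7⟩ := gen_a3 h
  rintro rfl
  exact h6 (zero_mem F)

theorem g_b30 : b3 ≠ 0 := by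
  obtain ⟨F, h1, h2, h3, h4, h5, h6, h7⟩ := gen_b3 h
  rintro rfl
  exact h6 (zero_mem F)

theorem g_e0 : e ≠ 0 := by
  obtain ⟨F, h1, h2, h3, h4, h5, h6, h7⟩ := gen_e h
  rintro rfl
  exact h6 (zero_mem F)

theorem g_n1 : a3 - a ≠ 0 := by
  obtain ⟨F, h1, h2, h3, h4, h5, h6, h7⟩ := gen_a h
  intro h
  rw [sub_eq_zero] at h
  rw [h] at h2
  exact h6 h2

theorem g_n2 : b - b3 ≠ 0 := by
  obtain ⟨F, h1, h2, h3, h4, h5, h6, h7⟩ := gen_b h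
  intro h
  rw [sub_eq_zero] at h
  rw [← h] at h3
  exact h6 h3

theorem g_n3 : e - f ≠ 0 := by
  obtain ⟨F, h1, h2, h3, h4, h5, h6, h7⟩ := gen_e h
  intro h
  rw [sub_eq_zero] at h
  rw [← h] at h5
  exact h6 h5

theorem g_n4 : 1 + (e - f) / (a3 - a) ≠ 0 := by
  have h0 := g_n1 h
  obtain ⟨F, h1, h2, h3, h4, h5, h6, h7⟩ := gen_f h
  intro h
  field_simp at h
  have : f = a3 - a + e := by linear_combination -h
  rw [this] at h6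
  exact h6 (add_mem (sub_mem h3 h1) h5)

theorem g_n5 : a + e / ((e - f) / (a3 - a)) ≠ 0 := by
  have h0 := g_n1 h
  have h0' := g_n3 h
  have h0'' := g_a0 h
  obtain ⟨F, h1, h2, h3, h4, h5, h6, h7⟩ := gen_f h
  intro h
  field_simp at h
  have : f = e * a3 / a := by
    rw [eq_div_iff h0'']
    linear_combination -h
  rw [this] at h6
  exact h6 (div_mem (mul_mem h5 h3) h1)

theorem g_n6 : a3 - f ≠ 0 := by
  obtain ⟨F, h1, h2, h3, h4, h5, h6, h7⟩ := gen_f h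
  intro h
  rw [sub_eq_zero] at h
  rw [h] at h3
  exact h6 h3

theorem g_n7 : a - e ≠ 0 := by
  obtain ⟨F, h1, h2, h3, h4, h5, h6, h7⟩ := gen_e h
  intro h
  rw [sub_eq_zero] at h
  rw [h] at h1
  exact h6 h1

theorem g_n8 : (e - f) / (b - b3) ≠ 1 := by
  have h0 := g_n2 h
  obtain ⟨F, h1, h2, h3, h4, h5, h6, h7⟩ := gen_f h
  intro h
  rw [div_eq_iff h0] at h
  have : f = e - (b - b3) := by linear_combination -h
  rw [this] at h6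
  exact h6 (sub_mem h5 (sub_mem h2 h4))

theorem g_n9 : a - b ≠ 0 := by
  obtain ⟨F, h1, h2, h3, h4, h5, h6, h7⟩ := gen_a h
  intro h
  rw [sub_eq_zero] at h
  rw [← h] at h1
  exact h6 h1

theorem g_n10 : a3 - b3 ≠ 0 := by
  obtain ⟨F, h1, h2, h3, h4, h5, h6, h7⟩ := gen_a3 h
  intro h
  rw [sub_eq_zero] at h
  rw [← h] at h3
  exact h6 h3

theorem g_n12 : (a3 - b3) - (a - b) ≠ 0 := by
  obtain ⟨F, h1, h2, h3, h4, h5, h6, h7⟩ := gen_b3 h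
  intro h
  have : b3 = a3 - (a - b) := by linear_combination -h
  rw [this] at h6
  exact h6 (sub_mem h3 (sub_mem h1 h2))

theorem g_n11 : a3 / (a3 - b3) - a / (a - b) ≠ 0 := by
  have h0 := g_n9 h
  have h0' := g_n10 h
  have h0'' := g_a0 h
  obtain ⟨F, h1, h2, h3, h4, h5, h6, h7⟩ := gen_b3 h
  intro h
  field_simp at h
  have : b3 = a3 - a3 * (a - b) / a := by
    field_simp
    linear_combination h
  rw [this] at h6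
  exact h6 (sub_mem h3 (div_mem (mul_mem h3 (sub_mem h1 h2)) h1))

end

/-- nonvanishing of a coordinate -/
theorem nz_aux {F : Subfield ℂ} {s0 t0 s3 t3 s t : ℂ} (h1 : s0 ∈ F) (h2 : t0 ∈ F) (h3 : s3 ∈ F)
    (h4 : t3 ∈ F) (he : e ∈ F) (hf : f ∉ F) (he0 : e ≠ 0) (r1 : (s - s0) * (t - t0) = e)
    (r2 : (s - s3) * (t - t3) = f) : s ≠ 0 := by
  rintro rfl
  have hs0 : s0 ≠ 0 := by
    rintro rfl
    apply he0
    rw [← r1]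
    ring
  apply hf
  have h5 : t = t0 - e / s0 := by
    field_simp
    linear_combination -r1
  rw [← r2, h5]
  exact mul_mem (sub_mem (zero_mem F) h3) (sub_mem (sub_mem h2 (div_mem he h1)) h4)

theorem nz {F : Subfield ℂ} {s0 t0 s3 t3 s t : ℂ} (h1 : s0 ∈ F) (h2 : t0 ∈ F) (h3 : s3 ∈ F)
    (h4 : t3 ∈ F) (he : e ∈ F) (hf : f ∉ F) (he0 : e ≠ 0) (r1 : (s - s0) * (t - t0) = e)
    (r2 : (s - s3) * (t - t3) = f) : s ≠ 0 ∧ t ≠ 0 :=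
  ⟨nz_aux h1 h2 h3 h4 he hf he0 r1 r2,
    nz_aux h2 h1 h4 h3 he hf he0 (by rw [mul_comm]; exact r1) (by rw [mul_comm]; exact r2)⟩

theorem mem_arm {F : Subfield ℂ} {P Q : ℂ × ℂ} {R : ℂ} (h1 : P.1 ∈ F) (h2 : P.2 ∈ F)
    (h3 : Q.1 ∈ F) (h4 : Q.2 ∈ F) (he : e ∈ F) (hf : f ∈ F) (hR : R ∈ F) :
    (arm P Q e f R).1 ∈ F ∧ (arm P Q e f R).2 ∈ F := by
  have h22 : (2 : ℂ) ∈ F := ofNat_mem F 2
  unfold arm
  constructor
  · exact add_mem h1 (div_mem (add_mem (add_mem (sub_mem he hf) (mul_mem (sub_mem h3 h1)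
      (sub_mem h4 h2))) hR) (mul_mem h22 (sub_mem h4 h2)))
  · exact add_mem h2 (div_mem (sub_mem (add_mem (sub_mem he hf) (mul_mem (sub_mem h3 h1)
      (sub_mem h4 h2))) hR) (mul_mem h22 (sub_mem h3 h1)))

theorem mem_bt {F : Subfield ℂ} {P Q : ℂ × ℂ} (h1 : P.1 ∈ F) (h2 : P.2 ∈ F)
    (h3 : Q.1 ∈ F) (h4 : Q.2 ∈ F) (he : e ∈ F) (hf : f ∈ F) : bt P Q e f ∈ F := by
  have h44 : (4 : ℂ) ∈ F := ofNat_mem F 4
  unfold bt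
  exact sub_mem (pow_mem (add_mem (sub_mem he hf) (mul_mem (sub_mem h3 h1)
      (sub_mem h4 h2))) 2) (mul_mem (mul_mem h44 (mul_mem (sub_mem h3 h1)
      (sub_mem h4 h2))) he)

theorem mem_pt {F : Subfield ℂ} {d w : ℂ} (hd : d ∈ F) (ha : a ∈ F) (hb : b ∈ F) (hw : w ∈ F) :
    (pt d a b w).1 ∈ F ∧ (pt d a b w).2 ∈ F := by
  have h22 : (2 : ℂ) ∈ F := ofNat_mem F 2
  unfold pt
  constructor
  · exact div_mem (add_mem (sub_mem (add_mem hd ha) hb) hw) (mul_mem h22 hd)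
  · exact div_mem (sub_mem (sub_mem (add_mem hd ha) hb) hw) h22

theorem mem_Dl {F : Subfield ℂ} {d : ℂ} (hd : d ∈ F) (ha : a ∈ F) (hb : b ∈ F) :
    Dl d a b ∈ F := by
  have h44 : (4 : ℂ) ∈ F := ofNat_mem F 4
  unfold Dl
  exact sub_mem (pow_mem (sub_mem (sub_mem hd ha) hb) 2) (mul_mem (mul_mem h44 ha) hb)

/-- a finite position is a good state -/
theorem good_fin (h : AG K a b a3 b3 e f) {P Q : ℂ × ℂ} {R : ℂ}
    (h1 : Q.1 - P.1 ≠ 0) (h2 : Q.2 - P.2 ≠ 0) (hR : R ^ 2 = bt P Q e f)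
    (hmem : ∀ F : Subfield ℂ, a ∈ F → b ∈ F → a3 ∈ F → b3 ∈ F →
      (∀ z : ℂ, z ^ 2 ∈ F → z ∈ F) → P.1 ∈ F ∧ P.2 ∈ F ∧ Q.1 ∈ F ∧ Q.2 ∈ F) :
    ((arm P Q e f R).1 ∈ K ∧ (arm P Q e f R).2 ∈ K) ∧
    ((arm P Q e f R).1 ≠ 0 ∧ (arm P Q e f R).2 ≠ 0) := by
  constructor
  · obtain ⟨m1, m2, m3, m4⟩ := hmem K h.ka h.kb h.ka3 h.kb3 h.sq
    refine mem_arm m1 m2 m3 m4 h.ke h.kf (h.sq _ ?_)
    rw [hR]
    exact mem_bt m1 m2 m3 m4 h.ke h.kf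
  · obtain ⟨F, f1, f2, f3, f4, f5, f6, f7⟩ := gen_f h.gen
    obtain ⟨m1, m2, m3, m4⟩ := hmem F f1 f2 f3 f4 f7
    obtain ⟨r1, r2⟩ := arm_rel h1 h2 hR
    exact nz m1 m2 m3 m4 f5 f6 (g_e0 h.gen) r1 r2

theorem good_inf (h : AG K a b a3 b3 e f) (i : Fin 4) : Good K (XI a b a3 b3 e f i) := by
  have n1 := g_n1 h.gen
  have n2 := g_n2 h.gen
  have n3 := g_n3 h.gen
  have n4 := g_n4 h.gen
  have n5 := g_n5 h.gen
  have n6 := g_n6 h.gen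
  have n7 := g_n7 h.gen
  have k1 : (e - f) / (a3 - a) ∈ K := div_mem (sub_mem h.ke h.kf) (sub_mem h.ka3 h.ka)
  have k2 : (e - f) / (b - b3) ∈ K := div_mem (sub_mem h.ke h.kf) (sub_mem h.kb h.kb3)
  fin_cases i
  · exact ⟨add_mem (one_mem K) k1, add_mem h.ka (div_mem h.ke k1), n4, n5⟩
  · exact ⟨k2, div_mem h.ke k2, div_ne_zero n3 n2⟩
  · exact ⟨sub_mem h.ka3 h.kf, sub_mem h.ka h.ke, n6, n7⟩
  · exact ⟨h.ke, sub_mem h.kf h.kb3⟩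

theorem good_zero (h : AG K a b a3 b3 e f) {R : ℂ}
    (hR : R ^ 2 = bt (a / (a - b), a - b) (a3 / (a3 - b3), a3 - b3) e f) (i : Fin 4) :
    Good K (XO a b a3 b3 e f R i) := by
  have n6 := g_n6 h.gen
  have n7 := g_n7 h.gen
  have n9 := g_n9 h.gen
  have n10 := g_n10 h.gen
  have n11 := g_n11 h.gen
  have n12 := g_n12 h.gen
  have hmem : ∀ F : Subfield ℂ, a ∈ F → b ∈ F → a3 ∈ F → b3 ∈ F →
      (∀ z : ℂ, z ^ 2 ∈ F → z ∈ F) → a / (a - b) ∈ F ∧ a - b ∈ F ∧ a3 / (a3 - b3) ∈ F ∧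
      a3 - b3 ∈ F := fun F ha hb ha3 hb3 _ =>
    ⟨div_mem ha (sub_mem ha hb), sub_mem ha hb, div_mem ha3 (sub_mem ha3 hb3), sub_mem ha3 hb3⟩
  have g1 := good_fin h (P := (a / (a - b), a - b)) (Q := (a3 / (a3 - b3), a3 - b3)) n11 n12 hR
    hmem
  have g2 := good_fin h (P := (a / (a - b), a - b)) (Q := (a3 / (a3 - b3), a3 - b3)) n11 n12
    (R := -R) (by rw [neg_sq]; exact hR) hmem
  obtain ⟨m1, m2, m3, m4⟩ := hmem K h.ka h.kb h.ka3 h.kb3 h.sq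
  fin_cases i
  · exact ⟨g1.1.2, g1.1.1, g1.2.2, g1.2.1⟩
  · exact ⟨g2.1.2, g2.1.1, g2.2.2, g2.2.1⟩
  · exact ⟨m4, div_mem h.ke m4, n10⟩
  · refine ⟨sub_mem m3 (div_mem h.kf m4), sub_mem m1 (div_mem h.ke m2), ?_, ?_⟩
    · rw [← sub_div]
      exact div_ne_zero n6 n10
    · rw [← sub_div]
      exact div_ne_zero n7 n9

end Pool.Agent.TH532
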