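import Mathlib
import Pool.Agent.TH532.Gen

set_option autoImplicit false

namespace Pool.Agent.TH532

open Filter Topology

/-- names of the thirteen edges -/
inductive Ix
  | a | b | a3 | b3 | a4 | b4 | e | f | c | f7 | g | h | k
  deriving DecidableEq

def Par.vec (P : Par) : Ix → ℂ
  | .a => P.a
  | .b => P.b
  | .a3 => P.a3
  | .b3 => P.b3
  | .a4 => P.a4
  | .b4 => P.b4
  | .e => P.e
  | .f => P.f
  | .c => P.c
  | .f7 => P.f7
  | .g => P.g
  | .h => P.h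
  | .k => P.k

/-- exchange of the two arms -/
def Par.sw (P : Par) : Par :=
  ⟨P.a, P.b, P.a4, P.b4, P.a3, P.b3, P.c, P.f7, P.e, P.f, P.g, P.k, P.h⟩

def Ix.sw : Ix → Ix
  | .a => .a
  | .b => .b
  | .a3 => .a4
  | .b3 => .b4
  | .a4 => .a3
  | .b4 => .b3
  | .e => .c
  | .f => .f7
  | .c => .e
  | .f7 => .f
  | .g => .g
  | .h => .k
  | .k => .h

theorem sw_inj : Function.Injective Ix.sw := by
  apply Function.LeftInverse.injective (g := Ix.sw)
  intro i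
  cases i <;> rfl

theorem gen_sw {P : Par} (h : GenV P.vec) : GenV P.sw.vec := by
  have h1 := h.comp _ sw_inj
  have e1 : P.sw.vec = fun i => P.vec (Ix.sw i) := by
    funext i
    cases i <;> rfl
  rw [e1]
  exact h1

theorem inj6 : Function.Injective (![.a, .b, .a3, .b3, .e, .f] : Fin 6 → Ix) := by
  decide

theorem genA {P : Par} (h : GenV P.vec) : GenV ![P.a, P.b, P.a3, P.b3, P.e, P.f] := by
  have h1 := h.comp _ inj6
  have e1 : ![P.a, P.b, P.a3, P.b3, P.e, P.f] =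
      fun i => P.vec ((![.a, .b, .a3, .b3, .e, .f] : Fin 6 → Ix) i) := by
    funext i
    fin_cases i <;> rfl
  rw [e1]
  exact h1

theorem genB {P : Par} (h : GenV P.vec) : GenV ![P.a, P.b, P.a4, P.b4, P.c, P.f7] :=
  genA (gen_sw h)

/-- the base field -/
structure Base (K : Subfield ℂ) (P : Par) : Prop where
  ghk : GHK K P.g P.h P.k
  A : AG K P.a P.b P.a3 P.b3 P.e P.f
  B : AG K P.a P.b P.a4 P.b4 P.c P.f7

theorem exists_base {P : Par} (h : GenV P.vec) : ∃ K : Subfield ℂ, Base K P := by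
  obtain ⟨G, g1, g2, g3⟩ := h .g
  obtain ⟨H, h1, h2, h3⟩ := h .h
  obtain ⟨L, l1, l2, l3⟩ := h .k
  have hm : ∀ i, i ≠ .g → i ≠ .h → i ≠ .k → P.vec i ∈ G ⊓ H ⊓ L := fun i hi hj hk =>
    ⟨⟨g1 i hi, h1 i hj⟩, l1 i hk⟩
  have hs : ∀ z : ℂ, z ^ 2 ∈ G ⊓ H ⊓ L → z ∈ G ⊓ H ⊓ L := fun z hz =>
    ⟨⟨g3 z hz.1.1, h3 z hz.1.2⟩, l3 z hz.2⟩
  refine ⟨G ⊓ H ⊓ L, ⟨⟨?_, ?_, ?_⟩, ?_, ?_⟩⟩
  · exact ⟨G, fun x hx => hx.1.1, g1 .h (by decide), g1 .k (by decide), g2, g3⟩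
  · exact ⟨H, fun x hx => hx.1.2, h1 .g (by decide), h1 .k (by decide), h2, h3⟩
  · exact ⟨L, fun x hx => hx.2, l1 .g (by decide), l1 .h (by decide), l2, l3⟩
  · exact ⟨hm .a (by decide) (by decide) (by decide), hm .b (by decide) (by decide) (by decide),
      hm .a3 (by decide) (by decide) (by decide), hm .b3 (by decide) (by decide) (by decide),
      hm .e (by decide) (by decide) (by decide), hm .f (by decide) (by decide) (by decide),
      hs, genA h⟩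
  · exact ⟨hm .a (by decide) (by decide) (by decide), hm .b (by decide) (by decide) (by decide),
      hm .a4 (by decide) (by decide) (by decide), hm .b4 (by decide) (by decide) (by decide),
      hm .c (by decide) (by decide) (by decide), hm .f7 (by decide) (by decide) (by decide),
      hs, genB h⟩

theorem Base.sw {K : Subfield ℂ} {P : Par} (h : Base K P) : Base K P.sw :=
  ⟨h.ghk.swap, h.B, h.A⟩

theorem kAB {P : Par} (h : GenV P.vec) :
    (P.e - P.f) / (P.b - P.b3) ≠ (P.c - P.f7) / (P.b - P.b4) := by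
  have n2 := g_n2 (genA h)
  obtain ⟨F, h1, h2, h3⟩ := h .f
  have hb : P.b ∈ F := h1 .b (by decide)
  have hb3 : P.b3 ∈ F := h1 .b3 (by decide)
  have hb4 : P.b4 ∈ F := h1 .b4 (by decide)
  have he : P.e ∈ F := h1 .e (by decide)
  have hc : P.c ∈ F := h1 .c (by decide)
  have hf7 : P.f7 ∈ F := h1 .f7 (by decide)
  intro h
  rw [div_eq_iff n2] at h
  apply h2
  have : P.f = P.e - (P.c - P.f7) / (P.b - P.b4) * (P.b - P.b3) := by
    linear_combination -h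
  change P.f ∈ F
  rw [this]
  exact sub_mem he (mul_mem (div_mem (sub_mem hc hf7) (sub_mem hb hb4)) (sub_mem hb hb3))

theorem k34 {P : Par} (h : GenV P.vec) : P.a3 - P.b3 ≠ P.a4 - P.b4 := by
  obtain ⟨F, h1, h2, h3⟩ := h .a3
  have hb3 : P.b3 ∈ F := h1 .b3 (by decide)
  have ha4 : P.a4 ∈ F := h1 .a4 (by decide)
  have hb4 : P.b4 ∈ F := h1 .b4 (by decide)
  intro h
  apply h2
  have : P.a3 = P.a4 - P.b4 + P.b3 := by linear_combination h
  change P.a3 ∈ F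
  rw [this]
  exact add_mem (sub_mem ha4 hb4) hb3

variable {α : Type} {l : Filter α} {d : α → ℂ}

theorem lead_inf {P : Par} (h : GenV P.vec) (hd : Tendsto (fun x => (d x)⁻¹) l (𝓝 0))
    (hd0 : ∀ᶠ x in l, d x ≠ 0) : Lead l (fun x => (d x)⁻¹) 18 (fun x => N P (d x)) := by
  obtain ⟨K, hK⟩ := exists_base h
  obtain ⟨w, hw, hw1⟩ := w_inf hd hd0 P.a P.b
  obtain ⟨⟨p1, p2, p3⟩, -⟩ := pt_inf hd hd0 hw hw1
  obtain ⟨A, hA, sA⟩ := arms_inf (e := P.e) (f := P.f) hd hd0 hw hw1 (g_n1 hK.A.gen)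
    (g_n2 hK.A.gen) (g_n3 hK.A.gen)
  obtain ⟨B, hB, sB⟩ := arms_inf (e := P.c) (f := P.f7) hd hd0 hw hw1 (g_n1 hK.B.gen)
    (g_n2 hK.B.gen) (g_n3 hK.B.gen)
  have c1 := kAB h
  have c2 := g_n8 hK.A.gen
  have c3 := g_n8 hK.B.gen
  have := N_lead P hK.ghk (one_mem K) one_ne_zero hd (inv_inv_fun hd0) hd0 hw p1 hA hB sA sB
    (good_inf hK.A) (good_inf hK.B) (by
      intro i j
      fin_cases i <;> fin_cases j <;> first | exact trivial | exact c1 | exact c2 | exact c3)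
  exact this

theorem lead_zero {P : Par} (h : GenV P.vec) (hd : Tendsto d l (𝓝 0))
    (hd0 : ∀ᶠ x in l, d x ≠ 0) : Lead l d 11 (fun x => N P (d x)) := by
  obtain ⟨K, hK⟩ := exists_base h
  obtain ⟨w, hw, hw1⟩ := w_zero hd P.a P.b
  obtain ⟨⟨p1, p2⟩, -⟩ := pt_zero hd hd0 hw hw1 (g_n9 hK.A.gen)
  obtain ⟨R, hR⟩ := IsAlgClosed.exists_pow_nat_eq (bt (P.a / (P.a - P.b), P.a - P.b)
    (P.a3 / (P.a3 - P.b3), P.a3 - P.b3) P.e P.f) (n := 2) (by norm_num)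
  obtain ⟨R', hR'⟩ := IsAlgClosed.exists_pow_nat_eq (bt (P.a / (P.a - P.b), P.a - P.b)
    (P.a4 / (P.a4 - P.b4), P.a4 - P.b4) P.c P.f7) (n := 2) (by norm_num)
  obtain ⟨A, hA, sA⟩ := arms_zero hd hd0 hw hw1 (g_n9 hK.A.gen) (g_n10 hK.A.gen)
    (g_n11 hK.A.gen) (g_n12 hK.A.gen) hR
  obtain ⟨B, hB, sB⟩ := arms_zero hd hd0 hw hw1 (g_n9 hK.B.gen) (g_n10 hK.B.gen)
    (g_n11 hK.B.gen) (g_n12 hK.B.gen) hR'
  have c1 := k34 h
  have := N_lead' P hK.ghk (sub_mem hK.A.ka hK.A.kb) (g_n9 hK.A.gen) hd hd0 hd0 hw p2 hA hB sA sB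
    (good_zero hK.A hR) (good_zero hK.B hR') (by
      intro i j
      fin_cases i <;> fin_cases j <;> first | exact trivial | exact c1)
  exact this

end Pool.Agent.TH532
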