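import Mathlib
import Pool.Agent.TH532.Lead

set_option autoImplicit false

namespace Pool.Agent.TH532

open Filter Topology

/-- linear form in `d` whose zero is the pole -/
def HH (a b a3 b3 d : ℂ) : ℂ :=
  d * (a - a3) * (b - b3) + ((a3 - b3) - (a - b)) * (a3 * b - a * b3)

theorem prod_D {d a b a3 b3 w v : ℂ} (hd : d ≠ 0) (hw : w ^ 2 = Dl d a b)
    (hv : v ^ 2 = Dl d a3 b3) :
    (((pt d a3 b3 v).1 - (pt d a b w).1) * ((pt d a3 b3 v).2 - (pt d a b w).2)) *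
    (((pt d a3 b3 (-v)).1 - (pt d a b w).1) * ((pt d a3 b3 (-v)).2 - (pt d a b w).2)) =
    HH a b a3 b3 d / d := by
  unfold Dl at hw hv
  unfold HH pt
  simp only
  field_simp
  linear_combination (-2 * ((a3 - b3) - (a - b)) ^ 2 - (v ^ 2 - w ^ 2 +
    ((d - a3 - b3) ^ 2 - 4 * a3 * b3) - ((d - a - b) ^ 2 - 4 * a * b))) * hw +
    (-2 * ((a3 - b3) - (a - b)) ^ 2 + (v ^ 2 - w ^ 2 +
    ((d - a3 - b3) ^ 2 - 4 * a3 * b3) - ((d - a - b) ^ 2 - 4 * a * b))) * hv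

theorem HH_ne_b3 {F : Subfield ℂ} {a b a3 b3 d : ℂ} (hs : ∀ z : ℂ, z ^ 2 ∈ F → z ∈ F)
    (ha : a ∈ F) (hb : b ∈ F) (ha3 : a3 ∈ F) (hd : d ∈ F) (hb3 : b3 ∉ F) (ha0 : a ≠ 0) :
    HH a b a3 b3 d ≠ 0 := by
  have e : HH a b a3 b3 d = a * b3 ^ 2 + (-d * (a - a3) - a3 * b - a * (a3 - a + b)) * b3 +
      (d * (a - a3) * b + (a3 - a + b) * (a3 * b)) := by
    unfold HH; ring
  rw [e]
  refine quad_ne hs hb3 ha ?_ ?_ ha0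
  · exact sub_mem (sub_mem (mul_mem (neg_mem hd) (sub_mem ha ha3)) (mul_mem ha3 hb))
      (mul_mem ha (add_mem (sub_mem ha3 ha) hb))
  · exact add_mem (mul_mem (mul_mem hd (sub_mem ha ha3)) hb)
      (mul_mem (add_mem (sub_mem ha3 ha) hb) (mul_mem ha3 hb))

theorem HH_symm (a b a3 b3 d : ℂ) : HH a3 b3 a b d = HH a b a3 b3 d := by
  unfold HH; ring

theorem HH_ne_b {F : Subfield ℂ} {a b a3 b3 d : ℂ} (hs : ∀ z : ℂ, z ^ 2 ∈ F → z ∈ F)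
    (ha : a ∈ F) (hb3 : b3 ∈ F) (ha3 : a3 ∈ F) (hd : d ∈ F) (hb : b ∉ F) (ha30 : a3 ≠ 0) :
    HH a b a3 b3 d ≠ 0 := by
  rw [← HH_symm]
  exact HH_ne_b3 hs ha3 hb3 ha hd hb ha30

/-- zeros of the discriminant are algebraic -/
theorem D_mem {F : Subfield ℂ} {a b d : ℂ} (hs : ∀ z : ℂ, z ^ 2 ∈ F → z ∈ F)
    (ha : a ∈ F) (hb : b ∈ F) (h : Dl d a b = 0) : d ∈ F := by
  have h22 : (2 : ℂ) ∈ F := ofNat_mem F 2
  have h44 : (4 : ℂ) ∈ F := ofNat_mem F 4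
  refine root_mem (A := 1) (B := -(2 * (a + b))) (C := (a + b) ^ 2 - 4 * a * b) hs (one_mem F)
    (neg_mem (mul_mem h22 (add_mem ha hb)))
    (sub_mem (pow_mem (add_mem ha hb) 2) (mul_mem (mul_mem h44 ha) hb)) one_ne_zero ?_
  unfold Dl at h
  linear_combination h

theorem D_mem' {F : Subfield ℂ} {a b a3 b3 d : ℂ} (ha : a ∈ F) (hb : b ∈ F) (ha3 : a3 ∈ F)
    (hb3 : b3 ∈ F) (h1 : a - a3 ≠ 0) (h2 : b - b3 ≠ 0) (h : HH a b a3 b3 d = 0) : d ∈ F := by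
  have : d = -(((a3 - b3) - (a - b)) * (a3 * b - a * b3)) / ((a - a3) * (b - b3)) := by
    rw [eq_div_iff (mul_ne_zero h1 h2)]
    unfold HH at h
    linear_combination h
  rw [this]
  exact div_mem (neg_mem (mul_mem (sub_mem (sub_mem ha3 hb3) (sub_mem ha hb))
    (sub_mem (mul_mem ha3 hb) (mul_mem ha hb3)))) (mul_mem (sub_mem ha ha3) (sub_mem hb hb3))

/-- four differences do not vanish -/
theorem four_ne {d a b a3 b3 w v : ℂ} (hd : d ≠ 0) (hw : w ^ 2 = Dl d a b)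
    (hv : v ^ 2 = Dl d a3 b3) (h : HH a b a3 b3 d ≠ 0) :
    ((pt d a3 b3 v).1 - (pt d a b w).1 ≠ 0 ∧ (pt d a3 b3 v).2 - (pt d a b w).2 ≠ 0) ∧
    ((pt d a3 b3 (-v)).1 - (pt d a b w).1 ≠ 0 ∧ (pt d a3 b3 (-v)).2 - (pt d a b w).2 ≠ 0) := by
  have h1 := prod_D hd hw hv
  have h2 : HH a b a3 b3 d / d ≠ 0 := div_ne_zero h hd
  rw [← h1] at h2
  exact ⟨⟨left_ne_zero_of_mul (left_ne_zero_of_mul h2),
    right_ne_zero_of_mul (left_ne_zero_of_mul h2)⟩,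
    left_ne_zero_of_mul (right_ne_zero_of_mul h2),
    right_ne_zero_of_mul (right_ne_zero_of_mul h2)⟩

/-- a vanishing closing condition -/
def Sol (P : Par) (D : ℂ) : Prop := ∃ w v u r s : ℂ, w ^ 2 = Dl D P.a P.b ∧
  v ^ 2 = Dl D P.a3 P.b3 ∧ u ^ 2 = Dl D P.a4 P.b4 ∧
  r ^ 2 = bt (pt D P.a P.b w) (pt D P.a3 P.b3 v) P.e P.f ∧
  s ^ 2 = bt (pt D P.a P.b w) (pt D P.a4 P.b4 u) P.c P.f7 ∧
  Ph P.g P.h P.k (arm (pt D P.a P.b w) (pt D P.a3 P.b3 v) P.e P.f r)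
    (arm (pt D P.a P.b w) (pt D P.a4 P.b4 u) P.c P.f7 s) = 0

theorem enum_cases {d : ℂ} {p : ℂ × ℂ} {a b e f : ℂ} {A : Fin 4 → ℂ × ℂ}
    (h : IsEnum d p a b e f A) (i : Fin 4) : ∃ w r : ℂ, w ^ 2 = Dl d a b ∧
      r ^ 2 = bt p (pt d a b w) e f ∧ A i = arm p (pt d a b w) e f r := by
  obtain ⟨w, r, r', h1, h2, h3, a0, a1, a2, a3⟩ := h
  fin_cases i
  · exact ⟨w, r, h1, h2, a0⟩
  · exact ⟨w, -r, h1, by rw [neg_sq]; exact h2, a1⟩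
  · exact ⟨-w, r', by rw [neg_sq]; exact h1, h3, a2⟩
  · exact ⟨-w, -r', by rw [neg_sq]; exact h1, by rw [neg_sq]; exact h3, a3⟩

theorem exists_enum (d : ℂ) (p : ℂ × ℂ) (a b e f : ℂ) :
    ∃ A : Fin 4 → ℂ × ℂ, IsEnum d p a b e f A := by
  refine ⟨![arm p (pt d a b (cs (Dl d a b))) e f (cs (bt p (pt d a b (cs (Dl d a b))) e f)),
    arm p (pt d a b (cs (Dl d a b))) e f (-cs (bt p (pt d a b (cs (Dl d a b))) e f)),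
    arm p (pt d a b (-cs (Dl d a b))) e f (cs (bt p (pt d a b (-cs (Dl d a b))) e f)),
    arm p (pt d a b (-cs (Dl d a b))) e f (-cs (bt p (pt d a b (-cs (Dl d a b))) e f))],
    _, _, _, cs_sq _, cs_sq _, cs_sq _, rfl, rfl, rfl, rfl⟩

theorem sol_of_zero {P : Par} {D : ℂ} (hD : D ≠ 0) (h : N P D = 0) : Sol P D := by
  obtain ⟨A, hA⟩ := exists_enum D (pt D P.a P.b (cs (Dl D P.a P.b))) P.a3 P.b3 P.e P.f
  obtain ⟨B, hB⟩ := exists_enum D (pt D P.a P.b (cs (Dl D P.a P.b))) P.a4 P.b4 P.c P.f7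
  rw [N_prod P hD (cs_sq _) hA hB] at h
  obtain ⟨i, -, hi⟩ := Finset.prod_eq_zero_iff.1 h
  obtain ⟨j, -, hj⟩ := Finset.prod_eq_zero_iff.1 hi
  obtain ⟨v, r, v1, r1, e1⟩ := enum_cases hA i
  obtain ⟨u, s, u1, s1, e2⟩ := enum_cases hB j
  refine ⟨_, v, u, r, s, cs_sq _, v1, u1, r1, s1, ?_⟩
  rw [← e1, ← e2]
  exact hj

variable {α : Type} {l : Filter α} {d : α → ℂ}

/-- continuity at regular points -/
theorem N_tendsto {P : Par} {D : ℂ} (hd : Tendsto d l (𝓝 D)) (hD : D ≠ 0)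
    (h3 : HH P.a P.b P.a3 P.b3 D ≠ 0) (h4 : HH P.a P.b P.a4 P.b4 D ≠ 0) :
    Tendsto (fun x => N P (d x)) l (𝓝 (N P D)) := by
  obtain ⟨W, hW⟩ := IsAlgClosed.exists_pow_nat_eq (Dl D P.a P.b) (n := 2) (by norm_num)
  obtain ⟨V, hV⟩ := IsAlgClosed.exists_pow_nat_eq (Dl D P.a3 P.b3) (n := 2) (by norm_num)
  obtain ⟨U, hU⟩ := IsAlgClosed.exists_pow_nat_eq (Dl D P.a4 P.b4) (n := 2) (by norm_num)
  obtain ⟨⟨n1, n2⟩, n3, n4⟩ := four_ne hD hW hV h3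
  obtain ⟨⟨m1, m2⟩, m3, m4⟩ := four_ne hD hW hU h4
  obtain ⟨w, hw, hw1⟩ := w_reg hd hW
  obtain ⟨A, hA, sA⟩ := arms_reg (ε := fun _ => 1) (e := P.e) (f := P.f) hd hD hw1 hV n1 n2 n3 n4
    (cs_sq _) (cs_sq _)
  obtain ⟨B, hB, sB⟩ := arms_reg (ε := fun _ => 1) (e := P.c) (f := P.f7) hd hD hw1 hU m1 m2 m3
    m4 (cs_sq _) (cs_sq _)
  let A' : Fin 4 → ℂ × ℂ :=
    ![arm (pt D P.a P.b W) (pt D P.a3 P.b3 V) P.e P.f (cs (bt (pt D P.a P.b W)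
        (pt D P.a3 P.b3 V) P.e P.f)),
      arm (pt D P.a P.b W) (pt D P.a3 P.b3 V) P.e P.f (-cs (bt (pt D P.a P.b W)
        (pt D P.a3 P.b3 V) P.e P.f)),
      arm (pt D P.a P.b W) (pt D P.a3 P.b3 (-V)) P.e P.f (cs (bt (pt D P.a P.b W)
        (pt D P.a3 P.b3 (-V)) P.e P.f)),
      arm (pt D P.a P.b W) (pt D P.a3 P.b3 (-V)) P.e P.f (-cs (bt (pt D P.a P.b W)
        (pt D P.a3 P.b3 (-V)) P.e P.f))]
  let B' : Fin 4 → ℂ × ℂ :=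
    ![arm (pt D P.a P.b W) (pt D P.a4 P.b4 U) P.c P.f7 (cs (bt (pt D P.a P.b W)
        (pt D P.a4 P.b4 U) P.c P.f7)),
      arm (pt D P.a P.b W) (pt D P.a4 P.b4 U) P.c P.f7 (-cs (bt (pt D P.a P.b W)
        (pt D P.a4 P.b4 U) P.c P.f7)),
      arm (pt D P.a P.b W) (pt D P.a4 P.b4 (-U)) P.c P.f7 (cs (bt (pt D P.a P.b W)
        (pt D P.a4 P.b4 (-U)) P.c P.f7)),
      arm (pt D P.a P.b W) (pt D P.a4 P.b4 (-U)) P.c P.f7 (-cs (bt (pt D P.a P.b W)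
        (pt D P.a4 P.b4 (-U)) P.c P.f7))]
  have eA : IsEnum D (pt D P.a P.b W) P.a3 P.b3 P.e P.f A' :=
    ⟨V, _, _, hV, cs_sq _, cs_sq _, rfl, rfl, rfl, rfl⟩
  have eB : IsEnum D (pt D P.a P.b W) P.a4 P.b4 P.c P.f7 B' :=
    ⟨U, _, _, hU, cs_sq _, cs_sq _, rfl, rfl, rfl, rfl⟩
  have lA : ∀ i, Tendsto (fun x => (A i x).1) l (𝓝 (A' i).1) ∧
      Tendsto (fun x => (A i x).2) l (𝓝 (A' i).2) := by
    intro i
    have := sA i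
    fin_cases i <;> exact this
  have lB : ∀ i, Tendsto (fun x => (B i x).1) l (𝓝 (B' i).1) ∧
      Tendsto (fun x => (B i x).2) l (𝓝 (B' i).2) := by
    intro i
    have := sB i
    fin_cases i <;> exact this
  rw [N_prod P hD hW eA eB]
  have h1 : Tendsto (fun x => ∏ i, ∏ j, Ph P.g P.h P.k (A i x) (B j x)) l
      (𝓝 (∏ i, ∏ j, Ph P.g P.h P.k (A' i) (B' j))) := by
    refine tendsto_finsetProd _ (fun i _ => tendsto_finsetProd _ (fun j _ => ?_))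
    exact lim_FF (lA i).1 (lA i).2 (lB j).1 (lB j).2
  refine h1.congr' ?_
  filter_upwards [hd.eventually_ne hD, hA, hB] with x x1 x2 x3
  exact (N_prod P x1 (hw x) x2 x3).symm

/-- nonvanishing at points algebraic over the first two lengths -/
theorem N_ne_alg {P : Par} (h : GenV P.vec) {D : ℂ} (hD0 : D ≠ 0)
    (hD : ∀ F : Subfield ℂ, (∀ z : ℂ, z ^ 2 ∈ F → z ∈ F) → P.a ∈ F → P.b ∈ F → D ∈ F) :
    HH P.a P.b P.a3 P.b3 D ≠ 0 ∧ HH P.a P.b P.a4 P.b4 D ≠ 0 ∧ N P D ≠ 0 := by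
  have g1 := genA h
  have g2 := genB h
  have n3 : HH P.a P.b P.a3 P.b3 D ≠ 0 := by
    obtain ⟨F, f1, f2, f3, f4, f5, f6, f7⟩ := gen_b3 g1
    exact HH_ne_b3 f7 f1 f2 f3 (hD F f7 f1 f2) f6 (g_a0 g1)
  have n4 : HH P.a P.b P.a4 P.b4 D ≠ 0 := by
    obtain ⟨F, f1, f2, f3, f4, f5, f6, f7⟩ := gen_b3 g2
    exact HH_ne_b3 f7 f1 f2 f3 (hD F f7 f1 f2) f6 (g_a0 g2)
  refine ⟨n3, n4, fun hN => ?_⟩
  obtain ⟨w, v, u, r, s, hw, hv, hu, hr, hs, hP⟩ := sol_of_zero hD0 hN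
  obtain ⟨K, hK⟩ := exists_base h
  obtain ⟨⟨q1, q2⟩, -⟩ := four_ne hD0 hw hv n3
  obtain ⟨⟨q3, q4⟩, -⟩ := four_ne hD0 hw hu n4
  have mem1 : ∀ F : Subfield ℂ, P.a ∈ F → P.b ∈ F → P.a3 ∈ F → P.b3 ∈ F →
      (∀ z : ℂ, z ^ 2 ∈ F → z ∈ F) → (pt D P.a P.b w).1 ∈ F ∧ (pt D P.a P.b w).2 ∈ F ∧
      (pt D P.a3 P.b3 v).1 ∈ F ∧ (pt D P.a3 P.b3 v).2 ∈ F := by
    intro F f1 f2 f3 f4 f5
    have hDF := hD F f5 f1 f2
    have hwF : w ∈ F := f5 _ (by rw [hw]; exact mem_Dl hDF f1 f2)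
    have hvF : v ∈ F := f5 _ (by rw [hv]; exact mem_Dl hDF f3 f4)
    exact ⟨(mem_pt hDF f1 f2 hwF).1, (mem_pt hDF f1 f2 hwF).2, (mem_pt hDF f3 f4 hvF).1,
      (mem_pt hDF f3 f4 hvF).2⟩
  have mem2 : ∀ F : Subfield ℂ, P.a ∈ F → P.b ∈ F → P.a4 ∈ F → P.b4 ∈ F →
      (∀ z : ℂ, z ^ 2 ∈ F → z ∈ F) → (pt D P.a P.b w).1 ∈ F ∧ (pt D P.a P.b w).2 ∈ F ∧
      (pt D P.a4 P.b4 u).1 ∈ F ∧ (pt D P.a4 P.b4 u).2 ∈ F := by
    intro F f1 f2 f3 f4 f5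
    have hDF := hD F f5 f1 f2
    have hwF : w ∈ F := f5 _ (by rw [hw]; exact mem_Dl hDF f1 f2)
    have huF : u ∈ F := f5 _ (by rw [hu]; exact mem_Dl hDF f3 f4)
    exact ⟨(mem_pt hDF f1 f2 hwF).1, (mem_pt hDF f1 f2 hwF).2, (mem_pt hDF f3 f4 huF).1,
      (mem_pt hDF f3 f4 huF).2⟩
  obtain ⟨⟨k1, k2⟩, -⟩ := good_fin hK.A q1 q2 hr mem1
  obtain ⟨⟨k3, k4⟩, k5, k6⟩ := good_fin hK.B q3 q4 hs mem2
  exact nv_FF hK.ghk k1 k2 k3 k4 k5 k6 hP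

end Pool.Agent.TH532
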