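import Mathlib
import Pool.Agent.TH532.Pole

set_option autoImplicit false

namespace Pool.Agent.TH532

open Filter Topology

/-- a finite position is a good state, version with two fields -/
theorem good_fin2 {K F : Subfield ℂ} {P Q : ℂ × ℂ} {R e f : ℂ}
    (hs : ∀ z : ℂ, z ^ 2 ∈ K → z ∈ K) (k1 : P.1 ∈ K) (k2 : P.2 ∈ K) (k3 : Q.1 ∈ K)
    (k4 : Q.2 ∈ K) (ke : e ∈ K) (kf : f ∈ K) (m1 : P.1 ∈ F) (m2 : P.2 ∈ F) (m3 : Q.1 ∈ F)
    (m4 : Q.2 ∈ F) (me : e ∈ F) (mf : f ∉ F) (he : e ≠ 0)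
    (h1 : Q.1 - P.1 ≠ 0) (h2 : Q.2 - P.2 ≠ 0) (hR : R ^ 2 = bt P Q e f) :
    Good K (.F (arm P Q e f R).1 (arm P Q e f R).2) := by
  have h3 : R ∈ K := hs _ (by rw [hR]; exact mem_bt k1 k2 k3 k4 ke kf)
  obtain ⟨h4, h5⟩ := mem_arm k1 k2 k3 k4 ke kf h3
  obtain ⟨r1, r2⟩ := arm_rel h1 h2 hR
  obtain ⟨h6, h7⟩ := nz m1 m2 m3 m4 me mf he r1 r2
  exact ⟨h4, h5, h6, h7⟩

theorem mem_pt2 {F : Subfield ℂ} {D a b w : ℂ} (hs : ∀ z : ℂ, z ^ 2 ∈ F → z ∈ F) (hD : D ∈ F)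
    (ha : a ∈ F) (hb : b ∈ F) (hw : w ^ 2 = Dl D a b) :
    (pt D a b w).1 ∈ F ∧ (pt D a b w).2 ∈ F :=
  mem_pt hD ha hb (hs _ (by rw [hw]; exact mem_Dl hD ha hb))

theorem pole_choice {D a b a3 b3 : ℂ} (hD : D ≠ 0) (h : HH a b a3 b3 D = 0) :
    ∃ W V : ℂ, W ^ 2 = Dl D a b ∧ V ^ 2 = Dl D a3 b3 ∧
      (pt D a3 b3 V).1 - (pt D a b W).1 = 0 := by
  have h1 := prod_D hD (cs_sq (Dl D a b)) (cs_sq (Dl D a3 b3))
  rw [h, zero_div, mul_eq_zero, mul_eq_zero, mul_eq_zero] at h1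
  rcases h1 with (h1 | h1) | (h1 | h1)
  · exact ⟨_, _, cs_sq _, cs_sq _, h1⟩
  · refine ⟨-cs (Dl D a b), -cs (Dl D a3 b3), by rw [neg_sq, cs_sq], by rw [neg_sq, cs_sq], ?_⟩
    rw [← pt_rf _ _ _ _ hD, ← pt_rf _ _ _ _ hD]
    simp only [rf]
    rw [← sub_div, h1, zero_div]
  · exact ⟨_, _, cs_sq _, by rw [neg_sq, cs_sq], h1⟩
  · refine ⟨-cs (Dl D a b), cs (Dl D a3 b3), by rw [neg_sq, cs_sq], by rw [cs_sq], ?_⟩
    have e1 : pt D a3 b3 (cs (Dl D a3 b3)) = rf D (pt D a3 b3 (-cs (Dl D a3 b3))) := by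
      rw [pt_rf _ _ _ _ hD, neg_neg]
    have e2 : pt D a b (-cs (Dl D a b)) = rf D (pt D a b (cs (Dl D a b))) :=
      (pt_rf _ _ _ _ hD).symm
    rw [e1, e2]
    simp only [rf]
    rw [← sub_div, h1, zero_div]

theorem pole_data {D a b a3 b3 W V : ℂ} (hD : D ≠ 0)
    (h0 : (pt D a3 b3 V).1 - (pt D a b W).1 = 0) (hW : W ≠ 0) (hV : V ≠ 0)
    (hκ : (a3 - b3) - (a - b) ≠ 0) :
    (pt D a3 b3 V).2 - (pt D a b W).2 ≠ 0 ∧ (pt D a3 b3 (-V)).1 - (pt D a b W).1 ≠ 0 ∧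
    (pt D a3 b3 (-V)).2 - (pt D a b W).2 ≠ 0 := by
  unfold pt at *
  simp only at *
  rw [← sub_div, div_eq_zero_iff] at h0
  have h1 : D + a3 - b3 + V - (D + a - b + W) = 0 := by
    rcases h0 with h0 | h0
    · exact h0
    · exact absurd h0 (mul_ne_zero two_ne_zero hD)
  refine ⟨?_, ?_, ?_⟩
  · intro h
    apply hκ
    linear_combination h + h1 / 2
  · intro h
    rw [← sub_div, div_eq_zero_iff] at h
    rcases h with h | h
    · apply hV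
      linear_combination (h1 - h) / 2
    · exact absurd h (mul_ne_zero two_ne_zero hD)
  · intro h
    apply hW
    linear_combination h - h1 / 2

variable {α : Type} {l : Filter α} {d : α → ℂ}

theorem lead_pole {P : Par} (h : GenV P.vec) {D : ℂ} (hD : D ≠ 0)
    (hH : HH P.a P.b P.a3 P.b3 D = 0) (hd : Tendsto d l (𝓝 D))
    (hd0 : ∀ᶠ x in l, d x - D ≠ 0) :
    Lead l (fun x => d x - D) 8 (fun x => N P (d x)) := by
  have gA := genA h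
  have gB := genB h
  obtain ⟨K, hK⟩ := exists_base h
  obtain ⟨W, V, hW, hV, h0⟩ := pole_choice hD hH
  have n1 : P.a - P.a3 ≠ 0 := by
    rw [← neg_ne_zero, neg_sub]
    exact g_n1 gA
  have n2 := g_n2 gA
  have n3 := g_n3 gA
  have Dm : ∀ F : Subfield ℂ, P.a ∈ F → P.b ∈ F → P.a3 ∈ F → P.b3 ∈ F → D ∈ F :=
    fun F f1 f2 f3 f4 => D_mem' f1 f2 f3 f4 n1 n2 hH
  have hW0 : W ≠ 0 := by
    rintro rfl
    obtain ⟨F, f1, f2, f3, f4, f5, f6, f7⟩ := gen_b3 gA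
    have h1 : D ∈ F := D_mem f7 f1 f2 (by rw [← hW]; norm_num)
    exact HH_ne_b3 f7 f1 f2 f3 h1 f6 (g_a0 gA) hH
  have hV0 : V ≠ 0 := by
    rintro rfl
    obtain ⟨F, f1, f2, f3, f4, f5, f6, f7⟩ := gen_b gA
    have h1 : D ∈ F := D_mem f7 f2 f3 (by rw [← hV]; norm_num)
    exact HH_ne_b f7 f1 f3 f2 h1 f6 (g_a30 gA) hH
  obtain ⟨v2, v1', v2'⟩ := pole_data hD h0 hW0 hV0 (g_n12 gA)
  -- the other arm is regular
  obtain ⟨F4, f41, f42, f43⟩ := h .b4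
  have H4 : HH P.a P.b P.a4 P.b4 D ≠ 0 :=
    HH_ne_b3 f43 (f41 .a (by decide)) (f41 .b (by decide)) (f41 .a4 (by decide))
      (Dm F4 (f41 .a (by decide)) (f41 .b (by decide)) (f41 .a3 (by decide))
        (f41 .b3 (by decide))) f42 (g_a0 gA)
  obtain ⟨U, hU⟩ := IsAlgClosed.exists_pow_nat_eq (Dl D P.a4 P.b4) (n := 2) (by norm_num)
  obtain ⟨⟨m1, m2⟩, m3, m4⟩ := four_ne hD hW hU H4
  obtain ⟨w, hw, hw1⟩ := w_reg hd hW
  -- the constant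
  let den : ℂ := D * (((pt D P.a3 P.b3 V).2 - (pt D P.a P.b W).2) *
    (((pt D P.a3 P.b3 (-V)).1 - (pt D P.a P.b W).1) *
      ((pt D P.a3 P.b3 (-V)).2 - (pt D P.a P.b W).2)))
  have hden : den ≠ 0 := mul_ne_zero hD (mul_ne_zero v2 (mul_ne_zero v1' v2'))
  let μ : ℂ := (P.a - P.a3) * (P.b - P.b3) / den
  have hμ0 : μ ≠ 0 := div_ne_zero (mul_ne_zero n1 n2) hden
  have hμ : ∀ v : α → ℂ, (∀ x, v x ^ 2 = Dl (d x) P.a3 P.b3) → Tendsto v l (𝓝 V) →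
      Tendsto (fun x => ((pt (d x) P.a3 P.b3 (v x)).1 - (pt (d x) P.a P.b (w x)).1) /
        (d x - D)) l (𝓝 μ) := by
    intro v hv hv1
    have hp : Tendsto (fun x => pt (d x) P.a P.b (w x)) l (𝓝 (pt D P.a P.b W)) :=
      pt_reg hd hD hw1
    have hq : Tendsto (fun x => pt (d x) P.a3 P.b3 (v x)) l (𝓝 (pt D P.a3 P.b3 V)) :=
      pt_reg hd hD hv1
    have hq' : Tendsto (fun x => pt (d x) P.a3 P.b3 (-v x)) l (𝓝 (pt D P.a3 P.b3 (-V))) :=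
      pt_reg hd hD hv1.neg
    have p1 := (continuous_fst.tendsto _).comp hp
    have p2 := (continuous_snd.tendsto _).comp hp
    have q2 := (continuous_snd.tendsto _).comp hq
    have q1' := (continuous_fst.tendsto _).comp hq'
    have q2' := (continuous_snd.tendsto _).comp hq'
    have hX := hd.mul ((q2.sub p2).mul ((q1'.sub p1).mul (q2'.sub p2)))
    refine lim_quot ?_ hX hden
    filter_upwards [hd.eventually_ne hD, hd0] with x x1 x2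
    have e1 := prod_D x1 (hw x) (hv x)
    have e2 : HH P.a P.b P.a3 P.b3 (d x) = (P.a - P.a3) * (P.b - P.b3) * (d x - D) := by
      unfold HH at hH ⊢
      linear_combination hH
    rw [e2] at e1
    simp only [Function.comp_apply]
    rw [eq_div_iff x1] at e1
    rw [mul_div_assoc', div_eq_iff x2]
    linear_combination e1
  obtain ⟨A, hA, sA⟩ := arms_pole (e := P.e) (f := P.f) hd hD hd0 hw1 hV hμ hμ0 v2 v1' v2' n3
    (cs_sq _)
  obtain ⟨B, hB, sB⟩ := arms_reg (ε := fun x => d x - D) (e := P.c) (f := P.f7) hd hD hw1 hU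
    m1 m2 m3 m4 (cs_sq _) (cs_sq _)
  have hε : Tendsto (fun x => d x - D) l (𝓝 0) := by
    have := hd.sub_const D
    rw [sub_self] at this
    exact this
  -- memberships
  have kD : D ∈ K := Dm K hK.A.ka hK.A.kb hK.A.ka3 hK.A.kb3
  have kP := mem_pt2 hK.A.sq kD hK.A.ka hK.A.kb hW
  have kQ := mem_pt2 hK.A.sq kD hK.A.ka3 hK.A.kb3 hV
  have kQ' := mem_pt2 (w := -V) hK.A.sq kD hK.A.ka3 hK.A.kb3 (by rw [neg_sq]; exact hV)
  have kR := mem_pt2 hK.A.sq kD hK.B.ka3 hK.B.kb3 hU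
  have kR' := mem_pt2 (w := -U) hK.A.sq kD hK.B.ka3 hK.B.kb3 (by rw [neg_sq]; exact hU)
  have hS : Tendsto (fun x => (pt (d x) P.a P.b (w x)).1) l (𝓝 (pt D P.a P.b W).1) :=
    (continuous_fst.tendsto _).comp (pt_reg hd hD hw1)
  have hS0 : (pt D P.a P.b W).1 ≠ 0 := by
    intro h1
    have := (pt_rel hD hW).1
    rw [h1, zero_mul] at this
    exact g_a0 gA this.symm
  obtain ⟨Ff, ff1, ff2, ff3⟩ := h .f
  obtain ⟨Fc, fc1, fc2, fc3⟩ := h .f7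
  have goodA : ∀ i, Good K (XP (pt D P.a P.b W) (pt D P.a3 P.b3 V) (pt D P.a3 P.b3 (-V))
      P.e P.f μ (cs (bt (pt D P.a P.b W) (pt D P.a3 P.b3 (-V)) P.e P.f)) i) := by
    have fD : D ∈ Ff := Dm Ff (ff1 .a (by decide)) (ff1 .b (by decide)) (ff1 .a3 (by decide))
      (ff1 .b3 (by decide))
    have fP := mem_pt2 ff3 fD (ff1 .a (by decide)) (ff1 .b (by decide)) hW
    have fQ := mem_pt2 ff3 fD (ff1 .a3 (by decide)) (ff1 .b3 (by decide)) hV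
    have fQ' := mem_pt2 (w := -V) ff3 fD (ff1 .a3 (by decide)) (ff1 .b3 (by decide))
      (by rw [neg_sq]; exact hV)
    have kμ : μ ∈ K := by
      exact div_mem (mul_mem (sub_mem hK.A.ka hK.A.ka3) (sub_mem hK.A.kb hK.A.kb3))
        (mul_mem kD (mul_mem (sub_mem kQ.2 kP.2) (mul_mem (sub_mem kQ'.1 kP.1)
          (sub_mem kQ'.2 kP.2))))
    intro i
    fin_cases i
    · have kx : (P.e - P.f) / ((pt D P.a3 P.b3 V).2 - (pt D P.a P.b W).2) ∈ K :=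
        div_mem (sub_mem hK.A.ke hK.A.kf) (sub_mem kQ.2 kP.2)
      have x0 : (P.e - P.f) / ((pt D P.a3 P.b3 V).2 - (pt D P.a P.b W).2) ≠ 0 :=
        div_ne_zero n3 v2
      have := nz (s := (pt D P.a P.b W).1 +
          (P.e - P.f) / ((pt D P.a3 P.b3 V).2 - (pt D P.a P.b W).2))
        (t := (pt D P.a P.b W).2 +
          P.e / ((P.e - P.f) / ((pt D P.a3 P.b3 V).2 - (pt D P.a P.b W).2)))
        fP.1 fP.2 fQ.1 fQ.2 (ff1 .e (by decide)) ff2 (g_e0 gA)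
        (by
          change ((pt D P.a P.b W).1 +
            (P.e - P.f) / ((pt D P.a3 P.b3 V).2 - (pt D P.a P.b W).2) - (pt D P.a P.b W).1) *
            ((pt D P.a P.b W).2 +
            P.e / ((P.e - P.f) / ((pt D P.a3 P.b3 V).2 - (pt D P.a P.b W).2)) -
            (pt D P.a P.b W).2) = P.e
          rw [add_sub_cancel_left, add_sub_cancel_left, mul_div_assoc', mul_comm,
            mul_div_assoc, div_self x0, mul_one])
        (by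
          have e1 : (pt D P.a3 P.b3 V).1 = (pt D P.a P.b W).1 := sub_eq_zero.1 h0
          change ((pt D P.a P.b W).1 +
            (P.e - P.f) / ((pt D P.a3 P.b3 V).2 - (pt D P.a P.b W).2) - (pt D P.a3 P.b3 V).1) *
            ((pt D P.a P.b W).2 +
            P.e / ((P.e - P.f) / ((pt D P.a3 P.b3 V).2 - (pt D P.a P.b W).2)) -
            (pt D P.a3 P.b3 V).2) = P.f
          rw [e1, add_sub_cancel_left]
          field_simp
          ring)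
      exact ⟨add_mem kP.1 kx, add_mem kP.2 (div_mem hK.A.ke kx), this.1, this.2⟩
    · exact ⟨div_mem (sub_mem hK.A.ke hK.A.kf) kμ, div_mem hK.A.ke
        (div_mem (sub_mem hK.A.ke hK.A.kf) kμ), div_ne_zero n3 hμ0⟩
    · exact good_fin2 hK.A.sq kP.1 kP.2 kQ'.1 kQ'.2 hK.A.ke hK.A.kf fP.1 fP.2 fQ'.1 fQ'.2
        (ff1 .e (by decide)) ff2 (g_e0 gA) v1' v2' (cs_sq _)
    · exact good_fin2 hK.A.sq kP.1 kP.2 kQ'.1 kQ'.2 hK.A.ke hK.A.kf fP.1 fP.2 fQ'.1 fQ'.2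
        (ff1 .e (by decide)) ff2 (g_e0 gA) v1' v2' (by rw [neg_sq]; exact cs_sq _)
  have goodB : ∀ i, Good K (XR (pt D P.a P.b W) (pt D P.a4 P.b4 U) (pt D P.a4 P.b4 (-U))
      P.c P.f7 (cs (bt (pt D P.a P.b W) (pt D P.a4 P.b4 U) P.c P.f7))
      (cs (bt (pt D P.a P.b W) (pt D P.a4 P.b4 (-U)) P.c P.f7)) i) := by
    have fD : D ∈ Fc := Dm Fc (fc1 .a (by decide)) (fc1 .b (by decide)) (fc1 .a3 (by decide))
      (fc1 .b3 (by decide))
    have fP := mem_pt2 fc3 fD (fc1 .a (by decide)) (fc1 .b (by decide)) hW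
    have fQ := mem_pt2 fc3 fD (fc1 .a4 (by decide)) (fc1 .b4 (by decide)) hU
    have fQ' := mem_pt2 (w := -U) fc3 fD (fc1 .a4 (by decide)) (fc1 .b4 (by decide))
      (by rw [neg_sq]; exact hU)
    intro i
    fin_cases i
    · exact good_fin2 hK.A.sq kP.1 kP.2 kR.1 kR.2 hK.B.ke hK.B.kf fP.1 fP.2 fQ.1 fQ.2
        (fc1 .c (by decide)) fc2 (g_e0 gB) m1 m2 (cs_sq _)
    · exact good_fin2 hK.A.sq kP.1 kP.2 kR.1 kR.2 hK.B.ke hK.B.kf fP.1 fP.2 fQ.1 fQ.2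
        (fc1 .c (by decide)) fc2 (g_e0 gB) m1 m2 (by rw [neg_sq]; exact cs_sq _)
    · exact good_fin2 hK.A.sq kP.1 kP.2 kR'.1 kR'.2 hK.B.ke hK.B.kf fP.1 fP.2 fQ'.1 fQ'.2
        (fc1 .c (by decide)) fc2 (g_e0 gB) m3 m4 (cs_sq _)
    · exact good_fin2 hK.A.sq kP.1 kP.2 kR'.1 kR'.2 hK.B.ke hK.B.kf fP.1 fP.2 fQ'.1 fQ'.2
        (fc1 .c (by decide)) fc2 (g_e0 gB) m3 m4 (by rw [neg_sq]; exact cs_sq _)
  have := N_lead P hK.ghk kP.1 hS0 hε hd0 (hd.eventually_ne hD) (Eventually.of_forall hw) hS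
    hA hB sA sB goodA goodB (by
      intro i j
      fin_cases i <;> fin_cases j <;> exact trivial)
  exact this

end Pool.Agent.TH532
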