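import Mathlib
import Pool.Agent.TH532.Pole2

set_option autoImplicit false

namespace Pool.Agent.TH532

open Filter Topology ComplexConjugate

theorem N4_sw (g h k e f c f7 : ℂ) (P Q R : ℂ × ℂ) :
    N4 g k h c f7 e f P R Q = N4 g h k e f c f7 P Q R := by
  have key : ∀ A B : ℂ × ℂ, Ph g k h A B = Ph g h k B A := fun A B => Phi_swap _ _ _ _ _ _ _
  unfold N4 Q4
  simp only [key]
  ring

theorem N_sw (P : Par) (d : ℂ) : N P.sw d = N P d := by
  have key : ∀ w0 w3 w4, N4' P.sw d w0 w4 w3 = N4' P d w0 w3 w4 := by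
    intro w0 w3 w4
    exact N4_sw _ _ _ _ _ _ _ _ _ _
  unfold N NN
  change N4' P.sw d (cs (Dl d P.a P.b)) (cs (Dl d P.a4 P.b4)) (cs (Dl d P.a3 P.b3)) *
    N4' P.sw d (cs (Dl d P.a P.b)) (-cs (Dl d P.a4 P.b4)) (cs (Dl d P.a3 P.b3)) *
    (N4' P.sw d (cs (Dl d P.a P.b)) (cs (Dl d P.a4 P.b4)) (-cs (Dl d P.a3 P.b3)) *
    N4' P.sw d (cs (Dl d P.a P.b)) (-cs (Dl d P.a4 P.b4)) (-cs (Dl d P.a3 P.b3))) = _
  rw [key, key, key, key]
  ring

theorem lead_real {l : Filter ℝ} [NeBot l] {er NR : ℝ → ℝ} {n : ℤ} {f : ℝ → ℂ}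
    (h : Lead l (fun x => (er x : ℂ)) n f) (hf : ∀ᶠ x in l, f x = (NR x : ℂ)) :
    ∃ c : ℝ, c ≠ 0 ∧ ∀ᶠ x in l, 0 < c * (er x ^ n * NR x) := by
  obtain ⟨c, hc, h1⟩ := h
  have h2 : Tendsto (fun x => ((er x ^ n * NR x : ℝ) : ℂ)) l (𝓝 c) := by
    refine h1.congr' ?_
    filter_upwards [hf] with x hx
    rw [hx]
    push_cast
    rfl
  have hre : Tendsto (fun x => er x ^ n * NR x) l (𝓝 c.re) := by
    have := (Complex.continuous_re.tendsto c).comp h2
    exact this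
  have him : Tendsto (fun _ : ℝ => (0 : ℝ)) l (𝓝 c.im) := by
    have := (Complex.continuous_im.tendsto c).comp h2
    refine this.congr (fun x => ?_)
    exact Complex.ofReal_im _
  have him0 : c.im = 0 := tendsto_nhds_unique him tendsto_const_nhds
  have hre0 : c.re ≠ 0 := by
    intro h
    exact hc (Complex.ext h him0)
  refine ⟨c.re, hre0, ?_⟩
  have h3 := hre.const_mul c.re
  exact h3.eventually_const_lt (mul_self_pos.2 hre0)

/-- eventual sign near a point -/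
def UP (f : ℝ → ℝ) : Set ℝ := {x | ∀ᶠ y in 𝓝[≠] x, 0 < f y}

theorem UP_open (f : ℝ → ℝ) : IsOpen (UP f) := by
  rw [isOpen_iff_eventually]
  intro x hx
  have h1 : ∀ᶠ y in 𝓝[≠] x, ∀ᶠ z in 𝓝[≠] x, True := Eventually.of_forall (fun _ =>
    Eventually.of_forall (fun _ => trivial))
  have h2 : ∀ᶠ y in 𝓝[{x}ᶜ] x, ∀ᶠ z in 𝓝[{x}ᶜ] y, 0 < f z :=
    eventually_eventually_nhdsWithin.2 hx
  rw [eventually_nhdsWithin_iff] at h2
  filter_upwards [h2] with y hy
  by_cases hyx : y = x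
  · rw [hyx]
    exact hx
  · have h3 := hy hyx
    have h4 : 𝓝[{x}ᶜ] y = 𝓝 y := by
      rw [nhdsWithin_eq_nhds]
      exact isOpen_compl_singleton.mem_nhds hyx
    rw [h4] at h3
    exact h3.filter_mono nhdsWithin_le_nhds

theorem UP_disj (f : ℝ → ℝ) : Disjoint (UP f) (UP (fun x => -f x)) := by
  rw [Set.disjoint_left]
  intro x (hx : ∀ᶠ y in 𝓝[≠] x, 0 < f y) (hx' : ∀ᶠ y in 𝓝[≠] x, 0 < -f y)
  obtain ⟨y, hy, hy'⟩ := (hx.and hx').exists
  linarith

theorem UP_conn {f : ℝ → ℝ} {s : Set ℝ} (hs : IsPreconnected s)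
    (h : s ⊆ UP f ∪ UP (fun x => -f x)) {x : ℝ} (hx : x ∈ s) (hxf : x ∈ UP f) : s ⊆ UP f := by
  rcases hs.subset_or_subset (UP_open f) (UP_open _) (UP_disj f) h with h1 | h1
  · exact h1
  · exact absurd hxf (fun h2 => Set.disjoint_left.1 (UP_disj f) h2 (h1 hx))

theorem UP_conn' {f : ℝ → ℝ} {s : Set ℝ} (hs : IsPreconnected s)
    (h : s ⊆ UP f ∪ UP (fun x => -f x)) {x : ℝ} (hx : x ∈ s) (hxf : x ∈ UP (fun x => -f x)) :
    s ⊆ UP (fun x => -f x) := by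
  rcases hs.subset_or_subset (UP_open f) (UP_open _) (UP_disj f) h with h1 | h1
  · exact absurd hxf (fun h2 => Set.disjoint_left.1 (UP_disj f) (h1 hx) h2)
  · exact h1

/-- abstract sign argument -/
theorem sign_arg {f : ℝ → ℝ} {p m : ℝ} (hm : 0 < m)
    (h1 : ∀ x, p ≤ x → x ∈ UP f ∪ UP (fun x => -f x))
    (h2 : ∀ x, x < 0 → x ∈ UP f ∪ UP (fun x => -f x))
    (h3 : ∀ x, 0 < x → x ≤ m → x ∈ UP f ∪ UP (fun x => -f x))
    (hp : p ∈ UP f) (hm' : m ∈ UP f)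
    (hinf : ∃ c : ℝ, c ≠ 0 ∧ ∀ᶠ x in (atBot ⊔ atTop : Filter ℝ), 0 < c * f x)
    (hzero : ∃ c : ℝ, c ≠ 0 ∧ ∀ᶠ x in 𝓝[≠] (0 : ℝ), 0 < c * (x * f x)) : False := by
  obtain ⟨c, hc, hcf⟩ := hinf
  rw [eventually_sup] at hcf
  obtain ⟨hbot, htop⟩ := hcf
  have I1 : Set.Ici p ⊆ UP f :=
    UP_conn isPreconnected_Ici (fun x hx => h1 x hx) (Set.self_mem_Ici) hp
  have hcpos : 0 < c := by
    obtain ⟨x0, hx0⟩ := eventually_atTop.1 htop
    have h4 : ∀ᶠ y in 𝓝[≠] (max p (x0 + 1)), 0 < f y :=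
      I1 (Set.mem_Ici.2 (le_max_left p (x0 + 1)))
    have h5 : ∀ᶠ y in 𝓝[≠] (max p (x0 + 1)), x0 ≤ y := by
      have : ∀ᶠ y in 𝓝 (max p (x0 + 1)), x0 ≤ y :=
        (eventually_gt_nhds (lt_of_lt_of_le (by linarith) (le_max_right p (x0 + 1)))).mono
          (fun y hy => hy.le)
      exact this.filter_mono nhdsWithin_le_nhds
    obtain ⟨y, hy1, hy2⟩ := (h4.and h5).exists
    have h6 := hx0 y hy2
    by_contra hneg
    rw [not_lt] at hneg
    have := mul_nonpos_of_nonpos_of_nonneg hneg hy1.le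
    linarith
  have I2 : Set.Iio (0 : ℝ) ⊆ UP f := by
    obtain ⟨x0, hx0⟩ := eventually_atBot.1 hbot
    have hmem : min (x0 - 1) (-1) ∈ UP f := by
      have : ∀ᶠ y in 𝓝 (min (x0 - 1) (-1)), y ≤ x0 :=
        (eventually_lt_nhds (lt_of_le_of_lt (min_le_left (x0 - 1) (-1)) (by linarith))).mono
          (fun y hy => hy.le)
      refine (this.filter_mono nhdsWithin_le_nhds).mono (fun y hy => ?_)
      have := hx0 y hy
      exact (mul_pos_iff_of_pos_left hcpos).1 this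
    refine UP_conn isPreconnected_Iio (fun x hx => h2 x hx) (x := min (x0 - 1) (-1)) ?_ hmem
    exact Set.mem_Iio.2 (lt_of_le_of_lt (min_le_right (x0 - 1) (-1)) (by norm_num))
  obtain ⟨c', hc', hcf'⟩ := hzero
  rw [eventually_nhdsWithin_iff, Metric.eventually_nhds_iff] at hcf'
  obtain ⟨r, hr, hcf'⟩ := hcf'
  have hcneg : c' < 0 := by
    have h4 : ∀ᶠ y in 𝓝[≠] (-(r / 2)), 0 < f y := I2 (Set.mem_Iio.2 (by linarith))
    have h5 : ∀ᶠ y in 𝓝[≠] (-(r / 2)), y < 0 ∧ -r < y :=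
      ((eventually_lt_nhds (by linarith)).and (eventually_gt_nhds (by linarith))).filter_mono
        nhdsWithin_le_nhds
    obtain ⟨y, hy1, hy2, hy3⟩ := (h4.and h5).exists
    have h6 := hcf' (y := y) (by rw [Real.dist_eq, sub_zero, abs_of_neg hy2]; linarith) (ne_of_lt hy2)
    by_contra hneg
    rw [not_lt] at hneg
    have h7 : y * f y < 0 := mul_neg_of_neg_of_pos hy2 hy1
    have := mul_nonpos_of_nonneg_of_nonpos hneg h7.le
    linarith
  have hmem : min (r / 2) m ∈ UP (fun x => -f x) := by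
    have hpos : 0 < min (r / 2) m := lt_min (by linarith) hm
    have h5 : ∀ᶠ y in 𝓝[≠] (min (r / 2) m), 0 < y ∧ y < r :=
      ((eventually_gt_nhds hpos).and (eventually_lt_nhds
        (lt_of_le_of_lt (min_le_left _ _) (by linarith)))).filter_mono nhdsWithin_le_nhds
    refine h5.mono (fun y hy => ?_)
    have h6 := hcf' (y := y) (by rw [Real.dist_eq, sub_zero, abs_of_pos hy.1]; exact hy.2)
      (ne_of_gt hy.1)
    have h7 : y * f y < 0 := by
      by_contra hneg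
      rw [not_lt] at hneg
      have := mul_nonpos_of_nonpos_of_nonneg hcneg.le hneg
      linarith
    have h8 : f y < 0 := by
      by_contra hneg
      rw [not_lt] at hneg
      have := mul_nonneg hy.1.le hneg
      linarith
    change 0 < -f y
    linarith
  have I3 : Set.Ioc 0 m ⊆ UP (fun x => -f x) :=
    UP_conn' isPreconnected_Ioc (fun x hx => h3 x hx.1 hx.2)
      (x := min (r / 2) m) ⟨lt_min (by linarith) hm, min_le_right _ _⟩ hmem
  exact Set.disjoint_left.1 (UP_disj f) hm' (I3 ⟨hm, le_refl m⟩)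

end Pool.Agent.TH532
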