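import Mathlib
import Pool.Agent.TH532.Sign

set_option autoImplicit false

namespace Pool.Agent.TH532

open Filter Topology ComplexConjugate

theorem re_sw {P : Par} (h : P.Re) : P.sw.Re :=
  ⟨h.a, h.b, h.a4, h.b4, h.a3, h.b3, h.c, h.f7, h.e, h.f, h.g, h.k, h.h⟩

theorem N_real {P : Par} (h : P.Re) {x : ℝ} (hx : x ≠ 0) :
    N P (x : ℂ) = ((N P (x : ℂ)).re : ℂ) := by
  have h1 := N_cj h (d := (x : ℂ)) (by exact_mod_cast hx) (Complex.conj_ofReal x)
  exact (Complex.conj_eq_iff_re.1 h1).symm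

theorem coe_tendsto (x : ℝ) : Tendsto (fun y : ℝ => (y : ℂ)) (𝓝 x) (𝓝 (x : ℂ)) :=
  Complex.continuous_ofReal.tendsto x

theorem sign_pole {P : Par} (hre : P.Re) (hG : GenV P.vec) {x : ℝ} (hx : x ≠ 0)
    (hH : HH P.a P.b P.a3 P.b3 (x : ℂ) = 0) :
    x ∈ UP (fun x : ℝ => (N P (x : ℂ)).re) ∪ UP (fun x : ℝ => -(N P (x : ℂ)).re) := by
  have h1 : Lead (𝓝[≠] x) (fun y : ℝ => (y : ℂ) - (x : ℂ)) 8 (fun y : ℝ => N P (y : ℂ)) := by
    refine lead_pole hG (by exact_mod_cast hx) hH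
      ((coe_tendsto x).mono_left nhdsWithin_le_nhds) ?_
    filter_upwards [self_mem_nhdsWithin] with y hy
    rw [sub_ne_zero]
    exact fun h => hy (by exact_mod_cast h)
  have h2 : Lead (𝓝[≠] x) (fun y : ℝ => ((y - x : ℝ) : ℂ)) 8 (fun y : ℝ => N P (y : ℂ)) := by
    have e1 : (fun y : ℝ => ((y - x : ℝ) : ℂ)) = fun y : ℝ => (y : ℂ) - (x : ℂ) := by
      funext y
      push_cast
      rfl
    rw [e1]
    exact h1
  have h3 : ∀ᶠ y in 𝓝[≠] x, N P ((y : ℝ) : ℂ) = ((N P ((y : ℝ) : ℂ)).re : ℂ) := by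
    have : ∀ᶠ y in 𝓝[≠] x, y ≠ 0 := (eventually_ne_nhds hx).filter_mono nhdsWithin_le_nhds
    exact this.mono (fun y hy => N_real hre hy)
  obtain ⟨c, hc, h4⟩ := lead_real (NR := fun y : ℝ => (N P (y : ℂ)).re) h2 h3
  have h5 : ∀ᶠ y in 𝓝[≠] x, 0 < c * (N P ((y : ℝ) : ℂ)).re := by
    filter_upwards [h4, self_mem_nhdsWithin] with y hy hy'
    have hne : y - x ≠ 0 := sub_ne_zero.2 hy'
    have hpos : 0 < (y - x) ^ (8 : ℤ) := by
      have : (y - x) ^ (8 : ℤ) = ((y - x) ^ 4) ^ 2 := by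
        have e : ((8 : ℤ)) = ((8 : ℕ) : ℤ) := rfl
        rw [e, zpow_natCast]
        ring
      rw [this]
      exact pow_pos (by positivity) 2
    have e2 : c * ((y - x) ^ (8 : ℤ) * (N P ((y : ℝ) : ℂ)).re) =
      (y - x) ^ (8 : ℤ) * (c * (N P ((y : ℝ) : ℂ)).re) := by ring
    rw [e2] at hy
    exact (mul_pos_iff_of_pos_left hpos).1 hy
  rcases lt_or_gt_of_ne hc with hc | hc
  · right
    refine h5.mono (fun y hy => ?_)
    change 0 < -_
    by_contra hneg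
    rw [not_lt, neg_nonpos] at hneg
    have := mul_nonpos_of_nonpos_of_nonneg hc.le hneg
    linarith
  · left
    exact h5.mono (fun y hy => (mul_pos_iff_of_pos_left hc).1 hy)

theorem sign_reg {P : Par} {x : ℝ} (hx : x ≠ 0)
    (h3 : HH P.a P.b P.a3 P.b3 (x : ℂ) ≠ 0) (h4 : HH P.a P.b P.a4 P.b4 (x : ℂ) ≠ 0) :
    ContinuousAt (fun x : ℝ => (N P (x : ℂ)).re) x := by
  have h1 := N_tendsto (P := P) (coe_tendsto x) (by exact_mod_cast hx) h3 h4
  exact (Complex.continuous_re.tendsto _).comp h1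

theorem sign_pos {P : Par} {x : ℝ} (hx : x ≠ 0)
    (h3 : HH P.a P.b P.a3 P.b3 (x : ℂ) ≠ 0) (h4 : HH P.a P.b P.a4 P.b4 (x : ℂ) ≠ 0)
    (h : 0 < (N P (x : ℂ)).re) : x ∈ UP (fun x : ℝ => (N P (x : ℂ)).re) :=
  ((sign_reg hx h3 h4).eventually (eventually_gt_nhds h)).filter_mono nhdsWithin_le_nhds

theorem sign_all {P : Par} (hre : P.Re) (hG : GenV P.vec) {x : ℝ} (hx : x ≠ 0)
    (hN : HH P.a P.b P.a3 P.b3 (x : ℂ) ≠ 0 → HH P.a P.b P.a4 P.b4 (x : ℂ) ≠ 0 →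
      N P (x : ℂ) ≠ 0) :
    x ∈ UP (fun x : ℝ => (N P (x : ℂ)).re) ∪ UP (fun x : ℝ => -(N P (x : ℂ)).re) := by
  by_cases h3 : HH P.a P.b P.a3 P.b3 (x : ℂ) = 0
  · exact sign_pole hre hG hx h3
  by_cases h4 : HH P.a P.b P.a4 P.b4 (x : ℂ) = 0
  · have := sign_pole (P := P.sw) (re_sw hre) (gen_sw hG) hx h4
    simp only [N_sw] at this
    exact this
  have h5 := hN h3 h4
  have h6 : (N P (x : ℂ)).re ≠ 0 := by
    intro h
    apply h5
    rw [N_real hre hx, h]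
    rfl
  rcases lt_or_gt_of_ne h6 with h7 | h7
  · right
    exact ((sign_reg hx h3 h4).neg.eventually
      (eventually_gt_nhds (show 0 < -(N P (x : ℂ)).re by linarith))).filter_mono
      nhdsWithin_le_nhds
  · left
    exact sign_pos hx h3 h4 h7

theorem exists_sol {P : Par} (hre : P.Re) (hG : GenV P.vec) {a b : ℝ} (ha : P.a = (a : ℂ))
    (hb : P.b = (b : ℂ)) (ha0 : 0 < a) (hb0 : 0 < b) :
    ∃ x : ℝ, x ≠ 0 ∧ 0 < (x - a - b) ^ 2 - 4 * a * b ∧ HH P.a P.b P.a3 P.b3 (x : ℂ) ≠ 0 ∧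
      HH P.a P.b P.a4 P.b4 (x : ℂ) ≠ 0 ∧ Sol P (x : ℂ) := by
  by_contra hno
  push Not at hno
  set A := Real.sqrt a with hA
  set B := Real.sqrt b with hB
  have hA2 : A ^ 2 = a := Real.sq_sqrt ha0.le
  have hB2 : B ^ 2 = b := Real.sq_sqrt hb0.le
  have hA0 : 0 < A := Real.sqrt_pos.2 ha0
  have hB0 : 0 < B := Real.sqrt_pos.2 hb0
  have hab : A ≠ B := by
    intro h
    have : a = b := by rw [← hA2, ← hB2, h]
    apply g_n9 (genA hG)
    rw [ha, hb, this, sub_self]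
  have hfac : ∀ x : ℝ, (x - a - b) ^ 2 - 4 * a * b = (x - (A + B) ^ 2) * (x - (A - B) ^ 2) := by
    intro x
    rw [← hA2, ← hB2]
    ring
  have hm : 0 < (A - B) ^ 2 := by
    have := sub_ne_zero.2 hab
    positivity
  have hmp : (A - B) ^ 2 < (A + B) ^ 2 := by nlinarith [mul_pos hA0 hB0]
  -- points algebraic over the first two lengths
  have hDl : ∀ x : ℝ, (x - a - b) ^ 2 - 4 * a * b = 0 → Dl (x : ℂ) P.a P.b = 0 := by
    intro x hx
    unfold Dl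
    rw [ha, hb]
    exact_mod_cast hx
  have halg : ∀ x : ℝ, x ≠ 0 → (x - a - b) ^ 2 - 4 * a * b = 0 →
      HH P.a P.b P.a3 P.b3 (x : ℂ) ≠ 0 ∧ HH P.a P.b P.a4 P.b4 (x : ℂ) ≠ 0 ∧
      N P (x : ℂ) ≠ 0 := by
    intro x hx0 hx
    exact N_ne_alg hG (by exact_mod_cast hx0) (fun F hs f1 f2 => D_mem hs f1 f2 (hDl x hx))
  have hend : ∀ x : ℝ, x ≠ 0 → (x - a - b) ^ 2 - 4 * a * b = 0 →
      x ∈ UP (fun x : ℝ => (N P (x : ℂ)).re) := by
    intro x hx0 hx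
    obtain ⟨h3, h4, h5⟩ := halg x hx0 hx
    refine sign_pos hx0 h3 h4 ?_
    obtain ⟨z, hz, hz2⟩ := N_sq hre (d := (x : ℂ)) (by exact_mod_cast hx0)
      (Complex.conj_ofReal x) (hDl x hx)
    have hz' : z = (z.re : ℂ) := (Complex.conj_eq_iff_re.1 hz).symm
    have hz0 : z.re ≠ 0 := by
      intro h
      apply h5
      rw [hz2, hz', h]
      norm_num
    rw [hz2, hz', ← Complex.ofReal_pow, Complex.ofReal_re]
    positivity
  have hreg : ∀ x : ℝ, x ≠ 0 → 0 ≤ (x - a - b) ^ 2 - 4 * a * b →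
      x ∈ UP (fun x : ℝ => (N P (x : ℂ)).re) ∪ UP (fun x : ℝ => -(N P (x : ℂ)).re) := by
    intro x hx0 hx
    refine sign_all hre hG hx0 (fun h3 h4 => ?_)
    rcases hx.lt_or_eq with h | h
    · intro hN
      exact hno x hx0 h h3 h4 (sol_of_zero (by exact_mod_cast hx0) hN)
    · exact (halg x hx0 h.symm).2.2
  have hp0 : (A + B) ^ 2 ≠ 0 := by positivity
  refine sign_arg (f := fun x : ℝ => (N P (x : ℂ)).re) (p := (A + B) ^ 2) (m := (A - B) ^ 2) hm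
    ?_ ?_ ?_ ?_ ?_ ?_ ?_
  · intro x hx
    refine hreg x (by linarith) ?_
    rw [hfac]
    exact mul_nonneg (by linarith) (by linarith)
  · intro x hx
    refine hreg x (ne_of_lt hx) ?_
    rw [hfac]
    exact mul_nonneg_of_nonpos_of_nonpos (by linarith) (by linarith)
  · intro x hx hx'
    refine hreg x (ne_of_gt hx) ?_
    rw [hfac]
    exact mul_nonneg_of_nonpos_of_nonpos (by linarith) (by linarith)
  · exact hend _ hp0 (by rw [hfac]; ring)
  · exact hend _ hm.ne' (by rw [hfac]; ring)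
  · have h0 : ∀ᶠ x in (atBot ⊔ atTop : Filter ℝ), x ≠ 0 := by
      rw [eventually_sup]
      exact ⟨eventually_ne_atBot 0, eventually_ne_atTop 0⟩
    have h1 : Lead (atBot ⊔ atTop : Filter ℝ) (fun x : ℝ => ((x⁻¹ : ℝ) : ℂ)) 18
        (fun x : ℝ => N P (x : ℂ)) := by
      have e1 : (fun x : ℝ => ((x⁻¹ : ℝ) : ℂ)) = fun x : ℝ => ((x : ℂ))⁻¹ := by
        funext x
        push_cast
        rfl
      rw [e1]
      refine lead_inf hG ?_ ?_
      · rw [← e1]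
        have h2 : Tendsto (fun x : ℝ => x⁻¹) (atBot ⊔ atTop) (𝓝 0) :=
          tendsto_inv_atBot_zero.sup tendsto_inv_atTop_zero
        have := (Complex.continuous_ofReal.tendsto 0).comp h2
        rw [Complex.ofReal_zero] at this
        exact this
      · exact h0.mono (fun x hx => by exact_mod_cast hx)
    obtain ⟨c, hc, h2⟩ := lead_real (NR := fun x : ℝ => (N P (x : ℂ)).re) h1
      (h0.mono (fun x hx => N_real hre hx))
    refine ⟨c, hc, ?_⟩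
    filter_upwards [h2, h0] with x hx hx0
    have hpos : 0 < (x⁻¹) ^ (18 : ℤ) := by
      have : (x⁻¹) ^ (18 : ℤ) = ((x⁻¹) ^ 9) ^ 2 := by
        have e : ((18 : ℤ)) = ((18 : ℕ) : ℤ) := rfl
        rw [e, zpow_natCast]
        ring
      rw [this]
      have := pow_ne_zero 9 (inv_ne_zero hx0)
      positivity
    have e2 : c * (x⁻¹ ^ (18 : ℤ) * (N P (x : ℂ)).re) =
      x⁻¹ ^ (18 : ℤ) * (c * (N P (x : ℂ)).re) := by ring
    rw [e2] at hx
    exact (mul_pos_iff_of_pos_left hpos).1 hx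
  · have h0 : ∀ᶠ x in 𝓝[≠] (0 : ℝ), x ≠ 0 := self_mem_nhdsWithin
    have h1 : Lead (𝓝[≠] (0 : ℝ)) (fun x : ℝ => (x : ℂ)) 11 (fun x : ℝ => N P (x : ℂ)) := by
      refine lead_zero hG ?_ (h0.mono (fun x hx => by exact_mod_cast hx))
      have := (coe_tendsto 0).mono_left (nhdsWithin_le_nhds (s := {(0 : ℝ)}ᶜ))
      rw [Complex.ofReal_zero] at this
      exact this
    obtain ⟨c, hc, h2⟩ := lead_real (er := fun x => x)
      (NR := fun x : ℝ => (N P (x : ℂ)).re) h1 (h0.mono (fun x hx => N_real hre hx))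
    refine ⟨c, hc, ?_⟩
    filter_upwards [h2, h0] with x hx hx0
    have hpos : 0 < x ^ 10 := by
      have := pow_ne_zero 5 hx0
      have e : x ^ 10 = (x ^ 5) ^ 2 := by ring
      rw [e]
      positivity
    have e2 : c * (x ^ (11 : ℤ) * (N P (x : ℂ)).re) =
      x ^ 10 * (c * (x * (N P (x : ℂ)).re)) := by
      have e : ((11 : ℤ)) = ((11 : ℕ) : ℤ) := rfl
      rw [e, zpow_natCast]
      ring
    rw [e2] at hx
    exact (mul_pos_iff_of_pos_left hpos).1 hx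

end Pool.Agent.TH532
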