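import Mathlib
import Pool.Agent.TH532.Exist

set_option autoImplicit false

namespace Pool.Agent.TH532

theorem close_aux {g h k s5 t5 s7 t7 : ℂ} (hg : g ≠ 0) (hgk : g - k ≠ 0)
    (hW : s5 * t7 - t5 * s7 = 0)
    (hU : (g - k + s7 * t7) * s5 - (g - h + s5 * t5) * s7 = 0)
    (hs : ¬ (s5 = 0 ∧ s7 = 0)) (ht : ¬ (t5 = 0 ∧ t7 = 0)) :
    ∃ s2 t2 : ℂ, s2 * t2 = g ∧ (s2 - s5) * (t2 - t5) = h ∧ (s2 - s7) * (t2 - t7) = k := by
  have h7 : s7 ≠ 0 := by
    rintro rfl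
    have h5 : s5 ≠ 0 := fun h => hs ⟨h, rfl⟩
    have : (g - k) * s5 = 0 := by linear_combination hU
    exact mul_ne_zero hgk h5 this
  have ht7 : t7 ≠ 0 := by
    rintro rfl
    have : t5 * s7 = 0 := by linear_combination -hW
    exact ht ⟨(mul_eq_zero.1 this).resolve_right h7, rfl⟩
  obtain ⟨ρ, hρ⟩ : ∃ ρ : ℂ, ρ = s5 / s7 := ⟨_, rfl⟩
  have e5 : s5 = ρ * s7 := by rw [hρ]; field_simp
  have e5' : t5 = ρ * t7 := by
    rw [hρ]
    field_simp
    linear_combination -hW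
  have eA : g - h + s5 * t5 = ρ * (g - k + s7 * t7) := by
    have h1 : (g - k + s7 * t7) * (ρ * s7) - (g - h + s5 * t5) * s7 = 0 := by
      rw [← e5]; exact hU
    have h2 : s7 * (ρ * (g - k + s7 * t7) - (g - h + s5 * t5)) = 0 := by
      linear_combination h1
    have h3 := (mul_eq_zero.1 h2).resolve_left h7
    linear_combination -h3
  obtain ⟨q, hq⟩ := IsAlgClosed.exists_pow_nat_eq ((g - k + s7 * t7) ^ 2 - 4 * t7 * (s7 * g))
    (n := 2) (by norm_num)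
  obtain ⟨s2, hs2⟩ : ∃ s2 : ℂ, s2 = (g - k + s7 * t7 + q) / (2 * t7) := ⟨_, rfl⟩
  have hroot : t7 * s2 ^ 2 - (g - k + s7 * t7) * s2 + s7 * g = 0 := by
    rw [hs2]
    field_simp
    linear_combination hq
  have hs20 : s2 ≠ 0 := by
    rintro rfl
    have : s7 * g = 0 := by linear_combination hroot
    exact mul_ne_zero h7 hg this
  refine ⟨s2, g / s2, by field_simp, ?_, ?_⟩
  · have h1 : s5 * (g / s2) + t5 * s2 = g - h + s5 * t5 := by
      rw [eA, e5, e5']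
      field_simp
      linear_combination ρ * hroot
    have h2 : s2 * (g / s2) = g := by field_simp
    linear_combination h2 - h1
  · have h1 : s7 * (g / s2) + t7 * s2 = g - k + s7 * t7 := by
      field_simp
      linear_combination hroot
    have h2 : s2 * (g / s2) = g := by field_simp
    linear_combination h2 - h1

theorem close {g h k s5 t5 s7 t7 : ℂ} (hg : g ≠ 0) (hgk : g - k ≠ 0)
    (hP : Phi g h k s5 t5 s7 t7 = 0)
    (hs : ¬ (s5 = 0 ∧ s7 = 0)) (ht : ¬ (t5 = 0 ∧ t7 = 0)) :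
    ∃ s2 t2 : ℂ, s2 * t2 = g ∧ (s2 - s5) * (t2 - t5) = h ∧ (s2 - s7) * (t2 - t7) = k := by
  unfold Phi at hP
  by_cases hW : s5 * t7 - t5 * s7 = 0
  · rw [hW, zero_pow two_ne_zero, mul_zero, zero_add, mul_eq_zero] at hP
    rcases hP with hU | hU
    · exact close_aux hg hgk hW hU hs ht
    · obtain ⟨t2, s2, h1, h2, h3⟩ := close_aux (s5 := t5) (t5 := s5) (s7 := t7) (t7 := s7)
        (h := h) hg hgk (by linear_combination -hW) (by linear_combination hU) ht hs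
      exact ⟨s2, t2, by rw [mul_comm]; exact h1, by rw [mul_comm]; exact h2,
        by rw [mul_comm]; exact h3⟩
  · obtain ⟨s2, hs2⟩ : ∃ s2 : ℂ, s2 = ((g - k + s7 * t7) * s5 - (g - h + s5 * t5) * s7) /
      (s5 * t7 - t5 * s7) := ⟨_, rfl⟩
    obtain ⟨t2, ht2⟩ : ∃ t2 : ℂ, t2 = ((g - h + s5 * t5) * t7 - (g - k + s7 * t7) * t5) /
      (s5 * t7 - t5 * s7) := ⟨_, rfl⟩
    have e1 : s2 * t2 = g := by
      rw [hs2, ht2, div_mul_div_comm, div_eq_iff (mul_ne_zero hW hW)]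
      linear_combination -hP
    have e2 : s5 * t2 + t5 * s2 = g - h + s5 * t5 := by
      rw [hs2, ht2, mul_div_assoc', mul_div_assoc', ← add_div, div_eq_iff hW]
      ring
    have e3 : s7 * t2 + t7 * s2 = g - k + s7 * t7 := by
      rw [hs2, ht2, mul_div_assoc', mul_div_assoc', ← add_div, div_eq_iff hW]
      ring
    exact ⟨s2, t2, e1, by linear_combination e1 - e2, by linear_combination e1 - e3⟩

/-- exclusion of degenerate configurations -/
theorem excl {P : Par} (hG : GenV P.vec) {D s0 t0 s3 t3 s4 t4 t5 t7 : ℂ} (hD : D ≠ 0)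
    (a1 : s0 * t0 = P.a) (b1 : (s0 - 1) * (t0 - D) = P.b)
    (a3 : s3 * t3 = P.a3) (b3 : (s3 - 1) * (t3 - D) = P.b3)
    (a4 : s4 * t4 = P.a4) (b4 : (s4 - 1) * (t4 - D) = P.b4)
    (e1 : (0 - s0) * (t5 - t0) = P.e) (f1 : (0 - s3) * (t5 - t3) = P.f)
    (c1 : (0 - s0) * (t7 - t0) = P.c) (f71 : (0 - s4) * (t7 - t4) = P.f7) : False := by
  have gA := genA hG
  have n7 := g_n7 gA
  have n6 := g_n6 gA
  have n3 := g_n3 gA
  have n1 := g_n1 gA
  have n5 := g_n5 gA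
  have ha0 := g_a0 gA
  have ha30 := g_a30 gA
  have hb0 := g_b0 gA
  have hb30 := g_b30 gA
  have ha40 := g_a30 (genB hG)
  obtain ⟨F, m1, m2, m3⟩ := hG .f7
  have ka : P.a ∈ F := m1 .a (by decide)
  have kb : P.b ∈ F := m1 .b (by decide)
  have ka3 : P.a3 ∈ F := m1 .a3 (by decide)
  have kb3 : P.b3 ∈ F := m1 .b3 (by decide)
  have ka4 : P.a4 ∈ F := m1 .a4 (by decide)
  have kb4 : P.b4 ∈ F := m1 .b4 (by decide)
  have ke : P.e ∈ F := m1 .e (by decide)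
  have kf : P.f ∈ F := m1 .f (by decide)
  have kc : P.c ∈ F := m1 .c (by decide)
  have hs0 : s0 ≠ 0 := by
    rintro rfl
    exact ha0 (by rw [← a1]; ring)
  have hs3 : s3 ≠ 0 := by
    rintro rfl
    exact ha30 (by rw [← a3]; ring)
  have hs4 : s4 ≠ 0 := by
    rintro rfl
    exact ha40 (by rw [← a4]; ring)
  have hs01 : s0 - 1 ≠ 0 := by
    intro h
    exact hb0 (by rw [← b1, h]; ring)
  have hs31 : s3 - 1 ≠ 0 := by
    intro h
    exact hb30 (by rw [← b3, h]; ring)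
  have r1 : s0 * t5 = P.a - P.e := by linear_combination -e1 + a1
  have r2 : s3 * t5 = P.a3 - P.f := by linear_combination -f1 + a3
  have ht5 : t5 ≠ 0 := by
    rintro rfl
    rw [mul_zero] at r1
    exact n7 r1.symm
  obtain ⟨ρ, hρ⟩ : ∃ ρ : ℂ, ρ = (P.a3 - P.f) / (P.a - P.e) := ⟨_, rfl⟩
  have hρ0 : ρ ≠ 0 := by rw [hρ]; exact div_ne_zero n6 n7
  have hρF : ρ ∈ F := by rw [hρ]; exact div_mem (sub_mem ka3 kf) (sub_mem ka ke)
  have e3 : s3 = ρ * s0 := by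
    rw [hρ, ← r1, ← r2]
    field_simp
  obtain ⟨C, hC⟩ : ∃ C : ℂ, C = P.a - P.a3 / ρ := ⟨_, rfl⟩
  have hCF : C ∈ F := by rw [hC]; exact sub_mem ka (div_mem ka3 hρF)
  have hC0 : C ≠ 0 := by
    rw [hC, hρ]
    intro h
    apply n5
    field_simp at h ⊢
    linear_combination h
  have hy : s0⁻¹ ∈ F := by
    refine root_mem (A := C) (B := -C * (1 + ρ) + P.b - P.b3) (C := C * ρ - P.b * ρ + P.b3) m3
      hCF ?_ ?_ hC0 ?_
    · exact sub_mem (add_mem (mul_mem (neg_mem hCF) (add_mem (one_mem F) hρF)) kb) kb3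
    · exact add_mem (sub_mem (mul_mem hCF hρF) (mul_mem kb hρF)) kb3
    · have hDa : D = P.a / s0 - P.b / (s0 - 1) := by
        rw [← a1, ← b1]
        field_simp
        ring
      have hDb : D = P.a3 / s3 - P.b3 / (s3 - 1) := by
        rw [← a3, ← b3]
        field_simp
        ring
      have h1 : P.a / s0 - P.b / (s0 - 1) = P.a3 / s3 - P.b3 / (s3 - 1) := by
        rw [← hDa, ← hDb]
      rw [e3] at h1 hs31
      have h2 : P.a * (s0 - 1) * (ρ * s0 - 1) * ρ - P.b * s0 * (ρ * s0 - 1) * ρ =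
          P.a3 * (s0 - 1) * (ρ * s0 - 1) - P.b3 * (ρ * s0) * (s0 - 1) := by
        have e4 : P.a * (s0 - 1) * (ρ * s0 - 1) * ρ - P.b * s0 * (ρ * s0 - 1) * ρ =
            (P.a / s0 - P.b / (s0 - 1)) * (s0 * (s0 - 1) * (ρ * s0 - 1) * ρ) := by
          field_simp
        have e5 : P.a3 * (s0 - 1) * (ρ * s0 - 1) - P.b3 * (ρ * s0) * (s0 - 1) =
            (P.a3 / (ρ * s0) - P.b3 / (ρ * s0 - 1)) * (s0 * (s0 - 1) * (ρ * s0 - 1) * ρ) := by
          rw [sub_mul]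
          congr 1
          · field_simp
          · rw [div_mul_eq_mul_div, eq_div_iff hs31]
            ring
        rw [e4, e5, h1]
      rw [hC]
      field_simp
      linear_combination h2
  have ks0 : s0 ∈ F := by
    have := inv_mem hy
    rw [inv_inv] at this
    exact this
  have kt0 : t0 ∈ F := by
    have : t0 = P.a / s0 := by rw [← a1]; field_simp
    rw [this]
    exact div_mem ka ks0
  have kD : D ∈ F := by
    have : D = t0 - P.b / (s0 - 1) := by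
      rw [← b1]
      field_simp
      ring
    rw [this]
    exact sub_mem kt0 (div_mem kb (sub_mem ks0 (one_mem F)))
  have ks4 : s4 ∈ F := by
    refine root_mem (A := D) (B := -(D + P.a4 - P.b4)) (C := P.a4) m3 kD
      (neg_mem (sub_mem (add_mem kD ka4) kb4)) ka4 hD ?_
    rw [← a4, ← b4]
    ring
  have kt4 : t4 ∈ F := by
    have : t4 = P.a4 / s4 := by rw [← a4]; field_simp
    rw [this]
    exact div_mem ka4 ks4
  have kt7 : t7 ∈ F := by
    have : t7 = t0 - P.c / s0 := by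
      rw [← c1]
      field_simp
      ring
    rw [this]
    exact sub_mem kt0 (div_mem kc ks0)
  apply m2
  change P.f7 ∈ F
  rw [← f71]
  exact mul_mem (sub_mem (zero_mem F) ks4) (sub_mem kt7 kt4)

/-- the null configuration -/
theorem exists_conf {P : Par} (hre : P.Re) (hG : GenV P.vec) {a b : ℝ} (ha : P.a = (a : ℂ))
    (hb : P.b = (b : ℂ)) (ha0 : 0 < a) (hb0 : 0 < b) :
    ∃ x : ℝ, 0 < (x - a - b) ^ 2 - 4 * a * b ∧ ∃ s0 t0 s2 t2 s3 t3 s4 t4 s5 t5 s7 t7 : ℂ,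
      s0 * t0 = P.a ∧ (s0 - 1) * (t0 - x) = P.b ∧ s3 * t3 = P.a3 ∧ (s3 - 1) * (t3 - x) = P.b3 ∧
      s4 * t4 = P.a4 ∧ (s4 - 1) * (t4 - x) = P.b4 ∧
      (s5 - s0) * (t5 - t0) = P.e ∧ (s5 - s3) * (t5 - t3) = P.f ∧
      (s7 - s0) * (t7 - t0) = P.c ∧ (s7 - s4) * (t7 - t4) = P.f7 ∧
      s2 * t2 = P.g ∧ (s2 - s5) * (t2 - t5) = P.h ∧ (s2 - s7) * (t2 - t7) = P.k := by
  obtain ⟨x, hx0, hx, H3, H4, w, v, u, r, s, hw, hv, hu, hr, hs, hP⟩ :=
    exists_sol hre hG ha hb ha0 hb0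
  have hD : (x : ℂ) ≠ 0 := by exact_mod_cast hx0
  obtain ⟨⟨q1, q2⟩, -⟩ := four_ne hD hw hv H3
  obtain ⟨⟨q3, q4⟩, -⟩ := four_ne hD hw hu H4
  obtain ⟨a1, b1⟩ := pt_rel hD hw
  obtain ⟨a3, b3⟩ := pt_rel hD hv
  obtain ⟨a4, b4⟩ := pt_rel hD hu
  obtain ⟨e1, f1⟩ := arm_rel q1 q2 hr
  obtain ⟨c1, f71⟩ := arm_rel q3 q4 hs
  unfold Ph at hP
  generalize hp0 : pt (x : ℂ) P.a P.b w = p0 at *
  generalize hp3 : pt (x : ℂ) P.a3 P.b3 v = p3 at *
  generalize hp4 : pt (x : ℂ) P.a4 P.b4 u = p4 at *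
  generalize hp5 : arm p0 p3 P.e P.f r = p5 at *
  generalize hp7 : arm p0 p4 P.c P.f7 s = p7 at *
  obtain ⟨s0, t0⟩ := p0
  obtain ⟨s3, t3⟩ := p3
  obtain ⟨s4, t4⟩ := p4
  obtain ⟨s5, t5⟩ := p5
  obtain ⟨s7, t7⟩ := p7
  simp only at *
  have hg : P.g ≠ 0 := by
    obtain ⟨F, h1, h2, h3⟩ := hG .g
    intro h
    apply h2
    change P.g ∈ F
    rw [h]
    exact zero_mem F
  have hgk : P.g - P.k ≠ 0 := by
    obtain ⟨F, h1, h2, h3⟩ := hG .g
    intro h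
    apply h2
    change P.g ∈ F
    rw [sub_eq_zero.1 h]
    exact h1 .k (by decide)
  have x1 : ¬ (s5 = 0 ∧ s7 = 0) := by
    rintro ⟨rfl, rfl⟩
    exact excl hG hD a1 b1 a3 b3 a4 b4 e1 f1 c1 f71
  have x2 : ¬ (t5 = 0 ∧ t7 = 0) := by
    rintro ⟨rfl, rfl⟩
    refine excl hG hD (s0 := t0 / x) (t0 := x * s0) (s3 := t3 / x) (t3 := x * s3)
      (s4 := t4 / x) (t4 := x * s4) (t5 := x * s5) (t7 := x * s7) ?_ ?_ ?_ ?_ ?_ ?_ ?_ ?_ ?_ ?_
    · rw [← a1]; field_simp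
    · rw [← b1]; field_simp
    · rw [← a3]; field_simp
    · rw [← b3]; field_simp
    · rw [← a4]; field_simp
    · rw [← b4]; field_simp
    · rw [← e1]; field_simp; ring
    · rw [← f1]; field_simp; ring
    · rw [← c1]; field_simp; ring
    · rw [← f71]; field_simp; ring
  obtain ⟨s2, t2, g1, h1, k1⟩ := close hg hgk hP x1 x2
  exact ⟨x, hx, s0, t0, s2, t2, s3, t3, s4, t4, s5, t5, s7, t7, a1, b1, a3, b3, a4, b4, e1, f1,
    c1, f71, g1, h1, k1⟩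

end Pool.Agent.TH532
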