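import Mathlib
import Pool.Agent.H789R3.Asm
import Pool.Agent.TH532.Gen

set_option autoImplicit false

namespace Pool.Agent.TH532

open Pool.Agent.H789R3 Finset

variable {V : Type} [Fintype V] [DecidableEq V] (o w : V)

/-- The squared edge lengths of a generic placement of a Laman graph are algebraically
independent, up to a rational shift. -/
theorem lens_indep (E : Finset (Sym2 V)) (how : s(o, w) ∈ E) (hdiag : ∀ e ∈ E, ¬ e.IsDiag)
    (hcard : E.card + 3 = 2 * Fintype.card V)
    (hE : ∀ S : Finset V, 2 ≤ S.card →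
      (E.filter (fun e => ∀ v ∈ e, v ∈ S)).card + 3 ≤ 2 * S.card)
    (p : V → Fin 2 → ℂ)
    (hp : Function.Injective (MvPolynomial.aeval (R := ℚ) (fun x : V × Fin 2 => p x.1 x.2))) :
    ∃ c : E → ℚ, AlgebraicIndependent ℚ (fun e : E => dC p e.1 - (c e : ℂ)) := by
  classical
  have hne : o ≠ w := by
    rintro rfl
    exact hdiag _ how rfl
  obtain ⟨x, hx, hN⟩ := exists_special o w hne E hdiag hcard hE
  have hcardJ : Fintype.card (JJ o w) = Fintype.card E := by
    rw [Fintype.card_sum, card_ne2 o w hne, card_ne, Fintype.card_coe]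
    have : 1 < Fintype.card V := Fintype.one_lt_card_iff.2 ⟨o, w, hne⟩
    omega
  let ρ : JJ o w ≃ E := Fintype.equivOfCardEq hcardJ
  let q0 : JJ o w → MvPolynomial (JJ o w) ℚ := fun j => inS o w x (ρ j).1
  let h0 : JJ o w → MvPolynomial (JJ o w) ℚ := fun j => hS o w x (ρ j).1
  have hq : ∀ e, ∀ m ∈ (q0 e).support, Finsupp.weight (wt o w) m = 2 := by
    intro e m hm
    have h1 : MvPolynomial.IsWeightedHomogeneous (wt o w) (q0 e) 2 := by
      simp only [q0]
      generalize (ρ e).1 = e'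
      induction e' using Sym2.ind with
      | _ u v => exact inP_wh o w x u v
    exact h1 (MvPolynomial.mem_support_iff.1 hm)
  have hh : ∀ e, h0 e - q0 e ∈ FF (wt o w) ℚ 3 := by
    intro e
    simp only [h0, q0]
    generalize (ρ e).1 = e'
    induction e' using Sym2.ind with
    | _ u v =>
      change hP o w x u v - inP o w x u v ∈ _
      rw [hP, add_sub_cancel_left]
      have h1 := FF_mul (wt o w) (wh_FF (wh_sub (Yp_wh o w u) (Yp_wh o w v)))
        (wh_FF (wh_sub (Xp_wh o w u) (Xp_wh o w v)))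
      exact h1
  have hX : ∀ j, ∃ N, (MvPolynomial.X j : MvPolynomial (JJ o w) ℚ) ^ N ∈
      Ideal.span (Set.range q0) := by
    intro j
    obtain ⟨N, hN'⟩ := hN j
    refine ⟨N, ?_⟩
    have h1 : Set.range q0 = Set.range (fun e : E => inS o w x e.1) :=
      ρ.surjective.range_comp (fun e : E => inS o w x e.1)
    rw [h1]
    exact hN'
  have hinjB := aeval_injective (wt o w) (wt_cases o w) q0 h0 hq hh hX
  have hlam : Function.Injective (MvPolynomial.aeval (R := ℚ)
      (fun j : JJ o w => dC p (ρ j).1 - (xsq x (ρ j).1 : ℂ))) := by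
    rw [injective_iff_map_eq_zero]
    intro Ψ hΨ
    let g : JJ o w → MvPolynomial (V × Fin 2) ℚ := fun j =>
      dpS (ρ j).1 - MvPolynomial.C (xsq x (ρ j).1)
    have hg : ∀ (q : V → Fin 2 → ℂ) (j : JJ o w),
        MvPolynomial.aeval (R := ℚ) (fun x : V × Fin 2 => q x.1 x.2) (g j) =
        dC q (ρ j).1 - (xsq x (ρ j).1 : ℂ) := by
      intro q j
      simp only [g]
      rw [map_sub, aeval_dpS, MvPolynomial.aeval_C]
      rfl
    have hg2 : ∀ (q : V → Fin 2 → ℂ), MvPolynomial.aeval (R := ℚ) (fun x : V × Fin 2 => q x.1 x.2)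
        (MvPolynomial.aeval g Ψ) =
        MvPolynomial.aeval (fun j : JJ o w => dC q (ρ j).1 - (xsq x (ρ j).1 : ℂ)) Ψ := by
      intro q
      have h1 : (fun j : JJ o w => dC q (ρ j).1 - (xsq x (ρ j).1 : ℂ)) =
        fun j => MvPolynomial.aeval (R := ℚ) (fun x : V × Fin 2 => q x.1 x.2) (g j) := by
        funext j
        rw [hg]
      rw [h1, ← MvPolynomial.comp_aeval_apply]
    have h2 : MvPolynomial.aeval g Ψ = 0 := by
      apply hp
      rw [hg2, map_zero]
      exact hΨ
    apply hinjB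
    rw [map_zero]
    apply MvPolynomial.funext
    intro r
    rw [map_zero]
    let β : MvPolynomial (JJ o w) ℚ →+* ℂ := (algebraMap ℚ ℂ).comp (MvPolynomial.eval r)
    obtain ⟨q, hq'⟩ := realise o w x β
    have h3 := hg2 q
    rw [h2, map_zero] at h3
    have h4 : (fun j : JJ o w => dC q (ρ j).1 - (xsq x (ρ j).1 : ℂ)) = fun j => β (h0 j) := by
      funext j
      exact (FP_hS o w x β q (fun u v => (hq' u v).symm) (ρ j).1).symm
    rw [h4] at h3
    have h5 : β (MvPolynomial.aeval h0 Ψ) = MvPolynomial.aeval (fun j => β (h0 j)) Ψ := by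
      have h6 : (β.comp (MvPolynomial.aeval h0 : MvPolynomial (JJ o w) ℚ →ₐ[ℚ] _).toRingHom) =
          (MvPolynomial.aeval (R := ℚ) (fun j => β (h0 j))).toRingHom := by
        apply hom_ext'
        intro j
        change β (MvPolynomial.aeval h0 (MvPolynomial.X j)) =
          MvPolynomial.aeval (R := ℚ) (fun j => β (h0 j)) (MvPolynomial.X j)
        rw [MvPolynomial.aeval_X, MvPolynomial.aeval_X]
      exact RingHom.congr_fun h6 Ψ
    rw [← h3] at h5
    exact (algebraMap ℚ ℂ).injective (h5.trans (map_zero _).symm)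
  have hind : AlgebraicIndependent ℚ
      (fun j : JJ o w => dC p (ρ j).1 - (xsq x (ρ j).1 : ℂ)) := hlam
  refine ⟨fun e => xsq x e.1, ?_⟩
  have h7 := hind.comp ρ.symm ρ.symm.injective
  have e1 : (fun j : JJ o w => dC p (ρ j).1 - (xsq x (ρ j).1 : ℂ)) ∘ ρ.symm =
      fun e : E => dC p e.1 - ((xsq x e.1 : ℚ) : ℂ) := by
    funext e
    simp
  rw [e1] at h7
  exact h7

theorem genV_of_indep {ι : Type} {v : ι → ℂ} (c : ι → ℚ)
    (h : AlgebraicIndependent ℚ (fun i => v i - (c i : ℂ))) : GenV v := by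
  intro j
  obtain ⟨F, h1, h2, h3⟩ := exists_field _ h j
  have hc : ∀ i, ((c i : ℚ) : ℂ) ∈ F := fun i => by
    have : ((c i : ℚ) : ℂ) = algebraMap ℚ ℂ (c i) := rfl
    rw [this]
    exact SubfieldClass.ratCast_mem F (c i)
  refine ⟨F, fun i hi => ?_, fun hj => h2 (sub_mem hj (hc j)), h3⟩
  have := add_mem (h1 i hi) (hc i)
  rw [sub_add_cancel] at this
  exact this

end Pool.Agent.TH532
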