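import Mathlib
import Pool.Agent.TH532.Lens
import Pool.Agent.TH532.Conf

set_option autoImplicit false

namespace Pool.Agent.TH532

open Pool.Agent.H789R3 Finset

/-- end points of the thirteen edges -/
def ed : Ix → Fin 8 × Fin 8
  | .a => (0, 1)
  | .b => (0, 6)
  | .a3 => (1, 3)
  | .b3 => (3, 6)
  | .a4 => (1, 4)
  | .b4 => (4, 6)
  | .e => (0, 5)
  | .f => (3, 5)
  | .c => (0, 7)
  | .f7 => (4, 7)
  | .g => (1, 2)
  | .h => (2, 5)
  | .k => (2, 7)

def LL : List Ix := [.a, .b, .a3, .b3, .a4, .b4, .e, .f, .c, .f7, .g, .h, .k]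

def es (i : Ix) : Sym2 (Fin 8) := s((ed i).1, (ed i).2)

def EE : Finset (Sym2 (Fin 8)) := (LL.map es).toFinset

theorem mem_LL (i : Ix) : i ∈ LL := by cases i <;> decide

theorem es_mem (i : Ix) : es i ∈ EE := by
  unfold EE
  rw [List.mem_toFinset]
  exact List.mem_map_of_mem (mem_LL i)

theorem EE_cases {e : Sym2 (Fin 8)} (h : e ∈ EE) : ∃ i, e = es i := by
  unfold EE at h
  rw [List.mem_toFinset, List.mem_map] at h
  obtain ⟨i, -, hi⟩ := h
  exact ⟨i, hi.symm⟩

theorem es_inj : Function.Injective es := by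
  intro i j h
  revert h
  cases i <;> cases j <;> decide

theorem EE_card : EE.card = 13 := by
  unfold EE
  rw [List.toFinset_card_of_nodup]
  · rfl
  · rw [List.nodup_map_iff es_inj]
    decide

theorem EE_diag : ∀ e ∈ EE, ¬ e.IsDiag := by
  intro e he
  obtain ⟨i, rfl⟩ := EE_cases he
  cases i <;> decide

theorem cnt : ∀ b0 b1 b2 b3 b4 b5 b6 b7 : Bool,
    2 ≤ b0.toNat + b1.toNat + b2.toNat + b3.toNat + b4.toNat + b5.toNat + b6.toNat + b7.toNat →
    ((b0 && b1).toNat + (b0 && b6).toNat + (b1 && b3).toNat + (b3 && b6).toNat +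
      (b1 && b4).toNat + (b4 && b6).toNat + (b0 && b5).toNat + (b3 && b5).toNat +
      (b0 && b7).toNat + (b4 && b7).toNat + (b1 && b2).toNat + (b2 && b5).toNat +
      (b2 && b7).toNat) + 3 ≤
    2 * (b0.toNat + b1.toNat + b2.toNat + b3.toNat + b4.toNat + b5.toNat + b6.toNat +
      b7.toNat) := by
  decide

theorem EE_sparse (S : Finset (Fin 8)) (hS : 2 ≤ S.card) :
    (EE.filter (fun e => ∀ v ∈ e, v ∈ S)).card + 3 ≤ 2 * S.card := by
  obtain ⟨b, hb⟩ : ∃ b : Fin 8 → Bool, ∀ i, b i = true ↔ i ∈ S :=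
    ⟨fun i => decide (i ∈ S), fun i => by simp⟩
  have h1 : S.card = ∑ i : Fin 8, (b i).toNat := by
    have e1 : S = univ.filter (fun i => b i = true) := by ext i; simp [hb]
    conv_lhs => rw [e1]
    rw [Finset.card_filter]
    refine Finset.sum_congr rfl (fun i _ => ?_)
    cases b i <;> rfl
  rw [Fin.sum_univ_eight] at h1
  have h2 : (EE.filter (fun e => ∀ v ∈ e, v ∈ S)).card ≤
      (LL.filter (fun i => b (ed i).1 && b (ed i).2)).length := by
    have h3 : EE.filter (fun e => ∀ v ∈ e, v ∈ S) ⊆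
        ((LL.filter (fun i => b (ed i).1 && b (ed i).2)).map es).toFinset := by
      intro e he
      rw [Finset.mem_filter] at he
      obtain ⟨i, rfl⟩ := EE_cases he.1
      rw [List.mem_toFinset]
      apply List.mem_map_of_mem
      rw [List.mem_filter]
      refine ⟨mem_LL i, ?_⟩
      have h4 := (hb _).2 (he.2 (ed i).1 (Sym2.mem_mk_left _ _))
      have h5 := (hb _).2 (he.2 (ed i).2 (Sym2.mem_mk_right _ _))
      rw [h4, h5]
      rfl
    refine (Finset.card_le_card h3).trans ((List.toFinset_card_le _).trans ?_)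
    rw [List.length_map]
  have h3 : (LL.filter (fun i => b (ed i).1 && b (ed i).2)).length =
      ((b 0 && b 1).toNat + (b 0 && b 6).toNat + (b 1 && b 3).toNat + (b 3 && b 6).toNat +
      (b 1 && b 4).toNat + (b 4 && b 6).toNat + (b 0 && b 5).toNat + (b 3 && b 5).toNat +
      (b 0 && b 7).toNat + (b 4 && b 7).toNat + (b 1 && b 2).toNat + (b 2 && b 5).toNat +
      (b 2 && b 7).toNat) := by
    rw [← List.countP_eq_length_filter]
    have key : ∀ b : Bool, (if b = true then 1 else 0) = b.toNat := by decide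
    simp only [LL, List.countP_cons, List.countP_nil, ed, key]
    ring
  rw [h3] at h2
  have h4 := cnt (b 0) (b 1) (b 2) (b 3) (b 4) (b 5) (b 6) (b 7) (by rw [← h1]; exact hS)
  rw [← h1] at h4
  omega

/-- the graph -/
def GG : SimpleGraph (Fin 8) := SimpleGraph.fromEdgeSet (EE : Set (Sym2 (Fin 8)))

theorem GG_adj (i : Ix) : GG.Adj (ed i).1 (ed i).2 := by
  unfold GG
  rw [SimpleGraph.fromEdgeSet_adj]
  refine ⟨es_mem i, ?_⟩
  cases i <;> decide

theorem GG_cases {u v : Fin 8} (h : GG.Adj u v) : ∃ i, s(u, v) = es i := by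
  unfold GG at h
  rw [SimpleGraph.fromEdgeSet_adj] at h
  exact EE_cases h.1

end Pool.Agent.TH532
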