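import Mathlib
import Pool.Agent.TH532.Graph

set_option autoImplicit false

namespace Pool.Agent.TH532

open MvPolynomial

theorem gen_ne {σ : Type} {p : σ → ℝ} (hp : AlgebraicIndependent ℚ p) (Q : MvPolynomial σ ℚ)
    (x : σ → ℚ) (hx : eval x Q ≠ 0) : aeval p Q ≠ 0 := by
  intro h
  have h1 : Q = 0 := by
    apply hp
    rw [h, map_zero]
  rw [h1] at hx
  exact hx (map_zero _)

/-- coordinates of a special placement -/
def xz : Fin 8 → Fin 2 → ℤ :=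
  ![![0, 0], ![1, 1], ![2, 5], ![3, 1], ![5, 2], ![7, 3], ![4, 9], ![6, 1]]

def x0 : Fin 8 × Fin 2 → ℚ := fun v => (xz v.1 v.2 : ℚ)

noncomputable def arP (i j k : Fin 8) : MvPolynomial (Fin 8 × Fin 2) ℚ :=
  (X (j, 0) - X (i, 0)) * (X (k, 1) - X (i, 1)) - (X (k, 0) - X (i, 0)) * (X (j, 1) - X (i, 1))

def ar (p : Fin 8 → Fin 2 → ℝ) (i j k : Fin 8) : ℝ :=
  (p j 0 - p i 0) * (p k 1 - p i 1) - (p k 0 - p i 0) * (p j 1 - p i 1)

def arZ (i j k : Fin 8) : ℤ :=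
  (xz j 0 - xz i 0) * (xz k 1 - xz i 1) - (xz k 0 - xz i 0) * (xz j 1 - xz i 1)

theorem aeval_arP (p : Fin 8 → Fin 2 → ℝ) (i j k : Fin 8) :
    aeval (fun x : Fin 8 × Fin 2 => p x.1 x.2) (arP i j k) = ar p i j k := by
  simp [arP, ar]

theorem eval_arP (i j k : Fin 8) : eval x0 (arP i j k) = (arZ i j k : ℚ) := by
  simp [arP, arZ, x0]

theorem ar_ne {p : Fin 8 → Fin 2 → ℝ}
    (hp : AlgebraicIndependent ℚ (fun x : Fin 8 × Fin 2 => p x.1 x.2)) (i j k : Fin 8)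
    (h : arZ i j k ≠ 0) : ar p i j k ≠ 0 := by
  rw [← aeval_arP]
  exact gen_ne hp _ x0 (by rw [eval_arP]; exact_mod_cast h)

theorem Q_ne {p : Fin 8 → Fin 2 → ℝ}
    (hp : AlgebraicIndependent ℚ (fun x : Fin 8 × Fin 2 => p x.1 x.2)) :
    ar p 5 2 0 * ar p 2 7 1 * ar p 7 4 0 * ar p 4 6 1 * ar p 6 3 0 * ar p 3 5 1 -
    ar p 2 5 1 * ar p 7 2 0 * ar p 4 7 1 * ar p 6 4 0 * ar p 3 6 1 * ar p 5 3 0 ≠ 0 := by
  have h := gen_ne hp (arP 5 2 0 * arP 2 7 1 * arP 7 4 0 * arP 4 6 1 * arP 6 3 0 * arP 3 5 1 -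
    arP 2 5 1 * arP 7 2 0 * arP 4 7 1 * arP 6 4 0 * arP 3 6 1 * arP 5 3 0) x0 (by
      simp only [map_sub, map_mul, eval_arP]
      have hz : arZ 5 2 0 * arZ 2 7 1 * arZ 7 4 0 * arZ 4 6 1 * arZ 6 3 0 * arZ 3 5 1 -
        arZ 2 5 1 * arZ 7 2 0 * arZ 4 7 1 * arZ 6 4 0 * arZ 3 6 1 * arZ 5 3 0 ≠ 0 := by decide
      exact_mod_cast hz)
  simp only [map_sub, map_mul, aeval_arP] at h
  exact h

theorem coord_ne {p : Fin 8 → Fin 2 → ℝ}
    (hp : AlgebraicIndependent ℚ (fun x : Fin 8 × Fin 2 => p x.1 x.2)) {i j : Fin 8}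
    (hij : i ≠ j) (k : Fin 2) : p i k - p j k ≠ 0 := by
  rw [sub_ne_zero]
  intro h
  have := hp.injective (a₁ := (i, k)) (a₂ := (j, k)) h
  exact hij (congrArg Prod.fst this)

theorem rigid {p : Fin 8 → Fin 2 → ℝ}
    (hp : AlgebraicIndependent ℚ (fun x : Fin 8 × Fin 2 => p x.1 x.2))
    (u : Fin 8 → Fin 2 → ℝ)
    (hu : ∀ i j, GG.Adj i j → ∑ k, (p i k - p j k) * (u i k - u j k) = 0) :
    ∀ i j, ∑ k, (p i k - p j k) * (u i k - u j k) = 0 := by
  have n01 : (p 1 0 - p 0 0) ^ 2 + (p 1 1 - p 0 1) ^ 2 ≠ 0 := by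
    have := coord_ne hp (show (1 : Fin 8) ≠ 0 by decide) 0
    positivity
  obtain ⟨ω, hω⟩ : ∃ ω : ℝ, ω = ((p 1 0 - p 0 0) * (u 1 1 - u 0 1) -
    (p 1 1 - p 0 1) * (u 1 0 - u 0 0)) / ((p 1 0 - p 0 0) ^ 2 + (p 1 1 - p 0 1) ^ 2) := ⟨_, rfl⟩
  rw [eq_div_iff n01] at hω
  -- normalised velocities
  obtain ⟨U, hU⟩ : ∃ U : Fin 8 → ℝ, ∀ i, U i = u i 0 - u 0 0 + ω * (p i 1 - p 0 1) :=
    ⟨_, fun _ => rfl⟩
  obtain ⟨V, hV⟩ : ∃ V : Fin 8 → ℝ, ∀ i, V i = u i 1 - u 0 1 - ω * (p i 0 - p 0 0) :=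
    ⟨_, fun _ => rfl⟩
  have edge : ∀ i : Ix, (p (ed i).1 0 - p (ed i).2 0) * (U (ed i).1 - U (ed i).2) +
      (p (ed i).1 1 - p (ed i).2 1) * (V (ed i).1 - V (ed i).2) = 0 := by
    intro i
    have h := hu _ _ (GG_adj i)
    rw [Fin.sum_univ_two] at h
    rw [hU, hU, hV, hV]
    linear_combination h
  have U0 : U 0 = 0 := by rw [hU]; ring
  have V0 : V 0 = 0 := by rw [hV]; ring
  have e01 : (p 0 0 - p 1 0) * (u 0 0 - u 1 0) + (p 0 1 - p 1 1) * (u 0 1 - u 1 1) = 0 := by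
    have h := hu _ _ (GG_adj .a)
    rw [Fin.sum_univ_two] at h
    exact h
  have U1 : U 1 = 0 := by
    have : ((p 1 0 - p 0 0) ^ 2 + (p 1 1 - p 0 1) ^ 2) * U 1 = 0 := by
      rw [hU]
      linear_combination (p 1 0 - p 0 0) * e01 + (p 1 1 - p 0 1) * hω
    exact (mul_eq_zero.1 this).resolve_left n01
  have V1 : V 1 = 0 := by
    have : ((p 1 0 - p 0 0) ^ 2 + (p 1 1 - p 0 1) ^ 2) * V 1 = 0 := by
      rw [hV]
      linear_combination (p 1 1 - p 0 1) * e01 - (p 1 0 - p 0 0) * hω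
    exact (mul_eq_zero.1 this).resolve_left n01
  -- angular velocities
  have par : ∀ i o : Fin 8, i ≠ o → U o = 0 → V o = 0 →
      (p i 0 - p o 0) * (U i - U o) + (p i 1 - p o 1) * (V i - V o) = 0 →
      ∃ α : ℝ, U i = -α * (p i 1 - p o 1) ∧ V i = α * (p i 0 - p o 0) := by
    intro i o hio hUo hVo h
    have hne := coord_ne hp hio 0
    refine ⟨V i / (p i 0 - p o 0), ?_, ?_⟩
    · rw [hUo, hVo] at h
      field_simp
      linear_combination h
    · field_simp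
  obtain ⟨a5, u5, v5⟩ := par 5 0 (by decide) U0 V0 (by
    have := edge .e; simp only [ed] at this; linear_combination this)
  obtain ⟨a6, u6, v6⟩ := par 6 0 (by decide) U0 V0 (by
    have := edge .b; simp only [ed] at this; linear_combination this)
  obtain ⟨a7, u7, v7⟩ := par 7 0 (by decide) U0 V0 (by
    have := edge .c; simp only [ed] at this; linear_combination this)
  obtain ⟨b2, u2, v2⟩ := par 2 1 (by decide) U1 V1 (by
    have := edge .g; simp only [ed] at this; linear_combination this)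
  obtain ⟨b3, u3, v3⟩ := par 3 1 (by decide) U1 V1 (by
    have := edge .a3; simp only [ed] at this; linear_combination this)
  obtain ⟨b4, u4, v4⟩ := par 4 1 (by decide) U1 V1 (by
    have := edge .a4; simp only [ed] at this; linear_combination this)
  have E52 : -a5 * ar p 5 2 0 = b2 * ar p 2 5 1 := by
    have := edge .h
    simp only [ed] at this
    rw [u5, u2, v5, v2] at this
    unfold ar
    linear_combination this
  have E72 : -a7 * ar p 7 2 0 = b2 * ar p 2 7 1 := by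
    have := edge .k
    simp only [ed] at this
    rw [u7, u2, v7, v2] at this
    unfold ar
    linear_combination this
  have E74 : -a7 * ar p 7 4 0 = b4 * ar p 4 7 1 := by
    have := edge .f7
    simp only [ed] at this
    rw [u7, u4, v7, v4] at this
    unfold ar
    linear_combination this
  have E64 : -a6 * ar p 6 4 0 = b4 * ar p 4 6 1 := by
    have := edge .b4
    simp only [ed] at this
    rw [u6, u4, v6, v4] at this
    unfold ar
    linear_combination this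
  have E63 : -a6 * ar p 6 3 0 = b3 * ar p 3 6 1 := by
    have := edge .b3
    simp only [ed] at this
    rw [u6, u3, v6, v3] at this
    unfold ar
    linear_combination this
  have E53 : -a5 * ar p 5 3 0 = b3 * ar p 3 5 1 := by
    have := edge .f
    simp only [ed] at this
    rw [u5, u3, v5, v3] at this
    unfold ar
    linear_combination this
  have a50 : a5 = 0 := by
    have h : a5 * (ar p 5 2 0 * ar p 2 7 1 * ar p 7 4 0 * ar p 4 6 1 * ar p 6 3 0 * ar p 3 5 1 -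
      ar p 2 5 1 * ar p 7 2 0 * ar p 4 7 1 * ar p 6 4 0 * ar p 3 6 1 * ar p 5 3 0) = 0 := by
      linear_combination (-(ar p 2 7 1 * ar p 7 4 0 * ar p 4 6 1 * ar p 6 3 0 * ar p 3 5 1)) * E52
        + (ar p 2 5 1 * ar p 7 4 0 * ar p 4 6 1 * ar p 6 3 0 * ar p 3 5 1) * E72
        - (ar p 2 5 1 * ar p 7 2 0 * ar p 4 6 1 * ar p 6 3 0 * ar p 3 5 1) * E74
        + (ar p 2 5 1 * ar p 7 2 0 * ar p 4 7 1 * ar p 6 3 0 * ar p 3 5 1) * E64
        - (ar p 2 5 1 * ar p 7 2 0 * ar p 4 7 1 * ar p 6 4 0 * ar p 3 5 1) * E63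
        + (ar p 2 5 1 * ar p 7 2 0 * ar p 4 7 1 * ar p 6 4 0 * ar p 3 6 1) * E53
    exact (mul_eq_zero.1 h).resolve_right (Q_ne hp)
  have q251 : ar p 2 5 1 ≠ 0 := ar_ne hp 2 5 1 (by decide)
  have q351 : ar p 3 5 1 ≠ 0 := ar_ne hp 3 5 1 (by decide)
  have q720 : ar p 7 2 0 ≠ 0 := ar_ne hp 7 2 0 (by decide)
  have q471 : ar p 4 7 1 ≠ 0 := ar_ne hp 4 7 1 (by decide)
  have q640 : ar p 6 4 0 ≠ 0 := ar_ne hp 6 4 0 (by decide)
  have b20 : b2 = 0 := by
    rw [a50, neg_zero, zero_mul] at E52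
    exact (mul_eq_zero.1 E52.symm).resolve_right q251
  have b30 : b3 = 0 := by
    rw [a50, neg_zero, zero_mul] at E53
    exact (mul_eq_zero.1 E53.symm).resolve_right q351
  have a70 : a7 = 0 := by
    rw [b20, zero_mul] at E72
    exact neg_eq_zero.1 ((mul_eq_zero.1 E72).resolve_right q720)
  have b40 : b4 = 0 := by
    rw [a70, neg_zero, zero_mul] at E74
    exact (mul_eq_zero.1 E74.symm).resolve_right q471
  have a60 : a6 = 0 := by
    rw [b40, zero_mul] at E64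
    exact neg_eq_zero.1 ((mul_eq_zero.1 E64).resolve_right q640)
  have w2 : U 2 = 0 ∧ V 2 = 0 := ⟨by rw [u2, b20]; ring, by rw [v2, b20]; ring⟩
  have w3 : U 3 = 0 ∧ V 3 = 0 := ⟨by rw [u3, b30]; ring, by rw [v3, b30]; ring⟩
  have w4 : U 4 = 0 ∧ V 4 = 0 := ⟨by rw [u4, b40]; ring, by rw [v4, b40]; ring⟩
  have w5 : U 5 = 0 ∧ V 5 = 0 := ⟨by rw [u5, a50]; ring, by rw [v5, a50]; ring⟩
  have w6 : U 6 = 0 ∧ V 6 = 0 := ⟨by rw [u6, a60]; ring, by rw [v6, a60]; ring⟩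
  have w7 : U 7 = 0 ∧ V 7 = 0 := ⟨by rw [u7, a70]; ring, by rw [v7, a70]; ring⟩
  have all0 : ∀ i, U i = 0 ∧ V i = 0 := by
    intro i
    fin_cases i
    · exact ⟨U0, V0⟩
    · exact ⟨U1, V1⟩
    · exact w2
    · exact w3
    · exact w4
    · exact w5
    · exact w6
    · exact w7
  intro i j
  rw [Fin.sum_univ_two]
  have h1 := (all0 i).1
  have h2 := (all0 i).2
  have h3 := (all0 j).1
  have h4 := (all0 j).2
  rw [hU] at h1 h3
  rw [hV] at h2 h4
  linear_combination (p i 0 - p j 0) * (h1 - h3) + (p i 1 - p j 1) * (h2 - h4)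

end Pool.Agent.TH532
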