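import Mathlib
import Pool.Agent.TH532.Rigid

set_option autoImplicit false

namespace Pool.Agent.TH532

open Pool.Agent.H789R3 ComplexConjugate

/-- complexification of a placement -/
def pc (p : Fin 8 → Fin 2 → ℝ) : Fin 8 → Fin 2 → ℂ := fun v i => ((p v i : ℝ) : ℂ)

theorem pc_inj {p : Fin 8 → Fin 2 → ℝ}
    (hp : AlgebraicIndependent ℚ (fun x : Fin 8 × Fin 2 => p x.1 x.2)) :
    Function.Injective (MvPolynomial.aeval (R := ℚ) (fun x : Fin 8 × Fin 2 => pc p x.1 x.2)) := by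
  rw [injective_iff_map_eq_zero]
  intro P hP
  have h1 : MvPolynomial.aeval (R := ℚ) (fun x : Fin 8 × Fin 2 => pc p x.1 x.2) P =
      ((MvPolynomial.aeval (R := ℚ) (fun x : Fin 8 × Fin 2 => p x.1 x.2) P : ℝ) : ℂ) := by
    have h2 := MvPolynomial.comp_aeval_apply (R := ℚ) (f := fun x : Fin 8 × Fin 2 => p x.1 x.2)
      ((Complex.ofRealAm).restrictScalars ℚ) P
    exact h2.symm
  rw [h1] at hP
  have h3 : (MvPolynomial.aeval (R := ℚ) (fun x : Fin 8 × Fin 2 => p x.1 x.2) P : ℝ) = 0 := by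
    exact_mod_cast hP
  have h4 := hp
  rw [AlgebraicIndependent] at h4
  exact h4 (h3.trans (map_zero _).symm)

def ln (p : Fin 8 → Fin 2 → ℝ) (u v : Fin 8) : ℝ := ∑ i, (p u i - p v i) ^ 2

theorem dC_pc (p : Fin 8 → Fin 2 → ℝ) (u v : Fin 8) : dC (pc p) s(u, v) = (ln p u v : ℂ) := by
  change ∑ i, (pc p u i - pc p v i) ^ 2 = _
  simp [pc, ln]

noncomputable def PP (p : Fin 8 → Fin 2 → ℝ) : Par :=
  ⟨ln p 0 1, ln p 0 6, ln p 1 3, ln p 3 6, ln p 1 4, ln p 4 6, ln p 0 5, ln p 3 5, ln p 0 7,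
    ln p 4 7, ln p 1 2, ln p 2 5, ln p 2 7⟩

theorem PP_vec (p : Fin 8 → Fin 2 → ℝ) : (PP p).vec = fun i => dC (pc p) (es i) := by
  funext i
  unfold es
  rw [dC_pc]
  cases i <;> rfl

theorem PP_re (p : Fin 8 → Fin 2 → ℝ) : (PP p).Re := by
  constructor <;> exact Complex.conj_ofReal _

theorem EE_hcard : EE.card + 3 = 2 * Fintype.card (Fin 8) := by
  rw [EE_card, Fintype.card_fin]

theorem PP_gen {p : Fin 8 → Fin 2 → ℝ}
    (hp : AlgebraicIndependent ℚ (fun x : Fin 8 × Fin 2 => p x.1 x.2)) : GenV (PP p).vec := by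
  obtain ⟨c, hc⟩ := lens_indep (0 : Fin 8) 1 EE (es_mem .a) EE_diag EE_hcard
    (fun S hS => by convert EE_sparse S hS) (pc p) (pc_inj hp)
  have h1 := genV_of_indep c hc
  have h2 := h1.comp (fun i : Ix => (⟨es i, es_mem i⟩ : EE)) (by
    intro i j h
    exact es_inj (congrArg Subtype.val h))
  rw [PP_vec]
  exact h2

theorem finite_C {p : Fin 8 → Fin 2 → ℝ}
    (hp : AlgebraicIndependent ℚ (fun x : Fin 8 × Fin 2 => p x.1 x.2)) :
    {D : Fin 8 → Fin 8 → ℂ | ∃ q : Fin 8 → Fin 2 → ℂ,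
          (∀ i j, GG.Adj i j →
            ∑ k, (q i k - q j k) ^ 2 = ∑ k, ((p i k : ℂ) - (p j k : ℂ)) ^ 2) ∧
          D = fun i j => ∑ k, (q i k - q j k) ^ 2}.Finite := by
  have hG := PP_gen hp
  have ha0 : dC (pc p) s(0, 1) ≠ 0 := by
    have h1 := g_a0 (genA hG)
    have h2 : (PP p).a = dC (pc p) s(0, 1) := (dC_pc p 0 1).symm
    rw [← h2]
    exact h1
  have h := (main_lower (0 : Fin 8) 1 EE (es_mem .a) EE_diag EE_hcard
    (fun S hS => by convert EE_sparse S hS) (pc p) (pc_inj hp) ha0).1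
  refine h.subset ?_
  rintro D ⟨q, hq, rfl⟩
  refine ⟨q, fun e he => ?_, rfl⟩
  obtain ⟨i, rfl⟩ := EE_cases he
  exact hq _ _ (GG_adj i)

/-- coordinates from null coordinates -/
noncomputable def qq (s t : Fin 8 → ℂ) : Fin 8 → Fin 2 → ℂ := fun i k =>
  if k = 0 then (s i + t i) / 2 else (s i - t i) / (2 * Complex.I)

theorem qq_len (s t : Fin 8 → ℂ) (i j : Fin 8) :
    ∑ k, (qq s t i k - qq s t j k) ^ 2 = (s i - s j) * (t i - t j) := by
  rw [Fin.sum_univ_two]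
  simp only [qq, if_true, one_ne_zero, if_false, Fin.isValue]
  have hI : Complex.I ≠ 0 := Complex.I_ne_zero
  have h1 : ∀ a b : ℂ, (a / (2 * Complex.I) - b / (2 * Complex.I)) ^ 2 = - (a - b) ^ 2 / 4 := by
    intro a b
    rw [← sub_div, div_pow, mul_pow, Complex.I_sq]
    ring
  rw [h1]
  ring

theorem key {p : Fin 8 → Fin 2 → ℝ}
    (hp : AlgebraicIndependent ℚ (fun x : Fin 8 × Fin 2 => p x.1 x.2)) :
    {D : Fin 8 → Fin 8 → ℝ | ∃ q : Fin 8 → Fin 2 → ℝ,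
          (∀ i j, GG.Adj i j → ∑ k, (q i k - q j k) ^ 2 = ∑ k, (p i k - p j k) ^ 2) ∧
          D = fun i j => ∑ k, (q i k - q j k) ^ 2}.ncard <
      {D : Fin 8 → Fin 8 → ℂ | ∃ q : Fin 8 → Fin 2 → ℂ,
          (∀ i j, GG.Adj i j →
            ∑ k, (q i k - q j k) ^ 2 = ∑ k, ((p i k : ℂ) - (p j k : ℂ)) ^ 2) ∧
          D = fun i j => ∑ k, (q i k - q j k) ^ 2}.ncard := by
  have hfin := finite_C hp
  have hG := PP_gen hp
  set C := {D : Fin 8 → Fin 8 → ℂ | ∃ q : Fin 8 → Fin 2 → ℂ,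
          (∀ i j, GG.Adj i j →
            ∑ k, (q i k - q j k) ^ 2 = ∑ k, ((p i k : ℂ) - (p j k : ℂ)) ^ 2) ∧
          D = fun i j => ∑ k, (q i k - q j k) ^ 2} with hC
  set R := {D : Fin 8 → Fin 8 → ℝ | ∃ q : Fin 8 → Fin 2 → ℝ,
          (∀ i j, GG.Adj i j → ∑ k, (q i k - q j k) ^ 2 = ∑ k, (p i k - p j k) ^ 2) ∧
          D = fun i j => ∑ k, (q i k - q j k) ^ 2} with hR
  let cst : (Fin 8 → Fin 8 → ℝ) → (Fin 8 → Fin 8 → ℂ) := fun D i j => ((D i j : ℝ) : ℂ)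
  have hcst : Function.Injective cst := by
    intro D D' h
    funext i j
    exact Complex.ofReal_injective (congrFun (congrFun h i) j)
  have hsub : cst '' R ⊆ C := by
    rintro _ ⟨D, ⟨q, hq, rfl⟩, rfl⟩
    refine ⟨fun i k => (q i k : ℂ), fun i j hij => ?_, ?_⟩
    · have h2 := congrArg Complex.ofReal (hq i j hij)
      push_cast at h2
      exact h2
    · funext i j
      simp [cst]
  -- the additional member
  have hln : ∀ u v, 0 ≤ ln p u v := fun u v => Finset.sum_nonneg (fun i _ => sq_nonneg _)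
  have ha0 : 0 < ln p 0 1 := by
    refine lt_of_le_of_ne (hln 0 1) (fun h => ?_)
    apply g_a0 (genA hG)
    change ((ln p 0 1 : ℝ) : ℂ) = 0
    rw [← h]
    rfl
  have hb0 : 0 < ln p 0 6 := by
    refine lt_of_le_of_ne (hln 0 6) (fun h => ?_)
    apply g_b0 (genA hG)
    change ((ln p 0 6 : ℝ) : ℂ) = 0
    rw [← h]
    rfl
  obtain ⟨x, hx, s0, t0, s2, t2, s3, t3, s4, t4, s5, t5, s7, t7, a1, b1, a3, b3, a4, b4, e1, f1,
    c1, f71, g1, h1, k1⟩ := exists_conf (PP_re p) hG (a := ln p 0 1) (b := ln p 0 6) rfl rfl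
      ha0 hb0
  let s : Fin 8 → ℂ := ![s0, 0, s2, s3, s4, s5, 1, s7]
  let t : Fin 8 → ℂ := ![t0, 0, t2, t3, t4, t5, x, t7]
  have hlen : ∀ i : Ix, (s (ed i).1 - s (ed i).2) * (t (ed i).1 - t (ed i).2) =
      (ln p (ed i).1 (ed i).2 : ℂ) := by
    intro i
    cases i
    · change (s0 - 0) * (t0 - 0) = (PP p).a
      rw [← a1]; ring
    · exact b1
    · change (0 - s3) * (0 - t3) = (PP p).a3
      rw [← a3]; ring
    · exact b3
    · change (0 - s4) * (0 - t4) = (PP p).a4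
      rw [← a4]; ring
    · exact b4
    · change (s0 - s5) * (t0 - t5) = (PP p).e
      rw [← e1]; ring
    · change (s3 - s5) * (t3 - t5) = (PP p).f
      rw [← f1]; ring
    · change (s0 - s7) * (t0 - t7) = (PP p).c
      rw [← c1]; ring
    · change (s4 - s7) * (t4 - t7) = (PP p).f7
      rw [← f71]; ring
    · change (0 - s2) * (0 - t2) = (PP p).g
      rw [← g1]; ring
    · exact h1
    · exact k1
  have hmem : (fun i j => ∑ k, (qq s t i k - qq s t j k) ^ 2) ∈ C := by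
    refine ⟨qq s t, fun i j hij => ?_, rfl⟩
    obtain ⟨n, hn⟩ := GG_cases hij
    rw [qq_len]
    have e2 : ∑ k, ((p i k : ℂ) - (p j k : ℂ)) ^ 2 = dC (pc p) s(i, j) := rfl
    have e3 : (s i - s j) * (t i - t j) = dC (qq s t) s(i, j) := (qq_len s t i j).symm
    rw [e2, e3, hn]
    have e4 : dC (pc p) (es n) = (ln p (ed n).1 (ed n).2 : ℂ) := dC_pc p _ _
    have e5 : dC (qq s t) (es n) = (s (ed n).1 - s (ed n).2) * (t (ed n).1 - t (ed n).2) :=
      qq_len s t _ _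
    rw [e4, e5]
    exact hlen n
  have hnot : (fun i j => ∑ k, (qq s t i k - qq s t j k) ^ 2) ∉ cst '' R := by
    rintro ⟨D, ⟨q, hq, rfl⟩, hD⟩
    have hd : ∀ i j, ((∑ k, (q i k - q j k) ^ 2 : ℝ) : ℂ) = (s i - s j) * (t i - t j) := by
      intro i j
      have := congrFun (congrFun hD i) j
      simp only [cst] at this
      rw [this, qq_len]
    have d01 : ∑ k, (q 0 k - q 1 k) ^ 2 = ln p 0 1 := by
      have := (hd 0 1).trans (hlen .a)
      exact_mod_cast this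
    have d06 : ∑ k, (q 0 k - q 6 k) ^ 2 = ln p 0 6 := by
      have := (hd 0 6).trans (hlen .b)
      exact_mod_cast this
    have d16 : ∑ k, (q 1 k - q 6 k) ^ 2 = x := by
      have h2 := hd 1 6
      have h3 : (s 1 - s 6) * (t 1 - t 6) = (x : ℂ) := by
        change (0 - 1) * (0 - (x : ℂ)) = x
        ring
      rw [h3] at h2
      exact_mod_cast h2
    rw [Fin.sum_univ_two] at d01 d06 d16
    rw [← d01, ← d06, ← d16] at hx
    nlinarith [sq_nonneg ((q 0 0 - q 1 0) * (q 0 1 - q 6 1) - (q 0 1 - q 1 1) * (q 0 0 - q 6 0))]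
  have hlt : cst '' R ⊂ C := ⟨hsub, fun h => hnot (h hmem)⟩
  have h2 := Set.ncard_lt_ncard hlt hfin
  rw [Set.ncard_image_of_injective R hcst] at h2
  exact h2

end Pool.Agent.TH532
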